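import Pool.Agent.SMT.CubeBasic

/-!
# MODULE BlockDom: replacing independent bits of bias `q` by bits of bias `P ≥ q` read through an
injective map

`π : ι → κ` has fibres of size `≤ 1` and `q ≤ P`. Copy `Pool/Agent/SMT/BlockDom.lean` with `d = 1` and
the outer bias `1/2` replaced by `P`: `BlockDom_aux` gives
`E g ≤ (1 - s) A + s B` with `s = (1-q)^|B| ≥ 1 - q ≥ 1 - P` (`|B| ≤ 1`) and `A ≥ B`, hence
`E g ≤ P A + (1 - P) B`, which is the average over the bit `u j` of bias `P` (`ex_split P`).
-/

namespace OST

open Finset SMT SMT.Cube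

variable {ι κ : Type} [Fintype ι] [DecidableEq ι] [Fintype κ] [DecidableEq κ]

/-- the point `x` with the coordinates in `B` replaced by `b` -/
private def st (B : Finset ι) (b : Bool) (x : ι → Bool) : ι → Bool := fun i => if i ∈ B then b else x i

private theorem BlockDom_aux {q : ℝ} (h0 : 0 ≤ q) (h1 : q ≤ 1) (B : Finset ι)
    {g : (ι → Bool) → ℝ} (hg : Monotone g) :
    ex q g ≤ (1 - (1 - q) ^ B.card) * ex q (fun x => g (st B true x)) +
      (1 - q) ^ B.card * ex q (fun x => g (st B false x)) := by
  induction B using Finset.induction_on with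
  | empty =>
    have h2 : ∀ x : ι → Bool, st ∅ false x = x := fun x => by
      funext i
      unfold st
      simp
    simp [h2]
  | insert i B hi ih =>
    have hs0 : 0 ≤ (1 - q) ^ B.card := pow_nonneg (by linarith) _
    have hs1 : (1 - q) ^ B.card ≤ 1 := pow_le_one₀ (by linarith) (by linarith)
    have e1 : ex q (fun x => g (st B true x)) ≤ ex q (fun x => g (st (insert i B) true x)) := by
      refine ex_mono h0 h1 fun x => hg fun k => ?_
      unfold st
      by_cases hk : k ∈ B
      · simp [hk]
      · by_cases hki : k = i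
        · simp [hki, Bool.le_true]
        · simp [hk, hki]
    have e0 : ex q (fun x => g (st B false x)) ≤
        q * ex q (fun x => g (st (insert i B) true x)) +
          (1 - q) * ex q (fun x => g (st (insert i B) false x)) := by
      rw [ex_split q _ i, ← ex_mul_left, ← ex_mul_left, ← ex_add]
      refine ex_mono h0 h1 fun x => add_le_add ?_ ?_
      · refine mul_le_mul_of_nonneg_left (hg fun k => ?_) h0
        unfold st
        by_cases hk : k ∈ B
        · simp [hk]
        · by_cases hki : k = i
          · simp [hki, Bool.le_true]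
          · simp [hk, hki]
      · refine mul_le_mul_of_nonneg_left (hg fun k => ?_) (by linarith)
        unfold st
        by_cases hk : k ∈ B
        · simp [hk]
        · by_cases hki : k = i
          · simp [hki]
          · simp [hk, hki]
    rw [Finset.card_insert_of_notMem hi]
    have m1 := mul_le_mul_of_nonneg_left e1 (by linarith : 0 ≤ 1 - (1 - q) ^ B.card)
    have m0 := mul_le_mul_of_nonneg_left e0 hs0
    refine ih.trans ((add_le_add m1 m0).trans (le_of_eq ?_))
    ring

private theorem BlockDom_half {q P : ℝ} (h0 : 0 ≤ q) (hqP : q ≤ P) (hP : P ≤ 1)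
    (B : Finset ι) (hB : B.card ≤ 1) {g : (ι → Bool) → ℝ} (hg : Monotone g) :
    ex q g ≤ P * ex q (fun x => g (st B true x)) +
      (1 - P) * ex q (fun x => g (st B false x)) := by
  have h1 : q ≤ 1 := hqP.trans hP
  have h2 := BlockDom_aux h0 h1 B hg
  have h3 : (1 - q) ^ 1 ≤ (1 - q) ^ B.card :=
    pow_le_pow_of_le_one (by linarith) (by linarith) hB
  have h4 : ex q (fun x => g (st B false x)) ≤ ex q (fun x => g (st B true x)) := by
    refine ex_mono h0 h1 fun x => hg fun k => ?_
    unfold st
    by_cases hk : k ∈ B
    · simp [hk]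
    · simp [hk]
  rw [pow_one] at h3
  nlinarith [mul_le_mul_of_nonneg_left h4 (by linarith : 0 ≤ (1 - q) ^ B.card - (1 - P))]

/-- the hybrids -/
private noncomputable def hyb (q P : ℝ) (π : ι → κ) (f : (ι → Bool) → ℝ) (T : Finset κ) : ℝ :=
  ex P (fun u : κ → Bool => ex q (fun x => f (fun i => if π i ∈ T then u (π i) else x i)))

private theorem BlockDom_step {q P : ℝ} (h0 : 0 ≤ q) (hqP : q ≤ P) (hP : P ≤ 1)
    (π : ι → κ) (hπ : ∀ j, (univ.filter fun i => π i = j).card ≤ 1)
    {f : (ι → Bool) → ℝ} (hf : Monotone f) (T : Finset κ) (j : κ) (hj : j ∉ T) :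
    hyb q P π f T ≤ hyb q P π f (insert j T) := by
  unfold hyb
  rw [ex_split P (fun u : κ → Bool => ex q (fun x => f (fun i =>
    if π i ∈ insert j T then u (π i) else x i))) j]
  refine ex_mono (h0.trans hqP) hP fun u => ?_
  have hg : Monotone (fun x : ι → Bool => f (fun i => if π i ∈ T then u (π i) else x i)) := by
    intro x y hxy
    refine hf fun i => ?_
    by_cases h : π i ∈ T
    · simp [h]
    · simp only [h, if_false]
      exact hxy i
  have h2 := BlockDom_half h0 hqP hP (univ.filter fun i => π i = j) (hπ j) hg
  have key : ∀ b : Bool, (fun x : ι → Bool => f (fun i => if π i ∈ T then u (π i) else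
      st (univ.filter fun i => π i = j) b x i)) =
      fun x => f (fun i => if π i ∈ insert j T then (Function.update u j b) (π i) else x i) := by
    intro b
    funext x
    congr 1
    funext i
    by_cases h : π i = j
    · simp [h, hj, st]
    · simp [h, st]
  rw [key true, key false] at h2
  exact h2

theorem block_dom1 {q P : ℝ} (h0 : 0 ≤ q) (hqP : q ≤ P) (hP : P ≤ 1)
    (π : ι → κ) (hπ : ∀ j, (univ.filter fun i => π i = j).card ≤ 1)
    {f : (ι → Bool) → ℝ} (hf : Monotone f) :
    ex q f ≤ ex P (fun u : κ → Bool => f (fun i => u (π i))) := by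
  have hH : ∀ T : Finset κ, hyb q P π f ∅ ≤ hyb q P π f T := by
    intro T
    induction T using Finset.induction_on with
    | empty => exact le_refl _
    | insert j T hj ih => exact ih.trans (BlockDom_step h0 hqP hP π hπ hf T j hj)
  have h2 := hH univ
  unfold hyb at h2
  simp only [Finset.notMem_empty, if_false, Finset.mem_univ, if_true, ex_const] at h2
  exact h2

end OST
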