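import Pool.Agent.OST.Red

/-!
# MODULE Ladder: the thresholds

In a `Lad L al b`: `L (a_(t+1) - a_t) = b - a_t`, so by induction `a_t < b` and `a_t < a_(t+1)` (as
`L ≥ 2`: `b - a_(t+1) = (b - a_t)(1 - 1/L) > 0`).
Existence, for `B ≥ 1`: `b = B L^L`, `a_t = B (L^L - (L-1)^t L^(L-t))` for `t ≤ L`
(`al = (List.range (L+1)).map ..`): `b - a_t = B (L-1)^t L^(L-t)`,
`a_(t+1) - a_t = B (L-1)^t L^(L-t-1)`; `(b - a_L)/b = (1 - 1/L)^L`.
-/

namespace OST

theorem Lad.lt {L : ℕ} {al : List ℕ} {b : ℕ} (h : Lad L al b) {t : ℕ} (ht : t ≤ L) :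
    th al t < b := by
  induction t with
  | zero => rw [h.zero]; exact h.pos
  | succ t ih =>
    have h1 := ih (by omega)
    have h2 := h.step t (by omega)
    have h3 := h.two_le
    by_contra h4
    push Not at h4
    have h5 : L * b ≤ L * th al (t + 1) := Nat.mul_le_mul_left L h4
    obtain ⟨K, rfl⟩ : ∃ K, L = K + 2 := ⟨L - 2, by omega⟩
    nlinarith

theorem Lad.strict {L : ℕ} {al : List ℕ} {b : ℕ} (h : Lad L al b) {t : ℕ} (ht : t < L) :
    th al t < th al (t + 1) := by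
  have h1 := h.lt (t := t) (by omega)
  have h2 := h.step t ht
  have h3 : L * th al t < L * th al (t + 1) := by omega
  exact Nat.lt_of_mul_lt_mul_left h3

theorem Lad.mono {L : ℕ} {al : List ℕ} {b : ℕ} (h : Lad L al b) {t t' : ℕ} (htt : t ≤ t')
    (ht : t' ≤ L) : th al t ≤ th al t' := by
  induction t', htt using Nat.le_induction with
  | base => exact le_rfl
  | succ n hn ih => exact (ih (by omega)).trans (h.strict (by omega)).le

theorem Lad.one_le {L : ℕ} {al : List ℕ} {b : ℕ} (h : Lad L al b) : 1 ≤ th al (L - 1) := by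
  have h2 := h.two_le
  have h3 := h.strict (t := 0) (by omega)
  have h4 := h.mono (t := 0 + 1) (t' := L - 1) (by omega) (by omega)
  omega

private theorem Ladder_th (L : ℕ) (f : ℕ → ℕ) {t : ℕ} (ht : t ≤ L) :
    th ((List.range (L + 1)).map f) t = f t := by
  unfold th
  rw [List.getD_eq_getElem?_getD, List.getElem?_map, List.getElem?_range (by omega)]
  rfl

theorem exists_lad (L : ℕ) (hL : 2 ≤ L) (η : ℝ) (hη : 0 < η) :
    ∃ (al : List ℕ) (b : ℕ), Lad L al b ∧ 1 ≤ η * b ∧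
      ((b : ℝ) - th al L) / b = (1 - 1 / (L : ℝ)) ^ L := by
  obtain ⟨B, hB⟩ := exists_nat_ge (1 / η)
  have hB0 : 0 < B := by
    have h1 : (0 : ℝ) < B := lt_of_lt_of_le (by positivity) hB
    exact_mod_cast h1
  obtain ⟨K, rfl⟩ : ∃ K, L = K + 1 := ⟨L - 1, by omega⟩
  have hM0 : 0 < (K + 1) ^ (K + 1) := by positivity
  have hle : ∀ t ≤ K + 1, K ^ t * (K + 1) ^ (K + 1 - t) ≤ (K + 1) ^ (K + 1) := by
    intro t ht
    calc K ^ t * (K + 1) ^ (K + 1 - t) ≤ (K + 1) ^ t * (K + 1) ^ (K + 1 - t) :=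
          Nat.mul_le_mul_right _ (Nat.pow_le_pow_left (by omega) t)
      _ = (K + 1) ^ (K + 1) := by rw [← pow_add]; congr 1; omega
  refine ⟨(List.range (K + 1 + 1)).map
    (fun t => B * ((K + 1) ^ (K + 1) - K ^ t * (K + 1) ^ (K + 1 - t))), B * (K + 1) ^ (K + 1),
    ⟨hL, by positivity, ?_, ?_⟩, ?_, ?_⟩
  · rw [Ladder_th _ _ (by omega)]
    simp
  · intro t ht
    rw [Ladder_th _ _ (by omega : t + 1 ≤ K + 1), Ladder_th _ _ (by omega : t ≤ K + 1)]
    have h1 := hle t (by omega)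
    have h2 := hle (t + 1) (by omega)
    have h3 : K + 1 - t = (K + 1 - (t + 1)) + 1 := by omega
    rw [h3] at h1
    rw [h3]
    zify [h1, h2]
    ring
  · have h1 : 1 ≤ η * B := by
      rw [div_le_iff₀ hη] at hB
      linarith
    have h2 : (1 : ℝ) ≤ ((K + 1) ^ (K + 1) : ℕ) := by exact_mod_cast hM0
    push_cast at h2 ⊢
    have h3 : (0 : ℝ) ≤ η * B := by linarith
    nlinarith
  · rw [Ladder_th _ _ le_rfl]
    have h1 := hle (K + 1) le_rfl
    have hBR : (B : ℝ) ≠ 0 := by exact_mod_cast hB0.ne'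
    have hK : ((K : ℝ) + 1) ≠ 0 := by positivity
    rw [Nat.sub_self, pow_zero, mul_one] at h1 ⊢
    rw [Nat.cast_mul, Nat.cast_mul, Nat.cast_sub h1]
    push_cast
    have h4 : (1 - 1 / ((K : ℝ) + 1)) = (K : ℝ) / (K + 1) := by
      field_simp
      ring
    rw [h4, div_pow]
    field_simp
    ring

end OST
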