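import Pool.Agent.SMT.Complete
import Pool.Agent.OST.Ladder

/-!
# MODULE Perm: the matching inside a node

A place `x < nN L b R = nw * L` of a node is (class `x / nw`, word `x % nw`), `nw = nw b R = b ^ R`.
If `good` is false: `P x = x`. If `good` is true: the man `x` of class `j` with the word `z` is low
if `z i ≥ a_L`; otherwise there is a unique `t < L` with `a_t ≤ z i < a_(t+1)` (`a_0 = 0`), and `P x`
is the woman of class `t` with the word `z` in which the letter at `i` is replaced by
`a_t + (z i - a_t) * L + j`, which is `< b` since `(z i - a_t) * L + j < (a_(t+1) - a_t) * L = b - a_t`.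
Inverse: the woman of class `t` with the word `w`, `w i ≥ a_t` (not low): `z i = a_t + (w i - a_t) / L`,
`j = (w i - a_t) % L`. (Words and numbers: `finFunctionFinEquiv`, `Complete_word` in
`Pool/Agent/SMT/Complete.lean`; compare `Complete_perm`, and `Complete_cardword` for `card_low1`.)
`perm1` (d): at `r ≠ i` the letters of the two words are equal; at `i` the woman's letter is `≥ a_t`.
-/

namespace OST

open Finset SMT

/-- the number of the word `k` with the letter `d` at `i` -/
def Perm_upd (b R : ℕ) (i : Fin R) (k d : ℕ) : ℕ :=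
  if h : k < b ^ R ∧ d < b then
    (finFunctionFinEquiv (m := b) (n := R) (Function.update
      ((finFunctionFinEquiv (m := b) (n := R)).symm ⟨k, h.1⟩) i ⟨d, h.2⟩) : ℕ) else 0

theorem Perm_upd_lt {b R : ℕ} (i : Fin R) {k d : ℕ} (hk : k < b ^ R) (hd : d < b) :
    Perm_upd b R i k d < b ^ R := by
  unfold Perm_upd
  rw [dif_pos ⟨hk, hd⟩]
  exact Fin.is_lt _

theorem Perm_upd_self {b R : ℕ} (i : Fin R) {k d : ℕ} (hk : k < b ^ R) (hd : d < b) :
    word b R (Perm_upd b R i k d) i = d := by
  unfold Perm_upd
  rw [dif_pos ⟨hk, hd⟩, Complete_word, Equiv.symm_apply_apply, Function.update_self]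

theorem Perm_upd_ne {b R : ℕ} (i : Fin R) {k d : ℕ} (hk : k < b ^ R) (hd : d < b) {j : Fin R}
    (hj : j ≠ i) : word b R (Perm_upd b R i k d) j = word b R k j := by
  unfold Perm_upd
  rw [dif_pos ⟨hk, hd⟩, Complete_word, Equiv.symm_apply_apply, Function.update_of_ne hj]
  exact (Complete_word ⟨k, hk⟩ j).symm

theorem Perm_ext {b R : ℕ} {k l : ℕ} (hk : k < b ^ R) (hl : l < b ^ R)
    (h : ∀ j : Fin R, word b R k j = word b R l j) : k = l := by
  have h1 : (finFunctionFinEquiv (m := b) (n := R)).symm ⟨k, hk⟩ =
      (finFunctionFinEquiv (m := b) (n := R)).symm ⟨l, hl⟩ := by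
    funext j
    apply Fin.ext
    rw [← Complete_word, ← Complete_word]
    exact h j
  exact congrArg Fin.val ((finFunctionFinEquiv (m := b) (n := R)).symm.injective h1)

theorem Perm_word_lt {b R : ℕ} (hb : 0 < b) (k : ℕ) (j : Fin R) : word b R k j < b :=
  Nat.mod_lt _ hb

/-- the class of thresholds of the letter `z` -/
theorem Perm_exists {L : ℕ} {al : List ℕ} {b : ℕ} (hl : Lad L al b) {z : ℕ} (hz : z < th al L) :
    ∃ t < L, th al t ≤ z ∧ z < th al (t + 1) := by
  by_contra hno
  push Not at hno
  have h : ∀ t ≤ L, th al t ≤ z := by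
    intro t
    induction t with
    | zero => intro _; rw [hl.zero]; exact Nat.zero_le _
    | succ t ih =>
      intro ht
      exact hno t (by omega) (ih (by omega))
  exact absurd (h L le_rfl) (not_le.mpr hz)

theorem Perm_unique {L : ℕ} {al : List ℕ} {b : ℕ} (hl : Lad L al b) {z t t' : ℕ} (ht : t < L)
    (ht' : t' < L) (h1 : th al t ≤ z) (h2 : z < th al (t + 1)) (h3 : th al t' ≤ z)
    (h4 : z < th al (t' + 1)) : t = t' := by
  rcases lt_trichotomy t t' with h | h | h
  · have := hl.mono (show t + 1 ≤ t' by omega) ht'.le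
    omega
  · exact h
  · have := hl.mono (show t' + 1 ≤ t by omega) ht.le
    omega

theorem perm1 {L : ℕ} {al : List ℕ} {b : ℕ} (hl : Lad L al b) (R : ℕ) (good : Prop) (i : Fin R) :
    ∃ P : ℕ → ℕ,
      -- (a) a man who is not low is matched to a woman who is not low
      (∀ x < nN L b R, ¬ (good ∧ th al L ≤ word b R (x % nw b R) i) →
        P x < nN L b R ∧ ¬ (good ∧ word b R (P x % nw b R) i < th al (P x / nw b R))) ∧
      -- (b) injective
      (∀ x < nN L b R, ∀ x' < nN L b R, ¬ (good ∧ th al L ≤ word b R (x % nw b R) i) →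
        ¬ (good ∧ th al L ≤ word b R (x' % nw b R) i) → P x = P x' → x = x') ∧
      -- (c) every woman who is not low is matched
      (∀ y < nN L b R, ¬ (good ∧ word b R (y % nw b R) i < th al (y / nw b R)) →
        ∃ x < nN L b R, ¬ (good ∧ th al L ≤ word b R (x % nw b R) i) ∧ P x = y) ∧
      -- (d) the pairs are acceptable
      (∀ x < nN L b R, ¬ (good ∧ th al L ≤ word b R (x % nw b R) i) →
        adjn1 (th al (P x / nw b R)) (th al (P x / nw b R)) b (id : Fin R → Fin R) id
          (x % nw b R) (P x % nw b R) = true) ∧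
      -- (e) the letter of the man reaches the threshold of his partner
      (good → ∀ x < nN L b R, ¬ (th al L ≤ word b R (x % nw b R) i) →
        th al (P x / nw b R) ≤ word b R (x % nw b R) i) := by
  classical
  have hb : 0 < b := hl.pos
  have hL : 0 < L := by have := hl.two_le; omega
  have hnw : 0 < nw b R := pow_pos hb R
  by_cases hg : good
  swap
  · refine ⟨id, ?_, ?_, ?_, ?_, ?_⟩
    · intro x hx _
      exact ⟨hx, fun h => hg h.1⟩
    · intro x _ x' _ _ _ h
      exact h
    · intro y hy _
      exact ⟨y, hy, fun h => hg h.1, rfl⟩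
    · intro x hx _
      unfold adjn1
      rw [decide_eq_true_iff]
      rintro j j' hjj ⟨h1, h2⟩
      have hjj' : j = j' := hjj
      subst hjj'
      exact absurd h1 (not_le.mpr h2)
    · intro h
      exact absurd h hg
  -- the class of a letter
  have hcl : ∀ z : ℕ, ∃ t, z < th al L → t < L ∧ th al t ≤ z ∧ z < th al (t + 1) := by
    intro z
    by_cases hz : z < th al L
    · obtain ⟨t, ht⟩ := Perm_exists hl hz
      exact ⟨t, fun _ => ht⟩
    · exact ⟨0, fun h => absurd h hz⟩
  choose cl hcl using hcl
  -- the letter of the woman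
  let dd : ℕ → ℕ := fun x =>
    th al (cl (word b R (x % nw b R) i)) +
      (word b R (x % nw b R) i - th al (cl (word b R (x % nw b R) i))) * L + x / nw b R
  have hx1 : ∀ x < nN L b R, x / nw b R < L := by
    intro x hx
    exact Nat.div_lt_of_lt_mul (by unfold nN at hx; exact hx)
  have hx2 : ∀ x, x % nw b R < b ^ R := fun x => Nat.mod_lt _ hnw
  have hdd : ∀ x < nN L b R, word b R (x % nw b R) i < th al L → dd x < b := by
    intro x hx hz
    obtain ⟨h1, h2, h3⟩ := hcl _ hz
    have h4 := hx1 x hx
    have h5 := hl.step _ h1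
    show th al (cl (word b R (x % nw b R) i)) + (word b R (x % nw b R) i -
      th al (cl (word b R (x % nw b R) i))) * L + x / nw b R < b
    generalize th al (cl (word b R (x % nw b R) i)) = A at *
    generalize th al (cl (word b R (x % nw b R) i) + 1) = A' at *
    generalize word b R (x % nw b R) i = z at *
    obtain ⟨u, rfl⟩ := Nat.exists_eq_add_of_le h2
    rw [Nat.add_sub_cancel_left]
    have h6 : A + u + 1 ≤ A' := h3
    have h7 : L * (A + u + 1) ≤ L * A' := Nat.mul_le_mul_left L h6
    have h8 : L * (A + u + 1) = L * A + u * L + L := by ring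
    omega
  have hpm : ∀ t w, w < nw b R → (t * nw b R + w) / nw b R = t ∧ (t * nw b R + w) % nw b R = w := by
    intro t w hw
    constructor
    · rw [mul_comm, Nat.mul_add_div hnw, Nat.div_eq_of_lt hw, add_zero]
    · rw [mul_comm, Nat.mul_add_mod, Nat.mod_eq_of_lt hw]
  have hlt : ∀ t w, t < L → w < nw b R → t * nw b R + w < nN L b R := by
    intro t w ht hw
    unfold nN
    calc t * nw b R + w < t * nw b R + nw b R := by omega
      _ = nw b R * (t + 1) := by ring
      _ ≤ nw b R * L := Nat.mul_le_mul_left _ ht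
  let P : ℕ → ℕ := fun x =>
    cl (word b R (x % nw b R) i) * nw b R + Perm_upd b R i (x % nw b R) (dd x)
  have hP : ∀ x < nN L b R, word b R (x % nw b R) i < th al L →
      P x / nw b R = cl (word b R (x % nw b R) i) ∧
      P x % nw b R = Perm_upd b R i (x % nw b R) (dd x) := by
    intro x hx hz
    exact hpm _ _ (Perm_upd_lt i (hx2 x) (hdd x hx hz))
  have hz' : ∀ x, ¬ (good ∧ th al L ≤ word b R (x % nw b R) i) →
      word b R (x % nw b R) i < th al L := by
    intro x h
    by_contra hh
    exact h ⟨hg, not_lt.mp hh⟩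
  refine ⟨P, ?_, ?_, ?_, ?_, ?_⟩
  · intro x hx hnl
    have hz := hz' x hnl
    obtain ⟨h1, h2, h3⟩ := hcl _ hz
    refine ⟨hlt _ _ h1 (Perm_upd_lt i (hx2 x) (hdd x hx hz)), ?_⟩
    rintro ⟨-, h4⟩
    rw [(hP x hx hz).1, (hP x hx hz).2, Perm_upd_self i (hx2 x) (hdd x hx hz)] at h4
    have h5 : th al (cl (word b R (x % nw b R) i)) ≤ dd x :=
      (Nat.le_add_right _ _).trans (Nat.le_add_right _ _)
    omega
  · intro x hx x' hx' hnl hnl' hPP
    have hz := hz' x hnl
    have hzz := hz' x' hnl'
    obtain ⟨h1, h2, h3⟩ := hcl _ hz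
    obtain ⟨g1, g2, g3⟩ := hcl _ hzz
    have e1 : cl (word b R (x % nw b R) i) = cl (word b R (x' % nw b R) i) := by
      rw [← (hP x hx hz).1, ← (hP x' hx' hzz).1, hPP]
    have e2 : Perm_upd b R i (x % nw b R) (dd x) = Perm_upd b R i (x' % nw b R) (dd x') := by
      rw [← (hP x hx hz).2, ← (hP x' hx' hzz).2, hPP]
    have e3 : dd x = dd x' := by
      rw [← Perm_upd_self i (hx2 x) (hdd x hx hz), e2, Perm_upd_self i (hx2 x') (hdd x' hx' hzz)]
    have e4 : ∀ j : Fin R, j ≠ i → word b R (x % nw b R) j = word b R (x' % nw b R) j := by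
      intro j hj
      rw [← Perm_upd_ne i (hx2 x) (hdd x hx hz) hj, e2, Perm_upd_ne i (hx2 x') (hdd x' hx' hzz) hj]
    have e5 : word b R (x % nw b R) i = word b R (x' % nw b R) i ∧ x / nw b R = x' / nw b R := by
      have e6 : th al (cl (word b R (x % nw b R) i)) +
          (word b R (x % nw b R) i - th al (cl (word b R (x % nw b R) i))) * L + x / nw b R =
          th al (cl (word b R (x' % nw b R) i)) +
          (word b R (x' % nw b R) i - th al (cl (word b R (x' % nw b R) i))) * L +
            x' / nw b R := e3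
      rw [← e1] at e6 g2
      have e7 := hx1 x hx
      have e8 := hx1 x' hx'
      generalize th al (cl (word b R (x % nw b R) i)) = A at *
      obtain ⟨u, hu⟩ := Nat.exists_eq_add_of_le h2
      obtain ⟨u', hu'⟩ := Nat.exists_eq_add_of_le g2
      rw [hu, hu', Nat.add_sub_cancel_left, Nat.add_sub_cancel_left] at e6
      have e9 : u * L + x / nw b R = u' * L + x' / nw b R := by omega
      have e10 : u = u' := by
        have f1 : (u * L + x / nw b R) / L = u := by
          rw [mul_comm, Nat.mul_add_div hL, Nat.div_eq_of_lt e7, add_zero]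
        have f2 : (u' * L + x' / nw b R) / L = u' := by
          rw [mul_comm, Nat.mul_add_div hL, Nat.div_eq_of_lt e8, add_zero]
        rw [← f1, ← f2, e9]
      constructor
      · rw [hu, hu', e10]
      · rw [e10] at e9
        omega
    have e6 : x % nw b R = x' % nw b R := by
      refine Perm_ext (hx2 x) (hx2 x') ?_
      intro j
      by_cases hj : j = i
      · rw [hj]; exact e5.1
      · exact e4 j hj
    rw [← Nat.div_add_mod x (nw b R), ← Nat.div_add_mod x' (nw b R), e6, e5.2]
  · intro y hy hny
    have ht : y / nw b R < L := hx1 y hy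
    have hw : th al (y / nw b R) ≤ word b R (y % nw b R) i := by
      by_contra h
      exact hny ⟨hg, not_le.mp h⟩
    have hwb : word b R (y % nw b R) i < b := Perm_word_lt hb _ _
    obtain ⟨u, hu⟩ := Nat.exists_eq_add_of_le hw
    have hstep := hl.step _ ht
    have hdm := Nat.div_add_mod u L
    have hml := Nat.mod_lt u hL
    -- the letter of the man
    have hz1 : th al (y / nw b R) + u / L < th al (y / nw b R + 1) := by
      by_contra h
      have h1 : th al (y / nw b R + 1) ≤ th al (y / nw b R) + u / L := not_lt.mp h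
      have h2 := Nat.mul_le_mul_left L h1
      rw [Nat.mul_add] at h2
      omega
    have hz2 : th al (y / nw b R) + u / L < th al L :=
      lt_of_lt_of_le hz1 (hl.mono (show y / nw b R + 1 ≤ L from ht) le_rfl)
    have hz3 : th al (y / nw b R) + u / L < b := hz2.trans (hl.lt le_rfl)
    have hxlt : (u % L) * nw b R + Perm_upd b R i (y % nw b R) (th al (y / nw b R) + u / L) <
        nN L b R := hlt _ _ hml (Perm_upd_lt i (hx2 y) hz3)
    obtain ⟨k1, k2⟩ := hpm (u % L) (Perm_upd b R i (y % nw b R) (th al (y / nw b R) + u / L))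
      (Perm_upd_lt i (hx2 y) hz3)
    have k3 : word b R (((u % L) * nw b R +
        Perm_upd b R i (y % nw b R) (th al (y / nw b R) + u / L)) % nw b R) i =
        th al (y / nw b R) + u / L := by
      rw [k2, Perm_upd_self i (hx2 y) hz3]
    have k4 : ∀ j : Fin R, j ≠ i → word b R (((u % L) * nw b R +
        Perm_upd b R i (y % nw b R) (th al (y / nw b R) + u / L)) % nw b R) j =
        word b R (y % nw b R) j := by
      intro j hj
      rw [k2, Perm_upd_ne i (hx2 y) hz3 hj]
    generalize (u % L) * nw b R + Perm_upd b R i (y % nw b R) (th al (y / nw b R) + u / L) = x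
      at hxlt k1 k2 k3 k4
    have hz : word b R (x % nw b R) i < th al L := by rw [k3]; exact hz2
    refine ⟨x, hxlt, fun h => absurd h.2 (not_le.mpr hz), ?_⟩
    obtain ⟨h1, h2, h3⟩ := hcl _ hz
    have e1 : cl (word b R (x % nw b R) i) = y / nw b R :=
      Perm_unique hl h1 ht h2 h3 (by rw [k3]; exact Nat.le_add_right _ _) (by rw [k3]; exact hz1)
    have e2 : dd x = word b R (y % nw b R) i := by
      show th al (cl (word b R (x % nw b R) i)) + (word b R (x % nw b R) i -
        th al (cl (word b R (x % nw b R) i))) * L + x / nw b R = _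
      rw [e1, k3, k1, hu, Nat.add_sub_cancel_left]
      have : u / L * L = L * (u / L) := mul_comm _ _
      omega
    have hPx := hP x hxlt hz
    have hdx := hdd x hxlt hz
    rw [← Nat.div_add_mod (P x) (nw b R), hPx.1, hPx.2, e1]
    have e3 : Perm_upd b R i (x % nw b R) (dd x) = y % nw b R := by
      refine Perm_ext (Perm_upd_lt i (hx2 x) hdx) (hx2 y) ?_
      intro j
      by_cases hj : j = i
      · rw [hj, Perm_upd_self i (hx2 x) hdx, e2]
      · rw [Perm_upd_ne i (hx2 x) hdx hj, k4 j hj]
    rw [e3]
    exact Nat.div_add_mod y (nw b R)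
  · intro x hx hnl
    have hz := hz' x hnl
    obtain ⟨h1, h2, h3⟩ := hcl _ hz
    unfold adjn1
    rw [decide_eq_true_iff]
    rintro j j' hjj ⟨g1, g2⟩
    have hjj' : j = j' := hjj
    subst hjj'
    rw [(hP x hx hz).1] at g1 g2
    rw [(hP x hx hz).2] at g2
    by_cases hj : j = i
    · rw [hj, Perm_upd_self i (hx2 x) (hdd x hx hz)] at g2
      have h5 : th al (cl (word b R (x % nw b R) i)) ≤ dd x :=
        (Nat.le_add_right _ _).trans (Nat.le_add_right _ _)
      omega
    · rw [Perm_upd_ne i (hx2 x) (hdd x hx hz) hj] at g2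
      omega
  · intro _ x hx hnl
    have hz : word b R (x % nw b R) i < th al L := not_le.mp hnl
    rw [(hP x hx hz).1]
    exact (hcl _ hz).2.1

/-- the number of low men of a node -/
theorem card_low1 {L : ℕ} {b : ℕ} (s R : ℕ) (hs : s ≤ b) (hb : 0 < b) (i : Fin R) :
    ((range (nN L b R)).filter fun x => s ≤ word b R (x % nw b R) i).card * b =
      (b - s) * nN L b R := by
  classical
  have hnw : 0 < nw b R := pow_pos hb R
  have h0 := Complete_cardword s b R hs i
  have h1 : ((range (nw b R)).filter fun k => s ≤ word b R k i).card * b = (b - s) * nw b R := by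
    have h2 := Finset.card_filter_add_card_filter_not (s := range (nw b R))
      (fun k => word b R k i < s)
    rw [Finset.card_range] at h2
    have h3 : ((range (nw b R)).filter fun k => ¬ (word b R k i < s)) =
        (range (nw b R)).filter fun k => s ≤ word b R k i := by
      apply Finset.filter_congr
      intro k _
      exact not_lt
    rw [h3] at h2
    have h4 := congrArg (· * b) h2
    simp only [Nat.add_mul] at h4
    rw [h0] at h4
    have h5 : (b - s) * nw b R = nw b R * b - s * nw b R := by
      rw [Nat.sub_mul, mul_comm b]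
    rw [h5]
    omega
  have h6 : ((range (nN L b R)).filter fun x => s ≤ word b R (x % nw b R) i).card =
      L * ((range (nw b R)).filter fun k => s ≤ word b R k i).card := by
    have h7 : L * ((range (nw b R)).filter fun k => s ≤ word b R k i).card =
        (range L ×ˢ (range (nw b R)).filter fun k => s ≤ word b R k i).card := by
      rw [Finset.card_product, Finset.card_range]
    rw [h7]
    refine Finset.card_bij' (fun x _ => (x / nw b R, x % nw b R))
      (fun p _ => p.1 * nw b R + p.2) ?_ ?_ ?_ ?_
    · intro x hx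
      obtain ⟨hx1, hx2⟩ := Finset.mem_filter.mp hx
      rw [Finset.mem_range] at hx1
      refine Finset.mem_product.mpr ⟨Finset.mem_range.mpr ?_, Finset.mem_filter.mpr
        ⟨Finset.mem_range.mpr (Nat.mod_lt _ hnw), hx2⟩⟩
      exact Nat.div_lt_of_lt_mul (by unfold nN at hx1; exact hx1)
    · intro p hp
      obtain ⟨hp1, hp2⟩ := Finset.mem_product.mp hp
      obtain ⟨hp3, hp4⟩ := Finset.mem_filter.mp hp2
      rw [Finset.mem_range] at hp1 hp3
      refine Finset.mem_filter.mpr ⟨Finset.mem_range.mpr ?_, ?_⟩
      · unfold nN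
        calc p.1 * nw b R + p.2 < p.1 * nw b R + nw b R := by omega
          _ = nw b R * (p.1 + 1) := by ring
          _ ≤ nw b R * L := Nat.mul_le_mul_left _ hp1
      · show s ≤ word b R ((p.1 * nw b R + p.2) % nw b R) i
        rw [mul_comm, Nat.mul_add_mod, Nat.mod_eq_of_lt hp3]
        exact hp4
    · intro x _
      show x / nw b R * nw b R + x % nw b R = x
      rw [mul_comm]
      exact Nat.div_add_mod x (nw b R)
    · intro p hp
      obtain ⟨_, hp2⟩ := Finset.mem_product.mp hp
      have hp3 := Finset.mem_range.mp (Finset.mem_filter.mp hp2).1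
      show ((p.1 * nw b R + p.2) / nw b R, (p.1 * nw b R + p.2) % nw b R) = p
      rw [mul_comm, Nat.mul_add_div hnw, Nat.div_eq_of_lt hp3, add_zero, Nat.mul_add_mod,
        Nat.mod_eq_of_lt hp3]
  rw [h6, mul_assoc, h1]
  unfold nN
  ring

end OST
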