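import Pool.Agent.SMT.Red

/-!
# One-sided ties: definitions (no proofs here)

MAX SMTI restricted to instances with strict lists of the men, and the reduction from unique games.

Parameters of the reduction: `L` (number of classes), the list `al` of the thresholds
`a_0 = 0 < a_1 < … < a_L < b` (`th al t`), `b` (letters `0, …, b-1`), `ℓ` (constraints in a tuple),
`C` (number of levels). An agent is `(v, c, j, k)`: tuple `v`, level `c < C`, class `j < L`, word
`k < b^R₁`, with number `μ = (v * C + c) * nN + (j * nw + k)`, `nw = b ^ R₁`, `nN = nw * L`.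
-/

namespace OST

open SMT

/-! ## The problem with one-sided ties -/

/-- No man is indifferent between two women of his list: ties occur only in the lists of the women. -/
def StrictMen (I : Inst) : Prop :=
  ∀ i j j' r, rankM I i j = some r → rankM I i j' = some r → j = j'

/-- On the instances without ties in the lists of the men, the algorithm `A` outputs weakly stable
matchings and has approximation ratio `r`. -/
def HasRatioOne (A : Inst → List (ℕ × ℕ)) (r : ℝ) : Prop :=
  ∀ I, StrictMen I → WeaklyStable I (A I) ∧ ∀ M, WeaklyStable I M → (M.length : ℝ) ≤ r * (A I).length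

/-- The infimum of the approximation ratios `r ≥ 1` of the polynomial-time algorithms for MAX SMTI
restricted to the instances in which only the lists of the women have ties. -/
noncomputable def rhoOne : ℝ :=
  sInf {r : ℝ | 1 ≤ r ∧ ∃ A : Inst → List (ℕ × ℕ), PTime A ∧ HasRatioOne A r}

/-! ## The reduction -/

/-- the threshold number `t` -/
def th (al : List ℕ) (t : ℕ) : ℕ := al.getD t 0

/-- The thresholds: `a_0 = 0` and `L (a_(t+1) - a_t) = b - a_t` for `t < L`. -/
structure Lad (L : ℕ) (al : List ℕ) (b : ℕ) : Prop where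
  two_le : 2 ≤ L
  pos : 0 < b
  zero : th al 0 = 0
  step : ∀ t < L, L * th al (t + 1) + th al t = b + L * th al t

/-- Words `z`, `w` (letters `< b`), maps `π`, `τ` to the labels of a common right vertex: there are no
letters `z i ≥ s` and `w i' < t` at places mapped to the same right label. -/
def Adj1 {R R' : ℕ} (s t : ℕ) (π τ : Fin R → Fin R') (z w : Fin R → ℕ) : Prop :=
  ∀ i i', π i = τ i' → ¬ (s ≤ z i ∧ w i' < t)

instance {R R' : ℕ} (s t : ℕ) (π τ : Fin R → Fin R') (z w : Fin R → ℕ) :
    Decidable (Adj1 s t π τ z w) := inferInstanceAs (Decidable (∀ i i', _))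

/-- the same for the words number `k`, `l` -/
def adjn1 {R R' : ℕ} (s t b : ℕ) (π τ : Fin R → Fin R') (k l : ℕ) : Bool :=
  decide (Adj1 s t π τ (word b R k) (word b R l))

variable {R₁ R₂ : ℕ} [NeZero R₂]

/-- the words `k` of a man of the tuple `v` and `l` of a woman of the tuple `u` are adjacent through a
common right vertex -/
def cross1 (G : Game R₁ R₂) (s t b ℓ v u k l : ℕ) : Bool :=
  (List.range ℓ).any fun j => (List.range ℓ).any fun j' =>
    decide ((vcon G v j).2.1 = (vcon G u j').2.1) &&
      adjn1 s t b (vcon G v j).2.2 (vcon G u j').2.2 k l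

/-- the number of men (and of women) in a node -/
def nN (L b R : ℕ) : ℕ := nw b R * L

/-- number of the word of the agent `μ` -/
def ag1W (b R μ : ℕ) : ℕ := μ % nw b R
/-- class of the agent `μ` -/
def ag1J (L b R μ : ℕ) : ℕ := μ % nN L b R / nw b R
/-- level of the agent `μ` -/
def ag1C (L b R C μ : ℕ) : ℕ := μ / nN L b R % C
/-- tuple of the agent `μ` -/
def ag1V (L b R C μ : ℕ) : ℕ := μ / nN L b R / C

/-- the two coarse ranks (given by the man, given by the woman) of the pair of the main agents `μ`
(man), `ω` (woman) -/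
def rk1 (G : Game R₁ R₂) (L : ℕ) (al : List ℕ) (b ℓ C μ ω : ℕ) : Option (ℕ × ℕ) :=
  if μ / nN L b R₁ = ω / nN L b R₁ ∧
      adjn1 (th al (ag1J L b R₁ ω)) (th al (ag1J L b R₁ ω)) b (id : Fin R₁ → Fin R₁) id
        (ag1W b R₁ μ) (ag1W b R₁ ω) = true then
    some (0, 0)
  else if cross1 G (th al L) (th al (ag1J L b R₁ ω)) b ℓ (ag1V L b R₁ C μ) (ag1V L b R₁ C ω)
      (ag1W b R₁ μ) (ag1W b R₁ ω) = true then
    some (ag1C L b R₁ C ω + 1, ag1C L b R₁ C μ + 1)
  else none

/-- the number of main men (and of main women) -/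
def nT1 {R₁ R₂ : ℕ} (G : Game R₁ R₂) (L b ℓ C : ℕ) : ℕ := G.length ^ (ℓ + 1) * C * nN L b R₁

/-- The instance: main agents `μ < T`; the private partner of main man `μ` is woman `T + μ`, and the
private partner of main woman `ω` is man `T + ω`. The men break their ties (the equal coarse ranks) by
the numbers of the women. -/
def red1 (G : Game R₁ R₂) (L : ℕ) (al : List ℕ) (b ℓ C : ℕ) : Inst :=
  ((List.range (2 * nT1 G L b ℓ C)).map fun μ =>
      if μ < nT1 G L b ℓ C then
        ((List.range (nT1 G L b ℓ C)).filterMap fun ω =>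
          (rk1 G L al b ℓ C μ ω).map fun r => (ω, r.1 * nT1 G L b ℓ C + ω)) ++
            [(nT1 G L b ℓ C + μ, (C + 1) * nT1 G L b ℓ C)]
      else [(μ - nT1 G L b ℓ C, 0)],
   (List.range (2 * nT1 G L b ℓ C)).map fun ω =>
      if ω < nT1 G L b ℓ C then
        ((List.range (nT1 G L b ℓ C)).filterMap fun μ =>
          (rk1 G L al b ℓ C μ ω).map fun r => (μ, r.2)) ++ [(nT1 G L b ℓ C + ω, C + 1)]
      else [(ω - nT1 G L b ℓ C, 0)])

end OST
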