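import Pool.Agent.SMT.RedSem
import Pool.Agent.OST.Red

/-!
# MODULE RedSem: the ranks in the instance `red1 G L al b ℓ C`

Adapt `Pool/Agent/SMT/RedSem.lean` (import it: `RedSem_find_fm`, `RedSem_rankIn`, `RedSem_getD` are
there and general). `T = nT1 G L b ℓ C`. `strict_red1`: a main man `μ < T` gives the rank
`r * T + ω` to the main woman `ω < T` (`r ≤ C`) and `(C+1) * T` to his private partner: all different
(division with remainder by `T`); `rk1` gives `r ≤ C` (`ag1C .. < C`; if `C = 0` then `T = 0`). A
private man has one entry.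
-/

namespace OST

open SMT

variable {R₁ R₂ : ℕ} [NeZero R₂]

theorem rankM_red1 (G : Game R₁ R₂) (L : ℕ) (al : List ℕ) (b ℓ C μ ω : ℕ) :
    rankM (red1 G L al b ℓ C) μ ω =
      if μ < nT1 G L b ℓ C then
        (if ω < nT1 G L b ℓ C then
          (rk1 G L al b ℓ C μ ω).map (fun r => r.1 * nT1 G L b ℓ C + ω)
         else if ω = nT1 G L b ℓ C + μ then some ((C + 1) * nT1 G L b ℓ C) else none)
      else if μ < 2 * nT1 G L b ℓ C ∧ ω = μ - nT1 G L b ℓ C then some 0 else none := by
  unfold rankM red1
  simp only []
  rw [RedSem_getD]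
  set T := nT1 G L b ℓ C with hT
  by_cases h1 : μ < T
  · rw [if_pos (by omega), if_pos h1, if_pos h1]
    have e : (fun ω => (rk1 G L al b ℓ C μ ω).map fun r => (ω, r.1 * T + ω))
        = (fun x => ((rk1 G L al b ℓ C μ x).map (fun r => r.1 * T + x)).map fun r => (x, r)) := by
      funext x
      cases rk1 G L al b ℓ C μ x <;> rfl
    rw [e, RedSem_rankIn T _ _ (by simp)]
  · rw [if_neg h1]
    by_cases h2 : μ < 2 * T
    · rw [if_pos h2, if_neg h1]
      unfold rankIn
      by_cases h3 : ω = μ - T
      · rw [if_pos ⟨h2, h3⟩]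
        simp [h3]
      · rw [if_neg (fun h => h3 h.2)]
        have : ¬ (μ - T = ω) := fun h => h3 h.symm
        simp [this]
    · rw [if_neg h2, if_neg h1, if_neg (fun h => h2 h.1)]
      rfl

theorem rankW_red1 (G : Game R₁ R₂) (L : ℕ) (al : List ℕ) (b ℓ C μ ω : ℕ) :
    rankW (red1 G L al b ℓ C) ω μ =
      if ω < nT1 G L b ℓ C then
        (if μ < nT1 G L b ℓ C then (rk1 G L al b ℓ C μ ω).map Prod.snd
         else if μ = nT1 G L b ℓ C + ω then some (C + 1) else none)
      else if ω < 2 * nT1 G L b ℓ C ∧ μ = ω - nT1 G L b ℓ C then some 0 else none := by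
  unfold rankW red1
  simp only []
  rw [RedSem_getD]
  set T := nT1 G L b ℓ C with hT
  by_cases h1 : ω < T
  · rw [if_pos (by omega), if_pos h1, if_pos h1]
    have e : (fun μ => (rk1 G L al b ℓ C μ ω).map fun r => (μ, r.2))
        = (fun x => ((rk1 G L al b ℓ C x ω).map Prod.snd).map fun r => (x, r)) := by
      funext x
      cases rk1 G L al b ℓ C x ω <;> rfl
    rw [e, RedSem_rankIn T _ _ (by simp)]
  · rw [if_neg h1]
    by_cases h2 : ω < 2 * T
    · rw [if_pos h2, if_neg h1]
      unfold rankIn
      by_cases h3 : μ = ω - T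
      · rw [if_pos ⟨h2, h3⟩]
        simp [h3]
      · rw [if_neg (fun h => h3 h.2)]
        have : ¬ (ω - T = μ) := fun h => h3 h.symm
        simp [this]
    · rw [if_neg h2, if_neg h1, if_neg (fun h => h2 h.1)]
      rfl

/-- the acceptable pairs: main pairs with `rk1`, and the private pairs -/
theorem acceptable_red1 (G : Game R₁ R₂) (L : ℕ) (al : List ℕ) (b ℓ C μ ω : ℕ) :
    Acceptable (red1 G L al b ℓ C) μ ω ↔
      (μ < nT1 G L b ℓ C ∧ ω < nT1 G L b ℓ C ∧ (rk1 G L al b ℓ C μ ω).isSome = true) ∨
      (μ < nT1 G L b ℓ C ∧ ω = nT1 G L b ℓ C + μ) ∨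
      (ω < nT1 G L b ℓ C ∧ μ = nT1 G L b ℓ C + ω) := by
  unfold Acceptable
  rw [rankM_red1, rankW_red1]
  set T := nT1 G L b ℓ C with hT
  by_cases h1 : μ < T
  · by_cases h2 : ω < T
    · simp only [h1, h2, if_true, Option.isSome_map, true_and, and_self]
      constructor
      · intro h; exact Or.inl h
      · rintro (h | h | h)
        · exact h
        · omega
        · omega
    · simp only [h1, h2, if_true, if_false, true_and, false_and, false_or, or_false]
      constructor
      · rintro ⟨ha, _⟩
        by_contra hne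
        rw [if_neg hne] at ha
        simp at ha
      · intro h
        rw [if_pos h, if_pos (by omega)]
        simp
  · by_cases h2 : ω < T
    · simp only [h1, h2, if_true, if_false, true_and, false_and, false_or]
      constructor
      · rintro ⟨_, ha⟩
        by_contra hne
        rw [if_neg hne] at ha
        simp at ha
      · intro h
        rw [if_pos h, if_pos (by omega)]
        simp
    · simp only [h1, h2, if_false, false_and, or_false, iff_false]
      rintro ⟨ha, hb⟩
      by_cases h3 : μ < 2 * T ∧ ω = μ - T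
      · omega
      · rw [if_neg h3] at ha
        simp at ha

theorem strict_red1 (G : Game R₁ R₂) (L : ℕ) (al : List ℕ) (b ℓ C : ℕ) :
    StrictMen (red1 G L al b ℓ C) := by
  intro μ ω ω' r h h'
  rw [rankM_red1] at h h'
  obtain ⟨T, hT⟩ : ∃ T, T = nT1 G L b ℓ C := ⟨_, rfl⟩
  rw [← hT] at h h'
  by_cases h1 : μ < T
  · rw [if_pos h1] at h h'
    have hC : 0 < C := by
      rcases Nat.eq_zero_or_pos C with hc | hc
      · rw [hT, hc] at h1
        simp [nT1] at h1
      · exact hc
    -- the rank of a main woman
    have key : ∀ x, x < T → ∀ q, (rk1 G L al b ℓ C μ x).map (fun r => r.1 * T + x) = some q →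
        q % T = x ∧ q < (C + 1) * T := by
      intro x hx q hq
      rw [Option.map_eq_some_iff] at hq
      obtain ⟨⟨r1, r2⟩, hr, rfl⟩ := hq
      have hr1 : r1 ≤ C := by
        unfold rk1 at hr
        split_ifs at hr
        · simp only [Option.some.injEq, Prod.mk.injEq] at hr
          omega
        · simp only [Option.some.injEq, Prod.mk.injEq] at hr
          have : ag1C L b R₁ C x < C := Nat.mod_lt _ hC
          omega
      refine ⟨?_, ?_⟩
      · show (r1 * T + x) % T = x
        rw [add_comm, Nat.add_mul_mod_self_right, Nat.mod_eq_of_lt hx]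
      · show r1 * T + x < (C + 1) * T
        have := Nat.mul_le_mul_right T hr1
        rw [add_mul, one_mul]
        omega
    by_cases h2 : ω < T
    · rw [if_pos h2] at h
      obtain ⟨k1, k2⟩ := key ω h2 r h
      by_cases h3 : ω' < T
      · rw [if_pos h3] at h'
        obtain ⟨k3, -⟩ := key ω' h3 r h'
        rw [← k1, ← k3]
      · rw [if_neg h3] at h'
        split_ifs at h' with h4
        simp only [Option.some.injEq] at h'
        omega
    · rw [if_neg h2] at h
      split_ifs at h with h4
      simp only [Option.some.injEq] at h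
      by_cases h3 : ω' < T
      · rw [if_pos h3] at h'
        obtain ⟨-, k3⟩ := key ω' h3 r h'
        omega
      · rw [if_neg h3] at h'
        split_ifs at h' with h5
        omega
  · rw [if_neg h1] at h h'
    split_ifs at h h' with h2 h3
    · rw [h2.2, h3.2]

end OST
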