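import Pool.Agent.SMT.Complete
import Pool.Agent.OST.RedSem
import Pool.Agent.OST.Perm

/-!
# MODULE Complete: a large weakly stable matching if the game has value `≥ 1 - ζ`

Adapt theorem `complete` of `Pool/Agent/SMT/Complete.lean` (import it: `Complete_count`, `ug_yes`).
Let `f, g` satisfy `≥ (1-ζ)|G|` constraints, `N = nN L b R₁`, `T = nT1 G L b ℓ C`. For a tuple `v` let
`good = Good G ℓ f g v`, `i = f (vx G v)`, `P v` from `perm1`. Man `μ` is low (`lowM μ`) if
`Good .. v ∧ th al L ≤ word (μ % N % nw) i` for `v = μ / N / C`; woman `ω` is low (`lowW ω`) if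
`Good .. v ∧ word (ω % N % nw) i < th al (ω % N / nw)`, `v = ω / N / C`. Low agents are matched to
their private partners, a man `μ` who is not low to `par0 μ = (μ / N) * N + P v (μ % N)`, with
`rk1 = some (0,0)` by (d) (`ag1W μ = μ % nw = μ % N % nw`, as `nw ∣ N`). Bijection between the men and
the women who are not low by (a), (b), (c).
STABLE. Let `(μ, ω)` be a blocking main pair. The woman is low (otherwise her rank is `0`). If the man
is not low, his rank is `0 * T + par0 μ`, so `rk1 μ ω = some (0,0)` (a cross pair has man's rank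
`≥ 1 * T > par0 μ`) and `ω < par0 μ`: same node, so `v` is good, class of `ω` = `t ≤ t'` = class of
`par0 μ`, `a_t ≤ a_t' ≤` letter of `μ` at `i` by (e) (`Lad.mono`), and the letter of `ω` at `i` is
`< a_t`: not `Adj1`, contradiction. If both are low: both tuples are good; `rk1 = some (0,0)`: same node,
`a_t ≤ a_L ≤` letter of `μ` at `i`, letter of `ω` at `i` `< a_t`, not `Adj1 a_t a_t`; cross pair
through `y = (vcon v j).2.1 = (vcon u j').2.1`: both labels `f (vx v)`, `f (vx u)` are mapped to `g y`
(`Good`), not `Adj1 a_L a_t`. Private partners accept only one agent.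
SIZE: `T + ∑_{v good} C * #low men = T + ((b - a_L)/b) * #good * C * N` by `card_low1`,
`Complete_count`, and `#good ≥ (1 - 2 ℓ ζ) |G|^(ℓ+1)` by `ug_yes`. (If `G = []` then `T = 0`, `M = []`.)
-/

namespace OST

open Finset SMT

variable {R₁ R₂ : ℕ} [NeZero R₂]

private theorem Complete_adjn1 {R R' : ℕ} (s t b : ℕ) (π τ : Fin R → Fin R') (k l : ℕ) :
    adjn1 s t b π τ k l = true ↔
      ∀ i i', π i = τ i' → ¬ (s ≤ word b R k i ∧ word b R l i' < t) := by
  unfold adjn1
  rw [decide_eq_true_iff]
  rfl

theorem complete1 (G : Game R₁ R₂) (L : ℕ) (al : List ℕ) (b ℓ C : ℕ) (hl : Lad L al b)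
    (hℓ : 1 ≤ ℓ) {ζ : ℝ} (hζ : 0 < ζ) (hY : G.Yes ζ) :
    ∃ M, WeaklyStable (red1 G L al b ℓ C) M ∧
      (nT1 G L b ℓ C : ℝ) * (1 + ((b : ℝ) - th al L) / b * (1 - 2 * ℓ * ζ)) ≤ M.length := by
  classical
  by_cases hG : G = []
  · have hT : nT1 G L b ℓ C = 0 := by
      unfold nT1
      rw [hG]
      simp
    refine ⟨[], ⟨⟨?_, ?_, ?_⟩, ?_⟩, ?_⟩
    · intro p hp; simp at hp
    · simp
    · simp
    · intro i j hacc
      rw [acceptable_red1, hT] at hacc
      omega
    · rw [hT]; simp
  obtain ⟨f, g, hfg⟩ := hY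
  have hb : 0 < b := hl.pos
  have hL2 : 2 ≤ L := hl.two_le
  have hnw : 0 < nw b R₁ := Nat.pow_pos hb
  set N := nN L b R₁ with hN
  have hNe : N = nw b R₁ * L := rfl
  have hNpos : 0 < N := by
    rw [hNe]
    exact Nat.mul_pos hnw (by omega)
  set T := nT1 G L b ℓ C with hT
  have hTe : T = G.length ^ (ℓ + 1) * C * N := rfl
  have hcls : ∀ x < N, x / nw b R₁ ≤ L := by
    intro x hx
    rw [hNe] at hx
    exact (Nat.div_lt_of_lt_mul hx).le
  -- the matchings inside the nodes
  choose P hP1 hP2 hP3 hP4 hP5 using fun v => perm1 hl R₁ (Good G ℓ f g v) (f (vx G v))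
  let FM : ℕ → ℕ → Prop := fun v x =>
    Good G ℓ f g v ∧ th al L ≤ word b R₁ (x % nw b R₁) (f (vx G v))
  let FW : ℕ → ℕ → Prop := fun v x =>
    Good G ℓ f g v ∧ word b R₁ (x % nw b R₁) (f (vx G v)) < th al (x / nw b R₁)
  let lowM : ℕ → Prop := fun μ => FM (μ / N / C) (μ % N)
  let lowW : ℕ → Prop := fun μ => FW (μ / N / C) (μ % N)
  let par0 : ℕ → ℕ := fun μ => (μ / N) * N + P (μ / N / C) (μ % N)
  let par : ℕ → ℕ := fun μ => if lowM μ then T + μ else par0 μ
  have hmod : ∀ μ, μ % N < N := fun μ => Nat.mod_lt _ hNpos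
  have hdiv0 : ∀ q r, r < N → (q * N + r) / N = q ∧ (q * N + r) % N = r := by
    intro q r hr
    constructor
    · rw [mul_comm, Nat.mul_add_div hNpos, Nat.div_eq_of_lt hr, add_zero]
    · rw [mul_comm, Nat.mul_add_mod, Nat.mod_eq_of_lt hr]
  have hlt : ∀ μ < T, ∀ r < N, (μ / N) * N + r < T := by
    intro μ hμ r hr
    rw [hTe] at hμ ⊢
    have h1 : μ / N < G.length ^ (ℓ + 1) * C := (Nat.div_lt_iff_lt_mul hNpos).mpr hμ
    calc (μ / N) * N + r < (μ / N) * N + N := by omega
      _ = (μ / N + 1) * N := by ring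
      _ ≤ (G.length ^ (ℓ + 1) * C) * N := Nat.mul_le_mul_right _ h1
  have hself : ∀ μ, (μ / N) * N + μ % N = μ := fun μ => by
    rw [mul_comm]; exact Nat.div_add_mod μ N
  have hPlt : ∀ μ, ¬ lowM μ → P (μ / N / C) (μ % N) < N := fun μ h =>
    (hP1 (μ / N / C) (μ % N) (hmod μ) h).1
  have hpar0lt : ∀ μ < T, ¬ lowM μ → par0 μ < T := fun μ hμ h => hlt μ hμ _ (hPlt μ h)
  have hpar0div : ∀ μ, ¬ lowM μ → par0 μ / N = μ / N ∧ par0 μ % N = P (μ / N / C) (μ % N) :=
    fun μ h => hdiv0 _ _ (hPlt μ h)
  have hlowpar0 : ∀ μ, ¬ lowM μ → ¬ lowW (par0 μ) := by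
    intro μ h
    show ¬ FW (par0 μ / N / C) (par0 μ % N)
    rw [(hpar0div μ h).1, (hpar0div μ h).2]
    exact (hP1 (μ / N / C) (μ % N) (hmod μ) h).2
  have hpar0inj : ∀ μ μ', ¬ lowM μ → ¬ lowM μ' → par0 μ = par0 μ' → μ = μ' := by
    intro μ μ' hμ hμ' h
    have h1 : μ / N = μ' / N := by rw [← (hpar0div μ hμ).1, ← (hpar0div μ' hμ').1, h]
    have h2 : P (μ / N / C) (μ % N) = P (μ' / N / C) (μ' % N) := by
      rw [← (hpar0div μ hμ).2, ← (hpar0div μ' hμ').2, h]
    have hμ2 : ¬ FM (μ / N / C) (μ % N) := hμ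
    have hμ2' : ¬ FM (μ' / N / C) (μ' % N) := hμ'
    rw [h1] at h2 hμ2
    have h3 := hP2 (μ' / N / C) _ (hmod μ) _ (hmod μ') hμ2 hμ2' h2
    rw [← hself μ, ← hself μ', h1, h3]
  have hpar0surj : ∀ ω < T, ¬ lowW ω → ∃ μ < T, ¬ lowM μ ∧ par0 μ = ω := by
    intro ω hω hlw
    obtain ⟨k, hk, hkl, hPk⟩ := hP3 (ω / N / C) _ (hmod ω) hlw
    refine ⟨(ω / N) * N + k, hlt ω hω k hk, ?_, ?_⟩
    · show ¬ FM (((ω / N) * N + k) / N / C) (((ω / N) * N + k) % N)
      rw [(hdiv0 (ω / N) k hk).1, (hdiv0 (ω / N) k hk).2]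
      exact hkl
    · show (((ω / N) * N + k) / N) * N + P (((ω / N) * N + k) / N / C) (((ω / N) * N + k) % N) = ω
      rw [(hdiv0 (ω / N) k hk).1, (hdiv0 (ω / N) k hk).2, hPk, hself]
  have hW : ∀ μ, ag1W b R₁ μ = μ % N % nw b R₁ := by
    intro μ
    show μ % nw b R₁ = μ % N % nw b R₁
    rw [Nat.mod_mod_of_dvd _ (Dvd.intro _ hNe.symm)]
  have hrkpar : ∀ μ, ¬ lowM μ → rk1 G L al b ℓ C μ (par0 μ) = some (0, 0) := by
    intro μ hlow
    unfold rk1
    rw [if_pos]
    refine ⟨((hpar0div μ hlow).1).symm, ?_⟩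
    have e2 : ag1J L b R₁ (par0 μ) = P (μ / N / C) (μ % N) / nw b R₁ := by
      show par0 μ % N / nw b R₁ = _
      rw [(hpar0div μ hlow).2]
    rw [e2, hW μ, hW (par0 μ), (hpar0div μ hlow).2]
    exact hP4 (μ / N / C) (μ % N) (hmod μ) hlow
  let M : List (ℕ × ℕ) := (List.range T).map (fun μ => (μ, par μ)) ++
    ((List.range T).filter (fun ω => decide (lowW ω))).map (fun ω => (T + ω, ω))
  have hMmem : ∀ x y, (x, y) ∈ M ↔ (x < T ∧ par x = y) ∨ (y < T ∧ lowW y ∧ x = T + y) := by
    intro x y
    show (x, y) ∈ _ ++ _ ↔ _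
    rw [List.mem_append, List.mem_map, List.mem_map]
    constructor
    · rintro (⟨μ, hμ, h⟩ | ⟨ω, hω, h⟩)
      · rw [Prod.mk.injEq] at h
        obtain ⟨rfl, rfl⟩ := h
        exact Or.inl ⟨List.mem_range.mp hμ, rfl⟩
      · rw [Prod.mk.injEq] at h
        obtain ⟨rfl, rfl⟩ := h
        obtain ⟨h1, h2⟩ := List.mem_filter.mp hω
        exact Or.inr ⟨List.mem_range.mp h1, of_decide_eq_true h2, rfl⟩
    · rintro (⟨h1, h2⟩ | ⟨h1, h2, h3⟩)
      · exact Or.inl ⟨x, List.mem_range.mpr h1, by rw [h2]⟩
      · exact Or.inr ⟨y, List.mem_filter.mpr ⟨List.mem_range.mpr h1, decide_eq_true h2⟩, by rw [h3]⟩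
  have hparlow : ∀ μ, lowM μ → par μ = T + μ := fun μ h => if_pos h
  have hparnl : ∀ μ, ¬ lowM μ → par μ = par0 μ := fun μ h => if_neg h
  have hparinj : ∀ μ < T, ∀ μ' < T, par μ = par μ' → μ = μ' := by
    intro μ hμ μ' hμ' h
    by_cases h1 : lowM μ
    · by_cases h2 : lowM μ'
      · rw [hparlow _ h1, hparlow _ h2] at h; omega
      · rw [hparlow _ h1, hparnl _ h2] at h
        have := hpar0lt μ' hμ' h2
        omega
    · by_cases h2 : lowM μ'
      · rw [hparnl _ h1, hparlow _ h2] at h
        have := hpar0lt μ hμ h1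
        omega
      · rw [hparnl _ h1, hparnl _ h2] at h
        exact hpar0inj _ _ h1 h2 h
  refine ⟨M, ⟨⟨?_, ?_, ?_⟩, ?_⟩, ?_⟩
  · -- acceptable
    rintro ⟨x, y⟩ hp
    rw [hMmem] at hp
    show Acceptable _ x y
    rw [acceptable_red1]
    rcases hp with ⟨h1, h2⟩ | ⟨h1, h2, h3⟩
    · by_cases hlx : lowM x
      · rw [hparlow _ hlx] at h2
        exact Or.inr (Or.inl ⟨h1, h2.symm⟩)
      · rw [hparnl _ hlx] at h2
        left
        refine ⟨h1, by rw [← h2]; exact hpar0lt x h1 hlx, ?_⟩
        rw [← h2, hrkpar x hlx]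
        rfl
    · exact Or.inr (Or.inr ⟨h1, h3⟩)
  · -- men
    show (List.map Prod.fst (_ ++ _)).Nodup
    rw [List.map_append, List.map_map, List.map_map, List.nodup_append]
    refine ⟨?_, ?_, ?_⟩
    · have : (Prod.fst ∘ fun μ => (μ, par μ)) = (id : ℕ → ℕ) := rfl
      rw [this, List.map_id]
      exact List.nodup_range
    · exact (List.nodup_range.filter _).map (fun x y h => by
        have h' : T + x = T + y := h
        omega)
    · intro x hx y hy hxy
      subst hxy
      obtain ⟨μ, hμ, h1⟩ := List.mem_map.mp hx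
      obtain ⟨ω, hω, h2⟩ := List.mem_map.mp hy
      have h1' : μ = x := h1
      have h2' : T + ω = x := h2
      have := List.mem_range.mp hμ
      omega
  · -- women
    show (List.map Prod.snd (_ ++ _)).Nodup
    rw [List.map_append, List.map_map, List.map_map, List.nodup_append]
    refine ⟨?_, ?_, ?_⟩
    · refine List.Nodup.map_on ?_ List.nodup_range
      intro x hx y hy h
      exact hparinj x (List.mem_range.mp hx) y (List.mem_range.mp hy) h
    · have : (Prod.snd ∘ fun ω => (T + ω, ω)) = (id : ℕ → ℕ) := rfl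
      rw [this, List.map_id]
      exact List.nodup_range.filter _
    · intro x hx y hy hxy
      subst hxy
      obtain ⟨μ, hμ, h1⟩ := List.mem_map.mp hx
      obtain ⟨ω, hω, h2⟩ := List.mem_map.mp hy
      have h1' : par μ = x := h1
      have h2' : ω = x := h2
      have hμT := List.mem_range.mp hμ
      obtain ⟨h3, h4⟩ := List.mem_filter.mp hω
      have h3' := List.mem_range.mp h3
      have h4' : lowW ω := of_decide_eq_true h4
      by_cases hlμ : lowM μ
      · rw [hparlow _ hlμ] at h1'; omega
      · rw [hparnl _ hlμ] at h1'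
        rw [h2', ← h1'] at h4'
        exact hlowpar0 μ hlμ h4'
  · -- stable
    intro i j hacc hblock
    obtain ⟨hm, hw⟩ := hblock
    have hRM := rankM_red1 G L al b ℓ C
    have hRW := rankW_red1 G L al b ℓ C
    rw [← hT] at hRM hRW
    -- ranks of the pairs of M
    have hrm : ∀ x < T, ¬ lowM x →
        (rankM (red1 G L al b ℓ C) x (par x)).getD 0 = par0 x := by
      intro x hx hlx
      rw [hparnl _ hlx, hRM, if_pos hx, if_pos (hpar0lt x hx hlx), hrkpar x hlx]
      show 0 * T + par0 x = par0 x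
      rw [zero_mul, zero_add]
    have hrw : ∀ x < T, ¬ lowM x → (rankW (red1 G L al b ℓ C) (par x) x).getD 0 = 0 := by
      intro x hx hlx
      rw [hparnl _ hlx, hRW, if_pos (hpar0lt x hx hlx), if_pos hx, hrkpar x hlx]
      rfl
    have hman : ∀ x < T, ¬ lowM x → ManWants (red1 G L al b ℓ C) M x j →
        (rankM (red1 G L al b ℓ C) x j).getD 0 < par0 x := by
      intro x hx hlx hw
      have := hw (par x) ((hMmem _ _).mpr (Or.inl ⟨hx, rfl⟩))
      rw [hrm x hx hlx] at this
      exact this
    have hwoman : ∀ y < T, WomanWants (red1 G L al b ℓ C) M y i → lowW y := by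
      intro y hy hw
      by_contra hly
      obtain ⟨x, hx, hlx, hxy⟩ := hpar0surj y hy hly
      have hpx : par x = y := by rw [hparnl _ hlx, hxy]
      have h1 := hw x ((hMmem _ _).mpr (Or.inl ⟨hx, hpx⟩))
      have h2 := hrw x hx hlx
      rw [hpx] at h2
      rw [h2] at h1
      omega
    rw [acceptable_red1, ← hT] at hacc
    rcases hacc with ⟨hi, hj, hs⟩ | ⟨hi, hj⟩ | ⟨hj, hi⟩
    · have hlj := hwoman j hj hw
      obtain ⟨hgj, hwj⟩ : FW (j / N / C) (j % N) := hlj
      have hJ : ag1J L b R₁ j = j % N / nw b R₁ := rfl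
      by_cases hc1 : i / N = j / N ∧
          adjn1 (th al (ag1J L b R₁ j)) (th al (ag1J L b R₁ j)) b (id : Fin R₁ → Fin R₁) id
            (ag1W b R₁ i) (ag1W b R₁ j) = true
      · obtain ⟨hq, had⟩ := id hc1
        rw [Complete_adjn1, hW i, hW j, hJ] at had
        have hgi : Good G ℓ f g (i / N / C) := by rw [hq]; exact hgj
        refine had (f (vx G (j / N / C))) (f (vx G (j / N / C))) rfl ⟨?_, hwj⟩
        by_cases hli : lowM i
        · obtain ⟨-, h1⟩ : FM (i / N / C) (i % N) := hli
          rw [hq] at h1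
          exact (hl.mono (hcls _ (hmod j)) le_rfl).trans h1
        · have h1 := hman i hi hli hm
          rw [hRM, if_pos hi, if_pos hj] at h1
          have h2 : rk1 G L al b ℓ C i j = some (0, 0) := by
            unfold rk1
            rw [if_pos hc1]
          rw [h2] at h1
          have h3 : j < par0 i := by
            have h4 : 0 * T + j < par0 i := h1
            omega
          have h4 : j % N < P (i / N / C) (i % N) := by
            have h5 := hself j
            have h6 : par0 i = (i / N) * N + P (i / N / C) (i % N) := rfl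
            rw [h6, hq] at h3
            rw [hq]
            omega
          have hnh : ¬ (th al L ≤ word b R₁ (i % N % nw b R₁) (f (vx G (i / N / C)))) := by
            intro h5
            exact hli ⟨hgi, h5⟩
          have h5 := hP5 (i / N / C) hgi (i % N) (hmod i) hnh
          have h6 : j % N / nw b R₁ ≤ P (i / N / C) (i % N) / nw b R₁ :=
            Nat.div_le_div_right h4.le
          have h7 := hl.mono h6 (hcls _ (hPlt i hli))
          rw [hq] at h5 h7
          exact h7.trans h5
      · by_cases hc2 : cross1 G (th al L) (th al (ag1J L b R₁ j)) b ℓ (ag1V L b R₁ C i)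
            (ag1V L b R₁ C j) (ag1W b R₁ i) (ag1W b R₁ j) = true
        · have h2 : rk1 G L al b ℓ C i j =
              some (ag1C L b R₁ C j + 1, ag1C L b R₁ C i + 1) := by
            unfold rk1
            rw [if_neg hc1, if_pos hc2]
          have hli : lowM i := by
            by_contra hli
            have h1 := hman i hi hli hm
            rw [hRM, if_pos hi, if_pos hj, h2] at h1
            have h3 : (ag1C L b R₁ C j + 1) * T + j < par0 i := h1
            have h4 := hpar0lt i hi hli
            have h5 : T ≤ (ag1C L b R₁ C j + 1) * T := Nat.le_mul_of_pos_left _ (by omega)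
            omega
          obtain ⟨hgi, hwi⟩ : FM (i / N / C) (i % N) := hli
          unfold cross1 at hc2
          rw [List.any_eq_true] at hc2
          obtain ⟨q, hq, hc3⟩ := hc2
          rw [List.any_eq_true] at hc3
          obtain ⟨q', hq', hc4⟩ := hc3
          rw [Bool.and_eq_true, decide_eq_true_iff] at hc4
          obtain ⟨hy, had⟩ := hc4
          rw [Complete_adjn1, hW i, hW j, hJ] at had
          have h1 := hgi q (List.mem_range.mp hq)
          have h3 := hgj q' (List.mem_range.mp hq')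
          have e1 : ag1V L b R₁ C i = i / N / C := rfl
          have e2 : ag1V L b R₁ C j = j / N / C := rfl
          rw [e1, e2] at had hy
          exact had (f (vx G (i / N / C))) (f (vx G (j / N / C))) (by rw [h1, h3, hy])
            ⟨hwi, hwj⟩
        · have h2 : rk1 G L al b ℓ C i j = none := by
            unfold rk1
            rw [if_neg hc1, if_neg hc2]
          rw [h2] at hs
          simp at hs
    · by_cases hli : lowM i
      · have := hm (par i) ((hMmem _ _).mpr (Or.inl ⟨hi, rfl⟩))
        rw [hparlow _ hli, ← hj] at this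
        omega
      · have h1 := hman i hi hli hm
        have hjT : ¬ j < T := by omega
        rw [hRM, if_pos hi, if_neg hjT, if_pos hj] at h1
        have h2 : (C + 1) * T < par0 i := h1
        have h3 := hpar0lt i hi hli
        have h4 : T ≤ (C + 1) * T := Nat.le_mul_of_pos_left _ (by omega)
        omega
    · have hlj := hwoman j hj hw
      have := hw (T + j) ((hMmem _ _).mpr (Or.inr ⟨hj, hlj, rfl⟩))
      rw [← hi] at this
      omega
  · -- size
    have hlen : M.length = T + ((range T).filter lowW).card := by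
      show (((List.range T).map (fun μ => (μ, par μ)) ++
        ((List.range T).filter (fun ω => decide (lowW ω))).map (fun ω => (T + ω, ω))) : List (ℕ × ℕ)).length = _
      rw [List.length_append, List.length_map, List.length_map, List.length_range]
      congr 1
    have hMW : ((range T).filter lowW).card = ((range T).filter lowM).card := by
      have h1 : ((range T).filter fun μ => ¬ lowM μ).card =
          ((range T).filter fun μ => ¬ lowW μ).card := by
        refine Finset.card_bij (fun μ _ => par0 μ) ?_ ?_ ?_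
        · intro μ hμ
          obtain ⟨h1, h2⟩ := Finset.mem_filter.mp hμ
          exact Finset.mem_filter.mpr ⟨Finset.mem_range.mpr (hpar0lt μ (Finset.mem_range.mp h1) h2),
            hlowpar0 μ h2⟩
        · intro μ hμ μ' hμ' h
          exact hpar0inj μ μ' (Finset.mem_filter.mp hμ).2 (Finset.mem_filter.mp hμ').2 h
        · intro ω hω
          obtain ⟨h1, h2⟩ := Finset.mem_filter.mp hω
          obtain ⟨μ, h3, h4, h5⟩ := hpar0surj ω (Finset.mem_range.mp h1) h2
          exact ⟨μ, Finset.mem_filter.mpr ⟨Finset.mem_range.mpr h3, h4⟩, h5⟩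
      have h2 : ((range T).filter lowM).card + ((range T).filter fun μ => ¬ lowM μ).card =
          (range T).card := Finset.card_filter_add_card_filter_not (s := range T) lowM
      have h3 : ((range T).filter lowW).card + ((range T).filter fun μ => ¬ lowW μ).card =
          (range T).card := Finset.card_filter_add_card_filter_not (s := range T) lowW
      rw [h1] at h2
      exact Nat.add_right_cancel (h3.trans h2.symm)
    have hcount : ((range T).filter lowM).card =
        ∑ v ∈ range (G.length ^ (ℓ + 1)), C * ((range N).filter (FM v)).card := by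
      rw [hTe]
      exact Complete_count (G.length ^ (ℓ + 1)) C N FM hNpos
    have hthb : th al L ≤ b := (hl.lt le_rfl).le
    have hFv : ∀ v, (((range N).filter (FM v)).card : ℝ) * b =
        if Good G ℓ f g v then ((b : ℝ) - th al L) * N else 0 := by
      intro v
      by_cases hg : Good G ℓ f g v
      · rw [if_pos hg]
        have h1 := card_low1 (L := L) (th al L) R₁ hthb hb (f (vx G v))
        have h2 : (range N).filter (FM v) = (range (nN L b R₁)).filter fun x =>
            th al L ≤ word b R₁ (x % nw b R₁) (f (vx G v)) := by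
          refine Finset.filter_congr (fun k _ => ?_)
          show (_ ∧ _) ↔ _
          exact ⟨fun h => h.2, fun h => ⟨hg, h⟩⟩
        rw [h2, ← Nat.cast_sub hthb]
        exact_mod_cast h1
      · rw [if_neg hg]
        have h2 : (range N).filter (FM v) = ∅ := by
          rw [Finset.filter_eq_empty_iff]
          intro k _ h
          exact hg h.1
        rw [h2]; simp
    have hgood : (1 - 2 * ℓ * ζ) * (G.length : ℝ) ^ (ℓ + 1) ≤
        (((range (G.length ^ (ℓ + 1))).filter fun v => Good G ℓ f g v).card : ℝ) := by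
      have h1 := ug_yes hG f g hfg ℓ
      have h2 := Finset.card_filter_add_card_filter_not (s := range (G.length ^ (ℓ + 1))) (fun v => Good G ℓ f g v)
      rw [Finset.card_range] at h2
      have h3 : (((range (G.length ^ (ℓ + 1))).filter fun v => Good G ℓ f g v).card : ℝ) +
          (((range (G.length ^ (ℓ + 1))).filter fun v => ¬ Good G ℓ f g v).card : ℝ) = (G.length : ℝ) ^ (ℓ + 1) := by
        exact_mod_cast h2
      linarith
    have hb' : (0:ℝ) < b := by exact_mod_cast hb
    have ha' : (0:ℝ) ≤ (b : ℝ) - th al L := by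
      have : (th al L : ℝ) ≤ b := by exact_mod_cast hthb
      linarith
    have hlowR : (((range T).filter lowM).card : ℝ) * b =
        (C : ℝ) * ((b : ℝ) - th al L) * N *
          (((range (G.length ^ (ℓ + 1))).filter fun v => Good G ℓ f g v).card : ℝ) := by
      rw [hcount]
      push_cast
      rw [Finset.sum_mul]
      have : ∀ v ∈ range (G.length ^ (ℓ + 1)), (C : ℝ) * (((range N).filter (FM v)).card : ℝ) * b =
          if Good G ℓ f g v then (C : ℝ) * ((b : ℝ) - th al L) * N else 0 := by
        intro v _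
        rw [mul_assoc, hFv v]
        split_ifs <;> ring
      rw [Finset.sum_congr rfl this, ← Finset.sum_filter, Finset.sum_const, nsmul_eq_mul]
      ring
    have hTR : (T : ℝ) = (G.length : ℝ) ^ (ℓ + 1) * C * N := by rw [hTe]; push_cast; ring
    have hge : (T : ℝ) * (((b : ℝ) - th al L) / b * (1 - 2 * ℓ * ζ)) ≤
        (((range T).filter lowM).card : ℝ) := by
      have h1 : (T : ℝ) * (((b : ℝ) - th al L) / b * (1 - 2 * ℓ * ζ)) * b ≤
          (((range T).filter lowM).card : ℝ) * b := by
        rw [hlowR, hTR]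
        have h2 : (G.length : ℝ) ^ (ℓ + 1) * C * N * (((b : ℝ) - th al L) / b * (1 - 2 * ℓ * ζ)) * b
            = (C : ℝ) * ((b : ℝ) - th al L) * N * ((1 - 2 * ℓ * ζ) * (G.length : ℝ) ^ (ℓ + 1)) := by
          field_simp
        rw [h2]
        exact mul_le_mul_of_nonneg_left hgood (by positivity)
      exact le_of_mul_le_mul_right h1 hb'
    rw [hlen, hMW]
    push_cast
    linarith

end OST
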