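import Pool.Agent.OST.Red2
import Pool.Agent.OST.Ladder

/-!
# MODULE Rot: rotations of the letters `[a, b)`, and words

`rot_block`: `x - a_t + j s < s + (L-1) s = L s = b - a_t` for `s = a_(t+1) - a_t`, so the `% (b - a_t)`
does nothing. `word_inj`: a word number `k < b ^ R` is determined by its letters (see
`NoCase_word`/`Complete_word` in Pool/Agent/SMT, `finFunctionFinEquiv`). `exists_word`: any letters
`< b` are the letters of a word number.
-/

namespace OST

open SMT

theorem rot_lt {a b e x : ℕ} (hab : a < b) (hx : x < b) : rot a b e x < b := by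
  unfold rot
  split_ifs with h
  · exact hx
  · have := Nat.mod_lt (x - a + e) (show 0 < b - a by omega)
    omega

theorem rot_inj {a b e x y : ℕ} (hab : a < b) (hx : x < b) (hy : y < b)
    (h : rot a b e x = rot a b e y) : x = y := by
  unfold rot at h
  split_ifs at h with h1 h2 h2
  · exact h
  · omega
  · omega
  · have h3 : (x - a + e) % (b - a) = (y - a + e) % (b - a) := by omega
    have h4 : x - a ≡ y - a [MOD b - a] := Nat.ModEq.add_right_cancel' e h3
    have h5 : x - a = y - a := Nat.ModEq.eq_of_lt_of_lt h4 (by omega) (by omega)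
    omega

theorem rot_surj {a b e y : ℕ} (hab : a < b) (hy : y < b) : ∃ x < b, rot a b e x = y := by
  let f : Fin b → Fin b := fun x => ⟨rot a b e x, rot_lt hab x.2⟩
  have hf : Function.Injective f := by
    intro x z h
    apply Fin.ext
    exact rot_inj hab x.2 z.2 (congrArg Fin.val h)
  obtain ⟨x, hx⟩ := (Finite.injective_iff_surjective.1 hf) ⟨y, hy⟩
  exact ⟨x, x.2, congrArg Fin.val hx⟩

theorem rot_lt_iff {a b e x : ℕ} : rot a b e x < a ↔ x < a := by
  unfold rot
  split_ifs with h
  · exact Iff.rfl
  · constructor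
    · intro h1
      exfalso
      have : a ≤ a + (x - a + e) % (b - a) := Nat.le_add_right _ _
      omega
    · intro h1
      exact absurd h1 h

theorem rot_block {L : ℕ} {al : List ℕ} {b : ℕ} (hl : Lad L al b) {t j x : ℕ} (ht : t < L)
    (hj : j < L) (h1 : th al t ≤ x) (h2 : x < th al (t + 1)) :
    rot (th al t) b (j * (th al (t + 1) - th al t)) x = x + j * (th al (t + 1) - th al t) := by
  have hs := hl.strict ht
  have hb := hl.lt (le_of_lt ht)
  have hst := hl.step t ht
  obtain ⟨s, hse⟩ : ∃ s, th al (t + 1) = th al t + s := ⟨th al (t + 1) - th al t, by omega⟩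
  have h3 : th al (t + 1) - th al t = s := by omega
  rw [h3]
  have h4 : L * s = b - th al t := by
    rw [hse, Nat.mul_add] at hst
    omega
  have h5 : j * s + s ≤ L * s := by
    have h6 : (j + 1) * s ≤ L * s := Nat.mul_le_mul_right s hj
    rw [Nat.add_mul, Nat.one_mul] at h6
    exact h6
  unfold rot
  rw [if_neg (by omega), Nat.mod_eq_of_lt (by omega)]
  omega

private theorem Rot_word (b R : ℕ) (z : Fin R → Fin b) :
    word b R ((finFunctionFinEquiv z : Fin (b ^ R)) : ℕ) = fun i => ((z i : Fin b) : ℕ) := by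
  funext i
  have h : finFunctionFinEquiv.symm (finFunctionFinEquiv z : Fin (b ^ R)) i = z i := by
    rw [Equiv.symm_apply_apply]
  rw [← h]
  rfl

theorem word_inj {b R k l : ℕ} (hk : k < nw b R) (hl : l < nw b R)
    (h : ∀ i, word b R k i = word b R l i) : k = l := by
  have h1 : (finFunctionFinEquiv (m := b) (n := R)).symm ⟨k, hk⟩ =
      (finFunctionFinEquiv (m := b) (n := R)).symm ⟨l, hl⟩ := by
    funext i
    exact Fin.ext (h i)
  have h2 := (finFunctionFinEquiv (m := b) (n := R)).symm.injective h1
  exact congrArg Fin.val h2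

theorem exists_word {b R : ℕ} (z : Fin R → ℕ) (hz : ∀ i, z i < b) :
    ∃ k < nw b R, ∀ i, word b R k i = z i := by
  refine ⟨((finFunctionFinEquiv (fun i => (⟨z i, hz i⟩ : Fin b)) : Fin (b ^ R)) : ℕ),
    (finFunctionFinEquiv (fun i => (⟨z i, hz i⟩ : Fin b))).2, ?_⟩
  intro i
  rw [Rot_word]

theorem word_lt {b R k : ℕ} (hb : 0 < b) (i : Fin R) : word b R k i < b := by
  unfold word
  exact Nat.mod_lt _ hb

end OST
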