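import Pool.Agent.OST.Perm
import Pool.Agent.OST.Rot

/-!
# MODULE Perm2: the matching inside a node

A place `x < nN L b R = nw * L` of a node is (class `x / nw`, word `x % nw`), `nw = nw b R = b ^ R`.
`φ_(t,j) = rot a_t b (j * (a_(t+1) - a_t))`, a permutation of the letters `< b`, applied to all the
letters of a word. If `good` is false: `P` maps (class `j`, word `z`) to (class `j`, word `φ_(j,j) ∘ z`), a
permutation of the places. If `good` is true: the man of class `j` with the word `z` is low if
`z i ≥ a_L`; otherwise there is a unique `t < L` with `a_t ≤ z i < a_(t+1)` (`a_0 = 0`), and `P` maps him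
to the woman of class `t` with the word `φ_(t,j) ∘ z`, whose letter at `i` is
`z i + j * (a_(t+1) - a_t) ≥ a_t` (`rot_block`): she is not low. Injective: the class `t` of the woman and
her letter `w i` determine `j = (w i - a_t) / (a_(t+1) - a_t)`, then `z` by `rot_inj`. Surjective: for a
woman of class `t` with the word `w`, `w i ≥ a_t`, put `j = (w i - a_t) / (a_(t+1) - a_t) < L` and take `z`
with `φ_(t,j) ∘ z = w` (`rot_surj`, `exists_word`); then `z i = w i - j * (a_(t+1) - a_t)` lies in
`[a_t, a_(t+1))`.
-/

namespace OST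

open Finset SMT

/-- the class of thresholds of the letter `z` -/
private theorem Perm2_exists {L : ℕ} {al : List ℕ} {b : ℕ} (hl : Lad L al b) {z : ℕ}
    (hz : z < th al L) : ∃ t < L, th al t ≤ z ∧ z < th al (t + 1) := by
  by_contra hno
  push Not at hno
  have h : ∀ t ≤ L, th al t ≤ z := by
    intro t
    induction t with
    | zero => intro _; rw [hl.zero]; exact Nat.zero_le _
    | succ t ih =>
      intro ht
      exact hno t (by omega) (ih (by omega))
  exact absurd (h L le_rfl) (not_le.mpr hz)

private theorem Perm2_unique {L : ℕ} {al : List ℕ} {b : ℕ} (hl : Lad L al b) {z t t' : ℕ}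
    (ht : t < L) (ht' : t' < L) (h1 : th al t ≤ z) (h2 : z < th al (t + 1)) (h3 : th al t' ≤ z)
    (h4 : z < th al (t' + 1)) : t = t' := by
  rcases lt_trichotomy t t' with h | h | h
  · have := hl.mono (show t + 1 ≤ t' by omega) ht'.le
    omega
  · exact h
  · have := hl.mono (show t' + 1 ≤ t by omega) ht.le
    omega

/-- apply `rot` to all the letters of a word -/
private theorem Perm2_rotw {a b e R : ℕ} (hab : a < b) (k : ℕ) :
    ∃ l < nw b R, ∀ i : Fin R, word b R l i = rot a b e (word b R k i) := by
  have hb : 0 < b := by omega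
  obtain ⟨l, hl, h⟩ := exists_word (b := b) (R := R) (fun i => rot a b e (word b R k i))
    (fun i => rot_lt hab (word_lt hb i))
  exact ⟨l, hl, h⟩

/-- the inverse -/
private theorem Perm2_rotw' {a b e R : ℕ} (hab : a < b) (l : ℕ) :
    ∃ k < nw b R, ∀ i : Fin R, word b R l i = rot a b e (word b R k i) := by
  have hb : 0 < b := by omega
  have h1 : ∀ i : Fin R, ∃ x < b, rot a b e x = word b R l i :=
    fun i => rot_surj hab (word_lt hb i)
  choose z hz1 hz2 using h1
  obtain ⟨k, hk, h⟩ := exists_word (b := b) (R := R) z hz1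
  exact ⟨k, hk, fun i => by rw [h i, hz2 i]⟩

theorem perm2 {L : ℕ} {al : List ℕ} {b : ℕ} (hl : Lad L al b) (R : ℕ) (good : Prop) (i : Fin R) :
    ∃ P : ℕ → ℕ,
      -- (a) a man who is not low is matched to a woman who is not low
      (∀ x < nN L b R, ¬ (good ∧ th al L ≤ word b R (x % nw b R) i) →
        P x < nN L b R ∧ ¬ (good ∧ word b R (P x % nw b R) i < th al (P x / nw b R))) ∧
      -- (b) injective
      (∀ x < nN L b R, ∀ x' < nN L b R, ¬ (good ∧ th al L ≤ word b R (x % nw b R) i) →
        ¬ (good ∧ th al L ≤ word b R (x' % nw b R) i) → P x = P x' → x = x') ∧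
      -- (c) every woman who is not low is matched
      (∀ y < nN L b R, ¬ (good ∧ word b R (y % nw b R) i < th al (y / nw b R)) →
        ∃ x < nN L b R, ¬ (good ∧ th al L ≤ word b R (x % nw b R) i) ∧ P x = y) ∧
      -- (d) the pairs are pairs of the instance
      (∀ x < nN L b R, ¬ (good ∧ th al L ≤ word b R (x % nw b R) i) →
        nadj al b R (P x / nw b R) (x / nw b R) (x % nw b R) (P x % nw b R) = true) ∧
      -- (e) the letter of the man reaches the threshold of his partner
      (good → ∀ x < nN L b R, ¬ (th al L ≤ word b R (x % nw b R) i) →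
        th al (P x / nw b R) ≤ word b R (x % nw b R) i) := by
  classical
  have hb : 0 < b := hl.pos
  have hL : 0 < L := by have := hl.two_le; omega
  have hnw : 0 < nw b R := pow_pos hb R
  have hx1 : ∀ x < nN L b R, x / nw b R < L := by
    intro x hx
    exact Nat.div_lt_of_lt_mul (by unfold nN at hx; exact hx)
  have hx2 : ∀ x, x % nw b R < nw b R := fun x => Nat.mod_lt _ hnw
  have hpm : ∀ t w, w < nw b R → (t * nw b R + w) / nw b R = t ∧ (t * nw b R + w) % nw b R = w := by
    intro t w hw
    constructor
    · rw [mul_comm, Nat.mul_add_div hnw, Nat.div_eq_of_lt hw, add_zero]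
    · rw [mul_comm, Nat.mul_add_mod, Nat.mod_eq_of_lt hw]
  have hlt : ∀ t w, t < L → w < nw b R → t * nw b R + w < nN L b R := by
    intro t w ht hw
    unfold nN
    calc t * nw b R + w < t * nw b R + nw b R := by omega
      _ = nw b R * (t + 1) := by ring
      _ ≤ nw b R * L := Nat.mul_le_mul_left _ ht
  -- the rotation of a word: `F t j k` is the word of the woman of class `t`
  have hF : ∀ t j k, ∃ l, t < L → l < nw b R ∧ ∀ i' : Fin R, word b R l i' =
      rot (th al t) b (j * (th al (t + 1) - th al t)) (word b R k i') := by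
    intro t j k
    by_cases ht : t < L
    · obtain ⟨l, h1, h2⟩ := Perm2_rotw (R := R) (e := j * (th al (t + 1) - th al t))
        (hl.lt ht.le) k
      exact ⟨l, fun _ => ⟨h1, h2⟩⟩
    · exact ⟨0, fun h => absurd h ht⟩
  choose F hF using hF
  have hFinj : ∀ t j k k', t < L → k < nw b R → k' < nw b R → F t j k = F t j k' → k = k' := by
    intro t j k k' ht hk hk' h
    refine word_inj hk hk' ?_
    intro i'
    refine rot_inj (e := j * (th al (t + 1) - th al t)) (hl.lt ht.le) (word_lt hb i')
      (word_lt hb i') ?_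
    rw [← (hF t j k ht).2 i', ← (hF t j k' ht).2 i', h]
  have hFsurj : ∀ t j l, t < L → l < nw b R → ∃ k < nw b R, F t j k = l := by
    intro t j l ht hl'
    obtain ⟨k, hk, h⟩ := Perm2_rotw' (R := R) (e := j * (th al (t + 1) - th al t))
      (hl.lt ht.le) l
    refine ⟨k, hk, word_inj (hF t j k ht).1 hl' ?_⟩
    intro i'
    rw [(hF t j k ht).2 i', h i']
  by_cases hg : good
  swap
  · let P : ℕ → ℕ := fun x => x / nw b R * nw b R + F (x / nw b R) (x / nw b R) (x % nw b R)
    have hP : ∀ x < nN L b R, P x / nw b R = x / nw b R ∧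
        P x % nw b R = F (x / nw b R) (x / nw b R) (x % nw b R) := by
      intro x hx
      exact hpm _ _ (hF _ _ _ (hx1 x hx)).1
    refine ⟨P, ?_, ?_, ?_, ?_, ?_⟩
    · intro x hx _
      exact ⟨hlt _ _ (hx1 x hx) (hF _ _ _ (hx1 x hx)).1, fun h => hg h.1⟩
    · intro x hx x' hx' _ _ h
      have e1 : x / nw b R = x' / nw b R := by rw [← (hP x hx).1, ← (hP x' hx').1, h]
      have e2 : F (x / nw b R) (x / nw b R) (x % nw b R) =
          F (x' / nw b R) (x' / nw b R) (x' % nw b R) := by
        rw [← (hP x hx).2, ← (hP x' hx').2, h]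
      rw [← e1] at e2
      have e3 := hFinj _ _ _ _ (hx1 x hx) (hx2 x) (hx2 x') e2
      rw [← Nat.div_add_mod x (nw b R), ← Nat.div_add_mod x' (nw b R), e1, e3]
    · intro y hy _
      obtain ⟨k, hk, h⟩ := hFsurj (y / nw b R) (y / nw b R) (y % nw b R) (hx1 y hy) (hx2 y)
      have hx := hlt _ _ (hx1 y hy) hk
      refine ⟨y / nw b R * nw b R + k, hx, fun h => hg h.1, ?_⟩
      show (y / nw b R * nw b R + k) / nw b R * nw b R +
        F ((y / nw b R * nw b R + k) / nw b R) ((y / nw b R * nw b R + k) / nw b R)
          ((y / nw b R * nw b R + k) % nw b R) = y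
      rw [(hpm _ _ hk).1, (hpm _ _ hk).2, h]
      have := Nat.div_add_mod y (nw b R)
      rw [mul_comm] at this
      exact this
    · intro x hx _
      rw [(hP x hx).1, (hP x hx).2]
      unfold nadj
      rw [decide_eq_true_iff]
      exact (hF _ _ _ (hx1 x hx)).2
    · intro h
      exact absurd h hg
  -- the class of a letter
  have hcl : ∀ z : ℕ, ∃ t, z < th al L → t < L ∧ th al t ≤ z ∧ z < th al (t + 1) := by
    intro z
    by_cases hz : z < th al L
    · obtain ⟨t, ht⟩ := Perm2_exists hl hz
      exact ⟨t, fun _ => ht⟩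
    · exact ⟨0, fun h => absurd h hz⟩
  choose cl hcl using hcl
  let P : ℕ → ℕ := fun x =>
    cl (word b R (x % nw b R) i) * nw b R +
      F (cl (word b R (x % nw b R) i)) (x / nw b R) (x % nw b R)
  have hP : ∀ x < nN L b R, word b R (x % nw b R) i < th al L →
      P x / nw b R = cl (word b R (x % nw b R) i) ∧
      P x % nw b R = F (cl (word b R (x % nw b R) i)) (x / nw b R) (x % nw b R) := by
    intro x hx hz
    exact hpm _ _ (hF _ _ _ (hcl _ hz).1).1
  have hz' : ∀ x, ¬ (good ∧ th al L ≤ word b R (x % nw b R) i) →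
      word b R (x % nw b R) i < th al L := by
    intro x h
    by_contra hh
    exact h ⟨hg, not_lt.mp hh⟩
  -- the letter of the woman at `i`
  have hlet : ∀ x < nN L b R, word b R (x % nw b R) i < th al L →
      word b R (P x % nw b R) i = word b R (x % nw b R) i + x / nw b R *
        (th al (cl (word b R (x % nw b R) i) + 1) - th al (cl (word b R (x % nw b R) i))) := by
    intro x hx hz
    obtain ⟨h1, h2, h3⟩ := hcl _ hz
    rw [(hP x hx hz).2, (hF _ _ _ h1).2 i, rot_block hl h1 (hx1 x hx) h2 h3]
  refine ⟨P, ?_, ?_, ?_, ?_, ?_⟩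
  · intro x hx hnl
    have hz := hz' x hnl
    obtain ⟨h1, h2, h3⟩ := hcl _ hz
    refine ⟨hlt _ _ h1 (hF _ _ _ h1).1, ?_⟩
    rintro ⟨-, h4⟩
    rw [(hP x hx hz).1, hlet x hx hz] at h4
    omega
  · intro x hx x' hx' hnl hnl' hPP
    have hz := hz' x hnl
    have hzz := hz' x' hnl'
    obtain ⟨h1, h2, h3⟩ := hcl _ hz
    obtain ⟨g1, g2, g3⟩ := hcl _ hzz
    have e1 : cl (word b R (x % nw b R) i) = cl (word b R (x' % nw b R) i) := by
      rw [← (hP x hx hz).1, ← (hP x' hx' hzz).1, hPP]
    have e2 : F (cl (word b R (x % nw b R) i)) (x / nw b R) (x % nw b R) =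
        F (cl (word b R (x' % nw b R) i)) (x' / nw b R) (x' % nw b R) := by
      rw [← (hP x hx hz).2, ← (hP x' hx' hzz).2, hPP]
    have e3 := hlet x hx hz
    have e3' := hlet x' hx' hzz
    rw [hPP] at e3
    rw [e3'] at e3
    have e4 : x / nw b R = x' / nw b R := by
      rw [← e1] at e3 g2 g3
      have hstr := hl.strict h1
      generalize th al (cl (word b R (x % nw b R) i)) = A at *
      generalize th al (cl (word b R (x % nw b R) i) + 1) = A' at *
      obtain ⟨s, rfl⟩ := Nat.exists_eq_add_of_lt hstr
      have hs : A + s + 1 - A = s + 1 := by omega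
      rw [hs] at e3
      obtain ⟨u, hu⟩ := Nat.exists_eq_add_of_le h2
      obtain ⟨u', hu'⟩ := Nat.exists_eq_add_of_le g2
      rw [hu, hu'] at e3
      have hu1 : u < s + 1 := by omega
      have hu2 : u' < s + 1 := by omega
      have e5 : (s + 1) * (x' / nw b R) + u' = (s + 1) * (x / nw b R) + u := by
        have : A + u' + x' / nw b R * (s + 1) = A + u + x / nw b R * (s + 1) := e3
        nlinarith
      have f1 : ((s + 1) * (x' / nw b R) + u') / (s + 1) = x' / nw b R := by
        rw [Nat.mul_add_div (by omega), Nat.div_eq_of_lt hu2, add_zero]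
      have f2 : ((s + 1) * (x / nw b R) + u) / (s + 1) = x / nw b R := by
        rw [Nat.mul_add_div (by omega), Nat.div_eq_of_lt hu1, add_zero]
      rw [← f1, ← f2, e5]
    rw [← e1, ← e4] at e2
    have e5 := hFinj _ _ _ _ h1 (hx2 x) (hx2 x') e2
    rw [← Nat.div_add_mod x (nw b R), ← Nat.div_add_mod x' (nw b R), e4, e5]
  · intro y hy hny
    have ht : y / nw b R < L := hx1 y hy
    have hw : th al (y / nw b R) ≤ word b R (y % nw b R) i := by
      by_contra h
      exact hny ⟨hg, not_le.mp h⟩
    have hwb : word b R (y % nw b R) i < b := word_lt hb _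
    obtain ⟨u, hu⟩ := Nat.exists_eq_add_of_le hw
    have hstep := hl.step _ ht
    have hstr := hl.strict ht
    obtain ⟨s, hs⟩ := Nat.exists_eq_add_of_lt hstr
    -- `s + 1` is the length of a block
    have hs' : th al (y / nw b R + 1) - th al (y / nw b R) = s + 1 := by omega
    have hj : u / (s + 1) < L := by
      apply Nat.div_lt_of_lt_mul
      have h1 : L * (th al (y / nw b R) + s + 1) + th al (y / nw b R) =
          b + L * th al (y / nw b R) := by rw [← hs]; exact hstep
      have h2 : L * (th al (y / nw b R) + s + 1) = L * th al (y / nw b R) + (s + 1) * L := by ring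
      omega
    obtain ⟨k, hk, hkF⟩ := hFsurj (y / nw b R) (u / (s + 1)) (y % nw b R) ht (hx2 y)
    have hdm := Nat.div_add_mod u (s + 1)
    have hml := Nat.mod_lt u (show 0 < s + 1 by omega)
    -- the letter of the man
    have hlk : word b R k i = th al (y / nw b R) + u % (s + 1) := by
      have hr1 : rot (th al (y / nw b R)) b (u / (s + 1) *
          (th al (y / nw b R + 1) - th al (y / nw b R))) (th al (y / nw b R) + u % (s + 1)) =
          th al (y / nw b R) + u % (s + 1) + u / (s + 1) *
            (th al (y / nw b R + 1) - th al (y / nw b R)) :=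
        rot_block hl ht hj (Nat.le_add_right _ _) (by omega)
      have hr2 := (hF (y / nw b R) (u / (s + 1)) k ht).2 i
      rw [hkF] at hr2
      have hr3 : th al (y / nw b R) + u % (s + 1) + u / (s + 1) *
          (th al (y / nw b R + 1) - th al (y / nw b R)) = word b R (y % nw b R) i := by
        rw [hs', hu, mul_comm (u / (s + 1)) (s + 1)]
        omega
      refine rot_inj (e := u / (s + 1) * (th al (y / nw b R + 1) - th al (y / nw b R)))
        (hl.lt ht.le) (word_lt hb i) ?_ ?_
      · have := hl.lt (t := y / nw b R + 1) ht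
        omega
      · rw [hr1, hr3, ← hr2]
    have hz1 : word b R k i < th al (y / nw b R + 1) := by rw [hlk]; omega
    have hz0 : th al (y / nw b R) ≤ word b R k i := by rw [hlk]; omega
    have hz2 : word b R k i < th al L :=
      lt_of_lt_of_le hz1 (hl.mono (show y / nw b R + 1 ≤ L from ht) le_rfl)
    have hclk : cl (word b R k i) = y / nw b R := by
      obtain ⟨h1, h2, h3⟩ := hcl _ hz2
      exact Perm2_unique hl h1 ht h2 h3 hz0 hz1
    refine ⟨u / (s + 1) * nw b R + k, hlt _ _ hj hk, ?_, ?_⟩
    · rintro ⟨-, h⟩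
      rw [(hpm _ _ hk).2] at h
      omega
    · show cl (word b R ((u / (s + 1) * nw b R + k) % nw b R) i) * nw b R +
        F (cl (word b R ((u / (s + 1) * nw b R + k) % nw b R) i))
          ((u / (s + 1) * nw b R + k) / nw b R) ((u / (s + 1) * nw b R + k) % nw b R) = y
      rw [(hpm _ _ hk).1, (hpm _ _ hk).2, hclk, hkF]
      have := Nat.div_add_mod y (nw b R)
      rw [mul_comm] at this
      exact this
  · intro x hx hnl
    have hz := hz' x hnl
    rw [(hP x hx hz).1, (hP x hx hz).2]
    unfold nadj
    rw [decide_eq_true_iff]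
    exact (hF _ _ _ (hcl _ hz).1).2
  · intro _ x hx hnl
    have hz : word b R (x % nw b R) i < th al L := not_le.mp hnl
    rw [(hP x hx hz).1]
    exact (hcl _ hz).2.1

end OST
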