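import Pool.Agent.OST.Red

/-!
# One-sided ties of length at most `L`: definitions (no proofs here)

The second version of the reduction: the pairs inside a node are only those between the man `(j, z)`
(class `j`, word `z`) and the women `(t, φ ∘ z)`, `t < L`, where `φ = rot a_t b (j * (a_(t+1) - a_t))`
is a permutation of the letters: the letters `< a_t` are fixed, the letters `≥ a_t` are rotated by `j`
blocks of the length `a_(t+1) - a_t` (there are `L` such blocks in `[a_t, b)`). So the tie at the head of
the list of a woman consists of exactly one man of each of the `L` classes. All the other ties are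
broken, also in the lists of the women.
-/

namespace OST

open SMT

/-- Every tie in the lists of the women has length at most `L`: a woman gives the same rank to at most
`L` men. -/
def TiesLe (L : ℕ) (I : Inst) : Prop :=
  ∀ j r, ∀ S : Finset ℕ, (∀ i ∈ S, rankW I j i = some r) → S.card ≤ L

/-- On the instances without ties in the lists of the men and with ties of length at most `L` in the
lists of the women, the algorithm `A` outputs weakly stable matchings and has approximation ratio
`r`. -/
def HasRatioTies (L : ℕ) (A : Inst → List (ℕ × ℕ)) (r : ℝ) : Prop :=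
  ∀ I, StrictMen I → TiesLe L I →
    WeaklyStable I (A I) ∧ ∀ M, WeaklyStable I M → (M.length : ℝ) ≤ r * (A I).length

/-- The infimum of the approximation ratios `r ≥ 1` of the polynomial-time algorithms for MAX SMTI
restricted to the instances in which only the lists of the women have ties, of length at most `L`. -/
noncomputable def rhoTies (L : ℕ) : ℝ :=
  sInf {r : ℝ | 1 ≤ r ∧ ∃ A : Inst → List (ℕ × ℕ), PTime A ∧ HasRatioTies L A r}

/-- rotate the letters `≥ a` (of the letters `< b`) by `e` -/
def rot (a b e x : ℕ) : ℕ := if x < a then x else a + (x - a + e) % (b - a)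

/-- the man of class `j` with the word number `k` and the woman of class `t` with the word number `l`
of the same node are a pair -/
def nadj (al : List ℕ) (b R t j k l : ℕ) : Bool :=
  decide (∀ i : Fin R, word b R l i = rot (th al t) b (j * (th al (t + 1) - th al t)) (word b R k i))

variable {R₁ R₂ : ℕ} [NeZero R₂]

/-- the two coarse ranks (given by the man, given by the woman) of the pair of the main agents `μ`
(man), `ω` (woman) -/
def rk2 (G : Game R₁ R₂) (L : ℕ) (al : List ℕ) (b ℓ C μ ω : ℕ) : Option (ℕ × ℕ) :=
  if μ / nN L b R₁ = ω / nN L b R₁ ∧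
      nadj al b R₁ (ag1J L b R₁ ω) (ag1J L b R₁ μ) (ag1W b R₁ μ) (ag1W b R₁ ω) = true then
    some (0, 0)
  else if cross1 G (th al L) (th al (ag1J L b R₁ ω)) b ℓ (ag1V L b R₁ C μ) (ag1V L b R₁ C ω)
      (ag1W b R₁ μ) (ag1W b R₁ ω) = true then
    some (ag1C L b R₁ C ω + 1, ag1C L b R₁ C μ + 1)
  else none

/-- The instance: main agents `μ < T`; the private partner of main man `μ` is woman `T + μ`, and the
private partner of main woman `ω` is man `T + ω`. The ties (equal coarse ranks) are broken by the
numbers of the partners, except the coarse rank `0` in the lists of the women. -/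
def red2 (G : Game R₁ R₂) (L : ℕ) (al : List ℕ) (b ℓ C : ℕ) : Inst :=
  ((List.range (2 * nT1 G L b ℓ C)).map fun μ =>
      if μ < nT1 G L b ℓ C then
        ((List.range (nT1 G L b ℓ C)).filterMap fun ω =>
          (rk2 G L al b ℓ C μ ω).map fun r => (ω, r.1 * nT1 G L b ℓ C + ω)) ++
            [(nT1 G L b ℓ C + μ, (C + 1) * nT1 G L b ℓ C)]
      else [(μ - nT1 G L b ℓ C, 0)],
   (List.range (2 * nT1 G L b ℓ C)).map fun ω =>
      if ω < nT1 G L b ℓ C then
        ((List.range (nT1 G L b ℓ C)).filterMap fun μ =>
          (rk2 G L al b ℓ C μ ω).map fun r =>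
            (μ, if r.2 = 0 then 0 else r.2 * nT1 G L b ℓ C + μ)) ++
            [(nT1 G L b ℓ C + ω, (C + 1) * nT1 G L b ℓ C)]
      else [(ω - nT1 G L b ℓ C, 0)])

end OST
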