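import Pool.Agent.OST.Red2

/-!
# Ties of length at most `L` on both sides: definitions (no proofs here)

Letters `x < b = (2L-1) B`, low letters `x < a = (L-1) B`; the block `x / B < 2L-1` of a letter is low if it is
`< L-1`. For `s < L` the involution `sig L s` of the blocks fixes the block `L-1+s` and exchanges the `L-1`
low blocks with the `L-1` other blocks; `phi L B s` is the same for the letters. The pairs inside a node are
man `z` - woman `phi L B s ∘ z`, `s < L`.
-/

namespace OST

open SMT

/-- Every tie in the lists of the men has length at most `L`: a man gives the same rank to at most `L`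
women. -/
def TiesLeM (L : ℕ) (I : Inst) : Prop :=
  ∀ i r, ∀ S : Finset ℕ, (∀ j ∈ S, rankM I i j = some r) → S.card ≤ L

/-- On the instances with ties of length at most `L` (in the lists of the men and of the women), the
algorithm `A` outputs weakly stable matchings and has approximation ratio `r`. -/
def HasRatioBoth (L : ℕ) (A : Inst → List (ℕ × ℕ)) (r : ℝ) : Prop :=
  ∀ I, TiesLeM L I → TiesLe L I →
    WeaklyStable I (A I) ∧ ∀ M, WeaklyStable I M → (M.length : ℝ) ≤ r * (A I).length

/-- The infimum of the approximation ratios `r ≥ 1` of the polynomial-time algorithms for MAX SMTI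
restricted to the instances with ties of length at most `L`. -/
noncomputable def rhoBoth (L : ℕ) : ℝ :=
  sInf {r : ℝ | 1 ≤ r ∧ ∃ A : Inst → List (ℕ × ℕ), PTime A ∧ HasRatioBoth L A r}

/-- the involution number `s < L` of the blocks `0, …, 2L-2` -/
def sig (L s y : ℕ) : ℕ :=
  if y < L - 1 then (if y < s then L - 1 + y else L + y)
  else if y < L - 1 + s then y - (L - 1) else if y = L - 1 + s then y else y - L

/-- the involution number `s < L` of the letters -/
def phi (L B s x : ℕ) : ℕ := sig L s (x / B) * B + x % B

/-- the man with the word number `k` and the woman with the word number `l` of the same node are a pair -/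
def nadj3 (L B b R k l : ℕ) : Bool :=
  (List.range L).any fun s => decide (∀ i : Fin R, word b R l i = phi L B s (word b R k i))

variable {R₁ R₂ : ℕ} [NeZero R₂]

/-- the two coarse ranks (given by the man, given by the woman) of the pair of the main agents `μ`
(man), `ω` (woman) -/
def rk3 (G : Game R₁ R₂) (L B a b ℓ C μ ω : ℕ) : Option (ℕ × ℕ) :=
  if μ / nw b R₁ = ω / nw b R₁ ∧ nadj3 L B b R₁ (agW b R₁ μ) (agW b R₁ ω) = true then
    some (0, 0)
  else if cross G a b ℓ (agV b R₁ C μ) (agV b R₁ C ω) (agW b R₁ μ) (agW b R₁ ω) = true then
    some (agC b R₁ C ω + 1, agC b R₁ C μ + 1)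
  else none

/-- The instance: main agents `μ < T`; the private partner of main man `μ` is woman `T + μ`, and the
private partner of main woman `ω` is man `T + ω`. The ties (equal coarse ranks) are broken by the
numbers of the partners, except the coarse rank `0`. -/
def red3 (G : Game R₁ R₂) (L B a b ℓ C : ℕ) : Inst :=
  ((List.range (2 * nT G b ℓ C)).map fun μ =>
      if μ < nT G b ℓ C then
        ((List.range (nT G b ℓ C)).filterMap fun ω =>
          (rk3 G L B a b ℓ C μ ω).map fun r =>
            (ω, if r.1 = 0 then 0 else r.1 * nT G b ℓ C + ω)) ++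
            [(nT G b ℓ C + μ, (C + 1) * nT G b ℓ C)]
      else [(μ - nT G b ℓ C, 0)],
   (List.range (2 * nT G b ℓ C)).map fun ω =>
      if ω < nT G b ℓ C then
        ((List.range (nT G b ℓ C)).filterMap fun μ =>
          (rk3 G L B a b ℓ C μ ω).map fun r =>
            (μ, if r.2 = 0 then 0 else r.2 * nT G b ℓ C + μ)) ++
            [(nT G b ℓ C + ω, (C + 1) * nT G b ℓ C)]
      else [(ω - nT G b ℓ C, 0)])

end OST
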