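import Pool.Agent.OST.RedSem2
import Pool.Agent.OST.Red3

/-!
# MODULE RedSem3: the ranks in the instance `red3 G L B a b ℓ C`

Adapt `Pool/Agent/OST/RedSem2.lean` (`T = nT G b ℓ C`; both ranks are `if .. = 0 then 0 else .. * T + ..`).
-/

namespace OST

open SMT

variable {R₁ R₂ : ℕ} [NeZero R₂]

theorem rankM_red3 (G : Game R₁ R₂) (L B a b ℓ C μ ω : ℕ) :
    rankM (red3 G L B a b ℓ C) μ ω =
      if μ < nT G b ℓ C then
        (if ω < nT G b ℓ C then
          (rk3 G L B a b ℓ C μ ω).map (fun r => if r.1 = 0 then 0 else r.1 * nT G b ℓ C + ω)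
         else if ω = nT G b ℓ C + μ then some ((C + 1) * nT G b ℓ C) else none)
      else if μ < 2 * nT G b ℓ C ∧ ω = μ - nT G b ℓ C then some 0 else none := by
  unfold rankM red3
  simp only []
  rw [RedSem_getD]
  set T := nT G b ℓ C with hT
  by_cases h1 : μ < T
  · rw [if_pos (by omega), if_pos h1, if_pos h1]
    have e : (fun ω => (rk3 G L B a b ℓ C μ ω).map fun r =>
          (ω, if r.1 = 0 then 0 else r.1 * T + ω))
        = (fun x => ((rk3 G L B a b ℓ C μ x).map
            (fun r => if r.1 = 0 then 0 else r.1 * T + x)).map fun r => (x, r)) := by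
      funext x
      cases rk3 G L B a b ℓ C μ x <;> rfl
    rw [e, RedSem_rankIn T _ _ (by simp)]
  · rw [if_neg h1]
    by_cases h2 : μ < 2 * T
    · rw [if_pos h2, if_neg h1]
      unfold rankIn
      by_cases h3 : ω = μ - T
      · rw [if_pos ⟨h2, h3⟩]
        simp [h3]
      · rw [if_neg (fun h => h3 h.2)]
        have : ¬ (μ - T = ω) := fun h => h3 h.symm
        simp [this]
    · rw [if_neg h2, if_neg h1, if_neg (fun h => h2 h.1)]
      rfl

theorem rankW_red3 (G : Game R₁ R₂) (L B a b ℓ C μ ω : ℕ) :
    rankW (red3 G L B a b ℓ C) ω μ =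
      if ω < nT G b ℓ C then
        (if μ < nT G b ℓ C then
          (rk3 G L B a b ℓ C μ ω).map (fun r => if r.2 = 0 then 0 else r.2 * nT G b ℓ C + μ)
         else if μ = nT G b ℓ C + ω then some ((C + 1) * nT G b ℓ C) else none)
      else if ω < 2 * nT G b ℓ C ∧ μ = ω - nT G b ℓ C then some 0 else none := by
  unfold rankW red3
  simp only []
  rw [RedSem_getD]
  set T := nT G b ℓ C with hT
  by_cases h1 : ω < T
  · rw [if_pos (by omega), if_pos h1, if_pos h1]
    have e : (fun μ => (rk3 G L B a b ℓ C μ ω).map fun r =>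
          (μ, if r.2 = 0 then 0 else r.2 * T + μ))
        = (fun x => ((rk3 G L B a b ℓ C x ω).map
            (fun r => if r.2 = 0 then 0 else r.2 * T + x)).map fun r => (x, r)) := by
      funext x
      cases rk3 G L B a b ℓ C x ω <;> rfl
    rw [e, RedSem_rankIn T _ _ (by simp)]
  · rw [if_neg h1]
    by_cases h2 : ω < 2 * T
    · rw [if_pos h2, if_neg h1]
      unfold rankIn
      by_cases h3 : μ = ω - T
      · rw [if_pos ⟨h2, h3⟩]
        simp [h3]
      · rw [if_neg (fun h => h3 h.2)]
        have : ¬ (ω - T = μ) := fun h => h3 h.symm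
        simp [this]
    · rw [if_neg h2, if_neg h1, if_neg (fun h => h2 h.1)]
      rfl

/-- the acceptable pairs: main pairs with `rk3`, and the private pairs -/
theorem acceptable_red3 (G : Game R₁ R₂) (L B a b ℓ C μ ω : ℕ) :
    Acceptable (red3 G L B a b ℓ C) μ ω ↔
      (μ < nT G b ℓ C ∧ ω < nT G b ℓ C ∧ (rk3 G L B a b ℓ C μ ω).isSome = true) ∨
      (μ < nT G b ℓ C ∧ ω = nT G b ℓ C + μ) ∨ (ω < nT G b ℓ C ∧ μ = nT G b ℓ C + ω) := by
  unfold Acceptable
  rw [rankM_red3, rankW_red3]
  set T := nT G b ℓ C with hT
  by_cases h1 : μ < T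
  · by_cases h2 : ω < T
    · simp only [h1, h2, if_true, Option.isSome_map, true_and, and_self]
      constructor
      · intro h; exact Or.inl h
      · rintro (h | h | h)
        · exact h
        · omega
        · omega
    · simp only [h1, h2, if_true, if_false, true_and, false_and, false_or, or_false]
      constructor
      · rintro ⟨ha, _⟩
        by_contra hne
        rw [if_neg hne] at ha
        simp at ha
      · intro h
        rw [if_pos h, if_pos (by omega)]
        simp
  · by_cases h2 : ω < T
    · simp only [h1, h2, if_true, if_false, true_and, false_and, false_or]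
      constructor
      · rintro ⟨_, ha⟩
        by_contra hne
        rw [if_neg hne] at ha
        simp at ha
      · intro h
        rw [if_pos h, if_pos (by omega)]
        simp
    · simp only [h1, h2, if_false, false_and, or_false, iff_false]
      rintro ⟨ha, hb⟩
      by_cases h3 : μ < 2 * T ∧ ω = μ - T
      · omega
      · rw [if_neg h3] at ha
        simp at ha

end OST
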