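import Pool.Agent.OST.Red3
import Pool.Agent.OST.Rot

/-!
# MODULE Sig: the involutions of the letters, and the matching inside a node

`phi`: for `x < (2L-1) B`, `B ≥ 1`: `x / B < 2L-1`, and `x < (L-1) B ↔ x / B < L-1`. `sig` is an involution of
`0, …, 2L-2` (case distinction, `omega`), maps `y < L-1` to some `≥ L-1`, and for `y ≥ L-1`: `sig L s y ≥ L-1` iff
`y = L-1+s`, and then `sig L s y = y`.
`perm3`: if `good` is false, `P` is `phi L B 0` applied to all the letters. If `good` is true and the letter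
of the word `k` at `i` is not low, put `s = (word k i) / B - (L-1) < L`; `P k` is the word of the letters
`phi L B s (word k j)`; its letter at `i` is the same letter. `P` is an involution on the words with a high
letter at `i`. (`exists_word`, `word_inj`, `word_lt` in `Rot`.)
-/

namespace OST

open Finset SMT

theorem sig_lt {L s y : ℕ} (hs : s < L) (hy : y < 2 * L - 1) : sig L s y < 2 * L - 1 := by
  unfold sig
  split_ifs <;> omega

theorem sig_sig {L s y : ℕ} (hs : s < L) (hy : y < 2 * L - 1) : sig L s (sig L s y) = y := by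
  unfold sig
  split_ifs <;> omega

private theorem Sig_divmod {B q r : ℕ} (hr : r < B) : (q * B + r) / B = q ∧ (q * B + r) % B = r := by
  have hB : 0 < B := by omega
  constructor
  · rw [mul_comm, Nat.mul_add_div hB, Nat.div_eq_of_lt hr, add_zero]
  · rw [mul_comm, Nat.mul_add_mod, Nat.mod_eq_of_lt hr]

private theorem Sig_pos {a B x : ℕ} (h : x < a * B) : 0 < B := by
  rcases Nat.eq_zero_or_pos B with h0 | h0
  · rw [h0, mul_zero] at h
    omega
  · exact h0

private theorem Sig_div_lt {a B x : ℕ} (h : x < a * B) : x / B < a := by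
  apply Nat.div_lt_of_lt_mul
  rwa [mul_comm]

theorem phi_lt {L B s x : ℕ} (hs : s < L) (hx : x < (2 * L - 1) * B) :
    phi L B s x < (2 * L - 1) * B := by
  have hB := Sig_pos hx
  have h1 := sig_lt hs (Sig_div_lt hx)
  have h2 := Nat.mod_lt x hB
  have h3 : (sig L s (x / B) + 1) * B ≤ (2 * L - 1) * B := Nat.mul_le_mul_right B h1
  rw [add_mul, one_mul] at h3
  unfold phi
  omega

theorem phi_phi {L B s x : ℕ} (hs : s < L) (hx : x < (2 * L - 1) * B) :
    phi L B s (phi L B s x) = x := by
  have hB := Sig_pos hx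
  obtain ⟨h1, h2⟩ := Sig_divmod (q := sig L s (x / B)) (Nat.mod_lt x hB)
  show sig L s ((sig L s (x / B) * B + x % B) / B) * B + (sig L s (x / B) * B + x % B) % B = x
  rw [h1, h2, sig_sig hs (Sig_div_lt hx)]
  exact Nat.div_add_mod' x B

/-- a low letter is mapped to a high letter -/
theorem phi_low {L B s x : ℕ} (hs : s < L) (hx : x < (L - 1) * B) :
    (L - 1) * B ≤ phi L B s x := by
  have h1 : x / B < L - 1 := Sig_div_lt hx
  have h2 : L - 1 ≤ sig L s (x / B) := by
    generalize x / B = y at h1 ⊢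
    unfold sig
    split_ifs <;> omega
  have h3 := Nat.mul_le_mul_right B h2
  unfold phi
  omega

/-- in a good node two low agents are not a pair -/
theorem nadj3_low {L B R k l : ℕ} (i : Fin R) (h : nadj3 L B ((2 * L - 1) * B) R k l = true) :
    ¬ (word ((2 * L - 1) * B) R k i < (L - 1) * B ∧ word ((2 * L - 1) * B) R l i < (L - 1) * B) := by
  unfold nadj3 at h
  rw [List.any_eq_true] at h
  obtain ⟨s, hs, h2⟩ := h
  have h3 := of_decide_eq_true h2 i
  rintro ⟨h4, h5⟩
  have h6 := phi_low (List.mem_range.1 hs) h4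
  rw [h3] at h5
  omega

theorem perm3 (L B : ℕ) (hL : 1 ≤ L) (hB : 1 ≤ B) (R : ℕ) (good : Prop) (i : Fin R) :
    ∃ P : ℕ → ℕ,
      -- (a) a man who is not low is matched to a woman who is not low
      (∀ k < nw ((2 * L - 1) * B) R, ¬ (good ∧ word ((2 * L - 1) * B) R k i < (L - 1) * B) →
        P k < nw ((2 * L - 1) * B) R ∧ ¬ (good ∧ word ((2 * L - 1) * B) R (P k) i < (L - 1) * B)) ∧
      -- (b) injective
      (∀ k < nw ((2 * L - 1) * B) R, ∀ k' < nw ((2 * L - 1) * B) R,
        ¬ (good ∧ word ((2 * L - 1) * B) R k i < (L - 1) * B) →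
        ¬ (good ∧ word ((2 * L - 1) * B) R k' i < (L - 1) * B) → P k = P k' → k = k') ∧
      -- (c) every woman who is not low is matched
      (∀ l < nw ((2 * L - 1) * B) R, ¬ (good ∧ word ((2 * L - 1) * B) R l i < (L - 1) * B) →
        ∃ k < nw ((2 * L - 1) * B) R,
          ¬ (good ∧ word ((2 * L - 1) * B) R k i < (L - 1) * B) ∧ P k = l) ∧
      -- (d) the pairs are pairs of the instance
      (∀ k < nw ((2 * L - 1) * B) R, ¬ (good ∧ word ((2 * L - 1) * B) R k i < (L - 1) * B) →
        nadj3 L B ((2 * L - 1) * B) R k (P k) = true) := by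
  classical
  have hb : 0 < (2 * L - 1) * B := Nat.mul_pos (by omega) hB
  obtain ⟨b, hbe⟩ : ∃ b, b = (2 * L - 1) * B := ⟨_, rfl⟩
  rw [← hbe] at hb ⊢
  obtain ⟨σ, hσ⟩ : ∃ σ : ℕ → ℕ, ∀ k, σ k = if good then word b R k i / B - (L - 1) else 0 :=
    ⟨_, fun _ => rfl⟩
  have hσL : ∀ k, σ k < L := by
    intro k
    rw [hσ]
    split_ifs
    · have h1 : word b R k i < (2 * L - 1) * B := hbe ▸ word_lt hb i
      have h2 := Sig_div_lt h1
      omega
    · omega
  have hex : ∀ k, ∃ p, p < nw b R ∧ ∀ j, word b R p j = phi L B (σ k) (word b R k j) := by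
    intro k
    obtain ⟨p, h1, h2⟩ := exists_word (b := b) (fun j : Fin R => phi L B (σ k) (word b R k j)) (by
      intro j
      rw [hbe]
      exact phi_lt (hσL k) (hbe ▸ word_lt hb j))
    exact ⟨p, h1, h2⟩
  choose P hP1 hP2 using hex
  have hsame : ∀ k, ¬ (good ∧ word b R k i < (L - 1) * B) →
      ¬ (good ∧ word b R (P k) i < (L - 1) * B) ∧ σ (P k) = σ k := by
    intro k hk
    by_cases hg : good
    · have hk1 : (L - 1) * B ≤ word b R k i := by
        by_contra h
        exact hk ⟨hg, by omega⟩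
      have hk2 : L - 1 ≤ word b R k i / B := (Nat.le_div_iff_mul_le hB).2 hk1
      have hs : word b R k i / B = L - 1 + σ k := by
        rw [hσ, if_pos hg]
        omega
      have hw : word b R (P k) i = word b R k i := by
        rw [hP2]
        unfold phi
        rw [hs]
        have : sig L (σ k) (L - 1 + σ k) = L - 1 + σ k := by
          unfold sig
          split_ifs <;> omega
        rw [this, ← hs]
        exact Nat.div_add_mod' _ B
      constructor
      · rintro ⟨_, h⟩
        rw [hw] at h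
        omega
      · rw [hσ, hσ, hw]
    · exact ⟨fun h => hg h.1, by rw [hσ, hσ, if_neg hg, if_neg hg]⟩
  have hPP : ∀ k < nw b R, ¬ (good ∧ word b R k i < (L - 1) * B) → P (P k) = k := by
    intro k hk hk2
    apply word_inj (hP1 _) hk
    intro j
    rw [hP2, hP2, (hsame k hk2).2]
    exact phi_phi (hσL k) (hbe ▸ word_lt hb j)
  refine ⟨P, ?_, ?_, ?_, ?_⟩
  · intro k hk h
    exact ⟨hP1 k, (hsame k h).1⟩
  · intro k hk k' hk' h h' he
    rw [← hPP k hk h, ← hPP k' hk' h', he]
  · intro l hl h
    exact ⟨P l, hP1 l, (hsame l h).1, hPP l hl h⟩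
  · intro k hk h
    unfold nadj3
    rw [List.any_eq_true]
    exact ⟨σ k, List.mem_range.2 (hσL k), decide_eq_true (hP2 k)⟩

end OST
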