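import Pool.Agent.SMT.Complete
import Pool.Agent.OST.RedSem3
import Pool.Agent.OST.Sig

/-!
# MODULE Complete3: a large weakly stable matching if the game has value `≥ 1 - ζ`

Adapt theorem `complete` of `Pool/Agent/SMT/Complete.lean` (`perm3` for `Complete_perm`: now `P` is a
bijection only between the words which are not low; `rk3`, `red3`; ranks `0`, `r * T + ..`, `(C+1) * T`). In a
blocking main pair both agents are low (the others have rank `0`), so both tuples are good; a pair
inside a node is excluded by `nadj3_low`, a cross pair as before.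
-/

namespace OST

open Finset SMT

variable {R₁ R₂ : ℕ} [NeZero R₂]

theorem complete3 (G : Game R₁ R₂) (L B ℓ C : ℕ) (hL : 1 ≤ L) (hB : 1 ≤ B)
    (hℓ : 1 ≤ ℓ) {ζ : ℝ} (hζ : 0 < ζ) (hY : G.Yes ζ) :
    ∃ M, WeaklyStable (red3 G L B ((L - 1) * B) ((2 * L - 1) * B) ℓ C) M ∧
      (nT G ((2 * L - 1) * B) ℓ C : ℝ) *
        (1 + (((L - 1) * B : ℕ) : ℝ) / (((2 * L - 1) * B : ℕ) : ℝ) * (1 - 2 * ℓ * ζ)) ≤ M.length := by
  classical
  have hperm := perm3 L B hL hB R₁
  have hnl : ∀ (k l : ℕ) (i : Fin R₁), nadj3 L B ((2 * L - 1) * B) R₁ k l = true →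
      ¬ (word ((2 * L - 1) * B) R₁ k i < (L - 1) * B ∧
        word ((2 * L - 1) * B) R₁ l i < (L - 1) * B) := fun k l i h => nadj3_low i h
  have hb : 0 < (2 * L - 1) * B := Nat.mul_pos (by omega) (by omega)
  have hab' : (L - 1) * B ≤ (2 * L - 1) * B := Nat.mul_le_mul_right _ (by omega)
  generalize ha : (L - 1) * B = a at *
  generalize hbb : (2 * L - 1) * B = b at *
  by_cases hG : G = []
  · have hT : nT G b ℓ C = 0 := by
      unfold nT
      rw [hG]
      simp
    refine ⟨[], ⟨⟨?_, ?_, ?_⟩, ?_⟩, ?_⟩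
    · intro p hp; simp at hp
    · simp
    · simp
    · intro i j hacc
      rw [acceptable_red3, hT] at hacc
      omega
    · rw [hT]; simp
  obtain ⟨f, g, hfg⟩ := hY
  set N := nw b R₁ with hN
  have hNpos : 0 < N := Nat.pow_pos hb
  set T := nT G b ℓ C with hT
  have hTe : T = G.length ^ (ℓ + 1) * C * N := rfl
  -- the permutations
  choose P hP1 hP2 hP3 hP4 using fun v => hperm (Good G ℓ f g v) (f (vx G v))
  let F : ℕ → ℕ → Prop := fun v k => Good G ℓ f g v ∧ word b R₁ k (f (vx G v)) < a
  let low : ℕ → Prop := fun μ => F (μ / N / C) (μ % N)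
  let par0 : ℕ → ℕ := fun μ => (μ / N) * N + P (μ / N / C) (μ % N)
  let par : ℕ → ℕ := fun μ => if low μ then T + μ else par0 μ
  have hmod : ∀ μ, μ % N < N := fun μ => Nat.mod_lt _ hNpos
  have hdiv0 : ∀ q r, r < N → (q * N + r) / N = q ∧ (q * N + r) % N = r := by
    intro q r hr
    constructor
    · rw [mul_comm, Nat.mul_add_div hNpos, Nat.div_eq_of_lt hr, add_zero]
    · rw [mul_comm, Nat.mul_add_mod, Nat.mod_eq_of_lt hr]
  have hlt : ∀ μ < T, ∀ r < N, (μ / N) * N + r < T := by
    intro μ hμ r hr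
    rw [hTe] at hμ ⊢
    have h1 : μ / N < G.length ^ (ℓ + 1) * C := (Nat.div_lt_iff_lt_mul hNpos).mpr hμ
    calc (μ / N) * N + r < (μ / N) * N + N := by omega
      _ = (μ / N + 1) * N := by ring
      _ ≤ (G.length ^ (ℓ + 1) * C) * N := Nat.mul_le_mul_right _ h1
  have hself : ∀ μ, (μ / N) * N + μ % N = μ := fun μ => by
    rw [mul_comm]; exact Nat.div_add_mod μ N
  have hPlt : ∀ μ, ¬ low μ → P (μ / N / C) (μ % N) < N := fun μ hl =>
    (hP1 _ _ (hmod μ) hl).1
  have hpar0lt : ∀ μ < T, ¬ low μ → par0 μ < T := fun μ hμ hl => hlt μ hμ _ (hPlt μ hl)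
  have hpar0div : ∀ μ, ¬ low μ → par0 μ / N = μ / N ∧ par0 μ % N = P (μ / N / C) (μ % N) :=
    fun μ hl => hdiv0 _ _ (hPlt μ hl)
  have hlowpar0 : ∀ μ, ¬ low μ → ¬ low (par0 μ) := by
    intro μ hl
    show ¬ F (par0 μ / N / C) (par0 μ % N)
    rw [(hpar0div μ hl).1, (hpar0div μ hl).2]
    exact (hP1 _ _ (hmod μ) hl).2
  have hpar0inj : ∀ μ μ', ¬ low μ → ¬ low μ' → par0 μ = par0 μ' → μ = μ' := by
    intro μ μ' hl hl' h
    have h1 : μ / N = μ' / N := by rw [← (hpar0div μ hl).1, ← (hpar0div μ' hl').1, h]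
    have h2 : P (μ / N / C) (μ % N) = P (μ' / N / C) (μ' % N) := by
      rw [← (hpar0div μ hl).2, ← (hpar0div μ' hl').2, h]
    rw [h1] at h2
    have h4 : ¬ F (μ' / N / C) (μ % N) := by rw [← h1]; exact hl
    have h3 := hP2 _ _ (hmod μ) _ (hmod μ') h4 hl' h2
    rw [← hself μ, ← hself μ', h1, h3]
  have hpar0surj : ∀ ω < T, ¬ low ω → ∃ μ < T, ¬ low μ ∧ par0 μ = ω := by
    intro ω hω hl
    obtain ⟨k, hk, hkl, hPk⟩ := hP3 (ω / N / C) _ (hmod ω) hl
    have e1 := (hdiv0 (ω / N) k hk).1
    have e2 := (hdiv0 (ω / N) k hk).2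
    refine ⟨(ω / N) * N + k, hlt ω hω k hk, ?_, ?_⟩
    · show ¬ F (((ω / N) * N + k) / N / C) (((ω / N) * N + k) % N)
      rw [e1, e2]
      exact hkl
    · show (((ω / N) * N + k) / N) * N + P (((ω / N) * N + k) / N / C) (((ω / N) * N + k) % N) = ω
      rw [e1, e2, hPk, hself]
  have hrkpar : ∀ μ, ¬ low μ → rk3 G L B a b ℓ C μ (par0 μ) = some (0, 0) := by
    intro μ hlow
    unfold rk3
    rw [if_pos]
    refine ⟨((hpar0div μ hlow).1).symm, ?_⟩
    have e1 : agW b R₁ μ = μ % N := rfl
    have e2 : agW b R₁ (par0 μ) = P (μ / N / C) (μ % N) := (hpar0div μ hlow).2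
    rw [e1, e2]
    exact hP4 _ _ (hmod μ) hlow
  let M : List (ℕ × ℕ) := (List.range T).map (fun μ => (μ, par μ)) ++
    ((List.range T).filter (fun ω => decide (low ω))).map (fun ω => (T + ω, ω))
  have hMmem : ∀ x y, (x, y) ∈ M ↔ (x < T ∧ par x = y) ∨ (y < T ∧ low y ∧ x = T + y) := by
    intro x y
    show (x, y) ∈ _ ++ _ ↔ _
    rw [List.mem_append, List.mem_map, List.mem_map]
    constructor
    · rintro (⟨μ, hμ, h⟩ | ⟨ω, hω, h⟩)
      · rw [Prod.mk.injEq] at h
        obtain ⟨rfl, rfl⟩ := h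
        exact Or.inl ⟨List.mem_range.mp hμ, rfl⟩
      · rw [Prod.mk.injEq] at h
        obtain ⟨rfl, rfl⟩ := h
        obtain ⟨h1, h2⟩ := List.mem_filter.mp hω
        exact Or.inr ⟨List.mem_range.mp h1, of_decide_eq_true h2, rfl⟩
    · rintro (⟨h1, h2⟩ | ⟨h1, h2, h3⟩)
      · exact Or.inl ⟨x, List.mem_range.mpr h1, by rw [h2]⟩
      · exact Or.inr ⟨y, List.mem_filter.mpr ⟨List.mem_range.mpr h1, decide_eq_true h2⟩, by rw [h3]⟩
  have hparlow : ∀ μ, low μ → par μ = T + μ := fun μ h => if_pos h
  have hparnl : ∀ μ, ¬ low μ → par μ = par0 μ := fun μ h => if_neg h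
  have hparinj : ∀ μ < T, ∀ μ' < T, par μ = par μ' → μ = μ' := by
    intro μ hμ μ' hμ' h
    by_cases h1 : low μ
    · by_cases h2 : low μ'
      · rw [hparlow _ h1, hparlow _ h2] at h; omega
      · rw [hparlow _ h1, hparnl _ h2] at h
        have := hpar0lt μ' hμ' h2
        omega
    · by_cases h2 : low μ'
      · rw [hparnl _ h1, hparlow _ h2] at h
        have := hpar0lt μ hμ h1
        omega
      · rw [hparnl _ h1, hparnl _ h2] at h
        exact hpar0inj _ _ h1 h2 h
  refine ⟨M, ⟨⟨?_, ?_, ?_⟩, ?_⟩, ?_⟩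
  · -- acceptable
    rintro ⟨x, y⟩ hp
    rw [hMmem] at hp
    show Acceptable _ x y
    rw [acceptable_red3]
    rcases hp with ⟨h1, h2⟩ | ⟨h1, h2, h3⟩
    · by_cases hl : low x
      · rw [hparlow _ hl] at h2
        exact Or.inr (Or.inl ⟨h1, h2.symm⟩)
      · rw [hparnl _ hl] at h2
        left
        refine ⟨h1, by rw [← h2]; exact hpar0lt x h1 hl, ?_⟩
        rw [← h2, hrkpar x hl]
        rfl
    · exact Or.inr (Or.inr ⟨h1, h3⟩)
  · -- men
    show (List.map Prod.fst (_ ++ _)).Nodup
    rw [List.map_append, List.map_map, List.map_map, List.nodup_append]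
    refine ⟨?_, ?_, ?_⟩
    · have : (Prod.fst ∘ fun μ => (μ, par μ)) = (id : ℕ → ℕ) := rfl
      rw [this, List.map_id]
      exact List.nodup_range
    · exact (List.nodup_range.filter _).map (fun x y h => by
        have h' : T + x = T + y := h
        omega)
    · intro x hx y hy hxy
      subst hxy
      obtain ⟨μ, hμ, h1⟩ := List.mem_map.mp hx
      obtain ⟨ω, hω, h2⟩ := List.mem_map.mp hy
      have h1' : μ = x := h1
      have h2' : T + ω = x := h2
      have := List.mem_range.mp hμ
      omega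
  · -- women
    show (List.map Prod.snd (_ ++ _)).Nodup
    rw [List.map_append, List.map_map, List.map_map, List.nodup_append]
    refine ⟨?_, ?_, ?_⟩
    · refine List.Nodup.map_on ?_ List.nodup_range
      intro x hx y hy h
      exact hparinj x (List.mem_range.mp hx) y (List.mem_range.mp hy) h
    · have : (Prod.snd ∘ fun ω => (T + ω, ω)) = (id : ℕ → ℕ) := rfl
      rw [this, List.map_id]
      exact List.nodup_range.filter _
    · intro x hx y hy hxy
      subst hxy
      obtain ⟨μ, hμ, h1⟩ := List.mem_map.mp hx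
      obtain ⟨ω, hω, h2⟩ := List.mem_map.mp hy
      have h1' : par μ = x := h1
      have h2' : ω = x := h2
      have hμT := List.mem_range.mp hμ
      obtain ⟨h3, h4⟩ := List.mem_filter.mp hω
      have h3' := List.mem_range.mp h3
      have h4' : low ω := of_decide_eq_true h4
      by_cases hl : low μ
      · rw [hparlow _ hl] at h1'; omega
      · rw [hparnl _ hl] at h1'
        rw [h2', ← h1'] at h4'
        exact hlowpar0 μ hl h4'
  · -- stable
    intro i j hacc hblock
    obtain ⟨hm, hw⟩ := hblock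
    have hRM := rankM_red3 G L B a b ℓ C
    have hRW := rankW_red3 G L B a b ℓ C
    rw [← hT] at hRM hRW
    -- ranks of the pairs of M
    have hrm : ∀ x < T, ¬ low x → (rankM (red3 G L B a b ℓ C) x (par x)).getD 0 = 0 := by
      intro x hx hl
      rw [hparnl _ hl, hRM, if_pos hx, if_pos (hpar0lt x hx hl), hrkpar x hl]
      rfl
    have hrw : ∀ x < T, ¬ low x → (rankW (red3 G L B a b ℓ C) (par x) x).getD 0 = 0 := by
      intro x hx hl
      rw [hparnl _ hl, hRW, if_pos (hpar0lt x hx hl), if_pos hx, hrkpar x hl]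
      rfl
    have hman : ∀ x < T, ManWants (red3 G L B a b ℓ C) M x j → low x := by
      intro x hx hw
      by_contra hl
      have := hw (par x) ((hMmem _ _).mpr (Or.inl ⟨hx, rfl⟩))
      rw [hrm x hx hl] at this
      omega
    have hwoman : ∀ y < T, WomanWants (red3 G L B a b ℓ C) M y i → low y := by
      intro y hy hw
      by_contra hl
      obtain ⟨x, hx, hlx, hxy⟩ := hpar0surj y hy hl
      have hpx : par x = y := by rw [hparnl _ hlx, hxy]
      have h1 := hw x ((hMmem _ _).mpr (Or.inl ⟨hx, hpx⟩))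
      have h2 := hrw x hx hlx
      rw [hpx] at h2
      rw [h2] at h1
      omega
    rw [acceptable_red3, ← hT] at hacc
    rcases hacc with ⟨hi, hj, hs⟩ | ⟨hi, hj⟩ | ⟨hj, hi⟩
    · have hli := hman i hi hm
      have hlj := hwoman j hj hw
      obtain ⟨hgi, hwi⟩ : F (i / N / C) (i % N) := hli
      obtain ⟨hgj, hwj⟩ : F (j / N / C) (j % N) := hlj
      unfold rk3 at hs
      by_cases hc1 : i / nw b R₁ = j / nw b R₁ ∧
          nadj3 L B b R₁ (agW b R₁ i) (agW b R₁ j) = true
      · obtain ⟨hq, had⟩ := hc1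
        have hq' : i / N = j / N := hq
        rw [← hq'] at hwj
        exact hnl _ _ (f (vx G (i / N / C))) had ⟨hwi, hwj⟩
      · rw [if_neg hc1] at hs
        by_cases hc2 : cross G a b ℓ (agV b R₁ C i) (agV b R₁ C j) (agW b R₁ i) (agW b R₁ j) = true
        · unfold cross at hc2
          rw [List.any_eq_true] at hc2
          obtain ⟨q, hq, hc3⟩ := hc2
          rw [List.any_eq_true] at hc3
          obtain ⟨q', hq', hc4⟩ := hc3
          rw [Bool.and_eq_true, decide_eq_true_iff] at hc4
          obtain ⟨hy, had⟩ := hc4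
          rw [Complete_adjn] at had
          have h1 := hgi q (List.mem_range.mp hq)
          have h2 := hgj q' (List.mem_range.mp hq')
          have e1 : agV b R₁ C i = i / N / C := rfl
          have e2 : agV b R₁ C j = j / N / C := rfl
          rw [e1, e2] at had hy
          exact had (f (vx G (i / N / C))) (f (vx G (j / N / C))) (by rw [h1, h2, hy]) ⟨hwi, hwj⟩
        · rw [if_neg hc2] at hs
          simp at hs
    · have hli := hman i hi hm
      have := hm (par i) ((hMmem _ _).mpr (Or.inl ⟨hi, rfl⟩))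
      rw [hparlow _ hli, ← hj] at this
      omega
    · have hlj := hwoman j hj hw
      have := hw (T + j) ((hMmem _ _).mpr (Or.inr ⟨hj, hlj, rfl⟩))
      rw [← hi] at this
      omega
  · -- size
    have hlen : M.length = T + ((range T).filter low).card := by
      show (((List.range T).map (fun μ => (μ, par μ)) ++
        ((List.range T).filter (fun ω => decide (low ω))).map (fun ω => (T + ω, ω))) : List (ℕ × ℕ)).length = _
      rw [List.length_append, List.length_map, List.length_map, List.length_range]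
      congr 1
    have hcount : ((range T).filter low).card =
        ∑ v ∈ range (G.length ^ (ℓ + 1)), C * ((range N).filter (F v)).card := by
      rw [hTe]
      exact Complete_count (G.length ^ (ℓ + 1)) C N F hNpos
    have hFv : ∀ v, (((range N).filter (F v)).card : ℝ) * b = if Good G ℓ f g v then (a : ℝ) * N else 0 := by
      intro v
      by_cases hg : Good G ℓ f g v
      · rw [if_pos hg]
        have h1 := Complete_cardword a b R₁ hab' (f (vx G v))
        have h2 : (range N).filter (F v) = (range (nw b R₁)).filter fun k => word b R₁ k (f (vx G v)) < a := by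
          refine Finset.filter_congr (fun k _ => ?_)
          show (_ ∧ _) ↔ _
          exact ⟨fun h => h.2, fun h => ⟨hg, h⟩⟩
        rw [h2]
        exact_mod_cast h1
      · rw [if_neg hg]
        have h2 : (range N).filter (F v) = ∅ := by
          rw [Finset.filter_eq_empty_iff]
          intro k _ h
          exact hg h.1
        rw [h2]; simp
    have hgood : (1 - 2 * ℓ * ζ) * (G.length : ℝ) ^ (ℓ + 1) ≤
        (((range (G.length ^ (ℓ + 1))).filter fun v => Good G ℓ f g v).card : ℝ) := by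
      have h1 := ug_yes hG f g hfg ℓ
      have h2 := Finset.card_filter_add_card_filter_not (s := range (G.length ^ (ℓ + 1))) (fun v => Good G ℓ f g v)
      rw [Finset.card_range] at h2
      have h3 : (((range (G.length ^ (ℓ + 1))).filter fun v => Good G ℓ f g v).card : ℝ) +
          (((range (G.length ^ (ℓ + 1))).filter fun v => ¬ Good G ℓ f g v).card : ℝ) = (G.length : ℝ) ^ (ℓ + 1) := by
        exact_mod_cast h2
      linarith
    have hb' : (0:ℝ) < b := by exact_mod_cast hb
    have hlowR : (((range T).filter low).card : ℝ) * b =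
        (C : ℝ) * a * N * (((range (G.length ^ (ℓ + 1))).filter fun v => Good G ℓ f g v).card : ℝ) := by
      rw [hcount]
      push_cast
      rw [Finset.sum_mul]
      have : ∀ v ∈ range (G.length ^ (ℓ + 1)), (C : ℝ) * (((range N).filter (F v)).card : ℝ) * b =
          if Good G ℓ f g v then (C : ℝ) * a * N else 0 := by
        intro v _
        rw [mul_assoc, hFv v]
        split_ifs <;> ring
      rw [Finset.sum_congr rfl this, ← Finset.sum_filter, Finset.sum_const, nsmul_eq_mul]
      ring
    have hTR : (T : ℝ) = (G.length : ℝ) ^ (ℓ + 1) * C * N := by rw [hTe]; push_cast; ring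
    have hge : (T : ℝ) * ((a : ℝ) / b * (1 - 2 * ℓ * ζ)) ≤ (((range T).filter low).card : ℝ) := by
      have h1 : (T : ℝ) * ((a : ℝ) / b * (1 - 2 * ℓ * ζ)) * b ≤ (((range T).filter low).card : ℝ) * b := by
        rw [hlowR, hTR]
        have h2 : (G.length : ℝ) ^ (ℓ + 1) * C * N * ((a : ℝ) / b * (1 - 2 * ℓ * ζ)) * b
            = (C : ℝ) * a * N * ((1 - 2 * ℓ * ζ) * (G.length : ℝ) ^ (ℓ + 1)) := by
          field_simp
        rw [h2]
        exact mul_le_mul_of_nonneg_left hgood (by positivity)
      exact le_of_mul_le_mul_right h1 hb'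
    rw [hlen]
    push_cast
    linarith

end OST
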