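import Pool.Agent.SMT.Russo
import Pool.Agent.OST.BlockDom

/-!
# MODULE CoreCross: cores with disjoint lists give disjoint sets (asymmetric version)

Adapt `Pool/Agent/SMT/CoreCross.lean` (with `d = 1`). Biases: `f` at `q ≤ P`, `g` at `q' ≤ 1 - P`, and
`0 < lam ≤ q, q', 1 - q, 1 - q'` (here from `lam ≤ P`, `lam ≤ 1 - P`, `lam ≤ q`, `lam ≤ q'`).
`cc_side`: use `ex_set` with this `lam` (instead of `p`): `lam ≤ q`, and `q ≤ P ≤ 1 - lam`; the same for
`g` (`q' ≤ 1 - P ≤ 1 - lam`). `cc_block`: `block_dom1` with the outer bias `P` for `f` and `1 - P` for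
`g`. `cc_flip`: `ex (1 - P) F = ex P (fun u => F (fun k => !u k))` (`wt (1-P) (not u) = wt P u`).
Then `ex P F ≥ 5/8`, `ex P G ≥ 5/8` with `G u = g (... not u ...)`, and the same union bound.
-/

namespace OST

open Finset SMT SMT.Cube

variable {ι κ : Type} [Fintype ι] [DecidableEq ι] [Fintype κ] [DecidableEq κ]

/-- set `B` to `false` and `J` to `true` -/
private def cc_set (B J : Finset ι) (x : ι → Bool) : ι → Bool :=
  glue B (fun _ => false) (glue J (fun _ => true) x)

omit [Fintype ι] in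
private theorem cc_set_mono (B J : Finset ι) : Monotone (cc_set B J) := by
  intro x y h i
  unfold cc_set glue
  by_cases hB : i ∈ B
  · simp [hB]
  · by_cases hJ : i ∈ J
    · simp [hB, hJ]
    · simpa [hB, hJ] using h i

omit [Fintype ι] in
private theorem cc_set_glue (K J : Finset ι) (x : ι → Bool) :
    cc_set K J x = glue (K ∪ J) (fun i => if i ∈ K then false else true) x := by
  funext i
  unfold cc_set glue
  by_cases hK : i ∈ K
  · simp [hK]
  · by_cases hJ : i ∈ J
    · simp [hK, hJ]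
    · simp [hK, hJ]

omit [Fintype ι] in
private theorem cc_set_insert (K J : Finset ι) (i : ι) (x : ι → Bool) :
    cc_set (insert i K) J x = Function.update (cc_set K J x) i false := by
  funext k
  unfold cc_set glue
  by_cases hk : k = i
  · subst hk; simp
  · simp [hk]

omit [Fintype ι] in
private theorem cc_le_upd (x : ι → Bool) (i : ι) : x ≤ Function.update x i true := by
  intro k
  by_cases hk : k = i
  · subst hk; simp [Bool.le_true]
  · simp [hk]

private theorem cc_side {lam P δ : ℝ} {j0 : ℕ} (hlam : 0 < lam) (hlP' : lam ≤ 1 - P)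
    (hδ : δ * j0 * (lam⁻¹) ^ (2 * j0) ≤ 1 / 8) (hδ0 : 0 ≤ δ) {f : (ι → Bool) → ℝ}
    (hf : Monotone f) {q : ℝ} (hq : lam ≤ q ∧ q ≤ P) {J L : Finset ι}
    (hc : Core q δ f J L) (hJ : J.card ≤ j0) (B : Finset ι) (hB : B.card ≤ j0)
    (hBL : ∀ i ∈ B, i ∉ L) : 5 / 8 ≤ ex q (fun x => f (cc_set B J x)) := by
  obtain ⟨_, h34, hinf⟩ := hc
  have hq0 : 0 ≤ q := hlam.le.trans hq.1
  have hq1 : q ≤ 1 := by linarith [hq.2]
  have hpi : 1 ≤ lam⁻¹ := by
    rw [one_le_inv₀ hlam]; linarith [hq.1]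
  have key : ∀ K : Finset ι, K ⊆ B →
      3 / 4 - K.card * ((lam⁻¹) ^ (2 * j0) * δ) ≤ ex q (fun x => f (cc_set K J x)) := by
    intro K
    induction K using Finset.induction_on with
    | empty =>
      intro _
      have : (fun x => f (cc_set ∅ J x)) = fun y => f (glue J (fun _ => true) y) := by
        funext x
        have hx : cc_set ∅ J x = glue J (fun _ => true) x := by
          funext i
          simp [cc_set, glue]
        rw [hx]
      rw [this]
      simpa using h34
    | insert i K hiK ih =>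
      intro hK
      have hiB : i ∈ B := hK (mem_insert_self i K)
      have hKB : K ⊆ B := fun x hx => hK (mem_insert_of_mem hx)
      have h1 := ih hKB
      have h2 : ex q (fun x => f (cc_set K J x)) - ex q (fun x => f (cc_set (insert i K) J x)) ≤
          ex q (fun x => dd i f (cc_set K J x)) := by
        rw [← ex_sub]
        refine ex_mono hq0 hq1 fun x => ?_
        rw [cc_set_insert]
        unfold dd
        have := hf (cc_le_upd (cc_set K J x) i)
        linarith
      have h3 : ex q (fun x => dd i f (cc_set K J x)) ≤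
          (lam⁻¹) ^ (K ∪ J).card * ex q (dd i f) := by
        simp only [cc_set_glue]
        exact ex_set hlam hq.1 (by linarith [hq.2]) (fun x => dd_nonneg hf i x) (K ∪ J) _
      have h4 : (lam⁻¹) ^ (K ∪ J).card * ex q (dd i f) ≤ (lam⁻¹) ^ (2 * j0) * δ := by
        have hcard : (K ∪ J).card ≤ 2 * j0 := by
          calc (K ∪ J).card ≤ K.card + J.card := card_union_le _ _
            _ ≤ j0 + j0 := add_le_add ((card_le_card hKB).trans hB) hJ
            _ = 2 * j0 := by ring
        have h5 : (lam⁻¹) ^ (K ∪ J).card ≤ (lam⁻¹) ^ (2 * j0) := pow_le_pow_right₀ hpi hcard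
        have h6 : 0 ≤ ex q (dd i f) := ex_nonneg hq0 hq1 fun x => dd_nonneg hf i x
        exact mul_le_mul h5 (hinf i (hBL i hiB)) h6 (by positivity)
      rw [card_insert_of_notMem hiK]
      push_cast
      linarith
  have h := key B (Subset.refl B)
  have h7 : (B.card : ℝ) * ((lam⁻¹) ^ (2 * j0) * δ) ≤ 1 / 8 := by
    have h8 : (B.card : ℝ) ≤ j0 := by exact_mod_cast hB
    calc (B.card : ℝ) * ((lam⁻¹) ^ (2 * j0) * δ)
        ≤ j0 * ((lam⁻¹) ^ (2 * j0) * δ) := by
          have : 0 ≤ (lam⁻¹) ^ (2 * j0) * δ := by positivity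
          exact mul_le_mul_of_nonneg_right h8 this
      _ = δ * j0 * (lam⁻¹) ^ (2 * j0) := by ring
      _ ≤ 1 / 8 := hδ
  linarith

private theorem cc_block {lam P δ : ℝ} {j0 : ℕ} (hlam : 0 < lam) (hlP' : lam ≤ 1 - P)
    (hδ : δ * j0 * (lam⁻¹) ^ (2 * j0) ≤ 1 / 8) (hδ0 : 0 ≤ δ) {f : (ι → Bool) → ℝ}
    (hf : Monotone f) {q : ℝ} (hq : lam ≤ q ∧ q ≤ P) {J L : Finset ι}
    (hc : Core q δ f J L) (hJ : J.card ≤ j0) (B : Finset ι) (hB : B.card ≤ j0)
    (hBL : ∀ i ∈ B, i ∉ L) (π : ι → κ) (hπ : ∀ j, (univ.filter fun i => π i = j).card ≤ 1) :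
    5 / 8 ≤ ex P (fun u : κ → Bool => f (cc_set B J (fun i => u (π i)))) := by
  refine (cc_side hlam hlP' hδ hδ0 hf hq hc hJ B hB hBL).trans ?_
  exact block_dom1 (q := q) (hlam.le.trans hq.1) hq.2 (by linarith) π hπ
    (f := fun x => f (cc_set B J x)) (hf.comp (cc_set_mono B J))

omit [DecidableEq κ] in
private theorem cc_wt_flip (P : ℝ) (x : κ → Bool) : wt (1 - P) (fun k => !x k) = wt P x := by
  unfold wt
  refine Finset.prod_congr rfl fun i _ => ?_
  cases hx : x i <;> simp [hx]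

private theorem cc_flip (P : ℝ) (F : (κ → Bool) → ℝ) :
    ex P (fun u : κ → Bool => F (fun k => !u k)) = ex (1 - P) F := by
  unfold ex
  have hinv : Function.Involutive (fun (u : κ → Bool) (k : κ) => !u k) := fun u => by
    funext k; simp
  refine Fintype.sum_equiv hinv.toPerm _ _ fun u => ?_
  show wt P u * F (fun k => !u k) = wt (1 - P) (fun k => !u k) * F (fun k => !u k)
  rw [cc_wt_flip]

theorem cross_core1 {P lam δ : ℝ} {j0 : ℕ} (hlam : 0 < lam) (hlP : lam ≤ P) (hlP' : lam ≤ 1 - P)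
    (hδ : δ * j0 * (lam⁻¹) ^ (2 * j0) ≤ 1 / 8) (hδ0 : 0 ≤ δ) {f g : (ι → Bool) → ℝ}
    (hf : Monotone f) (hg : Monotone g)
    (hf01 : ∀ x, f x = 0 ∨ f x = 1) (hg01 : ∀ x, g x = 0 ∨ g x = 1) {q q' : ℝ}
    (hq : lam ≤ q ∧ q ≤ P) (hq' : lam ≤ q' ∧ q' ≤ 1 - P) {J L J' L' : Finset ι}
    (hc : Core q δ f J L) (hc' : Core q' δ g J' L') (hJ : J.card ≤ j0) (hJ' : J'.card ≤ j0)
    (π τ : ι → κ) (hπ : ∀ j, (univ.filter fun i => π i = j).card ≤ 1)
    (hτ : ∀ j, (univ.filter fun i => τ i = j).card ≤ 1)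
    (hLL : ∀ i ∈ L, ∀ i' ∈ L', π i ≠ τ i') :
    ∃ x y : ι → Bool, f x = 1 ∧ g y = 1 ∧ ∀ i i', π i = τ i' → ¬ (x i = true ∧ y i' = true) := by
  classical
  have hP1 : P ≤ 1 := by linarith
  have hP0 : 0 ≤ P := by linarith
  have hlP2 : lam ≤ 1 - (1 - P) := by linarith
  -- the sets that are switched off
  have hcard : ∀ (K : Finset ι) (π τ : ι → κ), K.card ≤ j0 →
      (∀ j, (univ.filter fun i => π i = j).card ≤ 1) →
      (univ.filter fun i => ∃ i' ∈ K, π i = τ i').card ≤ j0 := by
    intro K π τ hK hπ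
    have hsub : (univ.filter fun i => ∃ i' ∈ K, π i = τ i') ⊆
        K.biUnion fun i' => univ.filter fun i => π i = τ i' := by
      intro i hi
      simp only [mem_filter, mem_univ, true_and] at hi
      obtain ⟨i', hi', he⟩ := hi
      simp only [mem_biUnion, mem_filter, mem_univ, true_and]
      exact ⟨i', hi', he⟩
    calc _ ≤ (K.biUnion fun i' => univ.filter fun i => π i = τ i').card := card_le_card hsub
      _ ≤ ∑ i' ∈ K, (univ.filter fun i => π i = τ i').card := card_biUnion_le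
      _ ≤ ∑ _i' ∈ K, 1 := sum_le_sum fun i' _ => hπ _
      _ = K.card := by simp
      _ ≤ j0 := hK
  set B : Finset ι := univ.filter fun i => ∃ i' ∈ J', π i = τ i' with hBdef
  set B' : Finset ι := univ.filter fun i' => ∃ i ∈ J, τ i' = π i with hB'def
  have hB : B.card ≤ j0 := hcard J' π τ hJ' hπ
  have hB' : B'.card ≤ j0 := hcard J τ π hJ hτ
  have hBL : ∀ i ∈ B, i ∉ L := by
    intro i hi hiL
    simp only [hBdef, mem_filter, mem_univ, true_and] at hi
    obtain ⟨i', hi', he⟩ := hi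
    exact hLL i hiL i' (hc'.1 hi') he
  have hBL' : ∀ i ∈ B', i ∉ L' := by
    intro i' hi hiL
    simp only [hB'def, mem_filter, mem_univ, true_and] at hi
    obtain ⟨i, hi', he⟩ := hi
    exact hLL i (hc.1 hi') i' hiL he.symm
  have h1 := cc_block hlam hlP' hδ hδ0 hf hq hc hJ B hB hBL π hπ
  have h2 := cc_block hlam hlP2 hδ hδ0 hg hq' hc' hJ' B' hB' hBL' τ hτ
  rw [← cc_flip] at h2
  set F : (κ → Bool) → ℝ := fun u => f (cc_set B J (fun i => u (π i))) with hF
  set G : (κ → Bool) → ℝ := fun u => g (cc_set B' J' (fun i => !u (τ i))) with hG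
  have h2' : 5 / 8 ≤ ex P G := h2
  have hex : ∃ u, 1 < F u + G u := by
    by_contra hcon
    push Not at hcon
    have h3 : ex P (fun u => F u + G u) ≤ ex P (fun _ : κ → Bool => (1 : ℝ)) :=
      ex_mono hP0 hP1 hcon
    rw [ex_add, ex_const] at h3
    linarith
  obtain ⟨u, hu⟩ := hex
  have hFu : F u = 1 := by
    rcases hf01 (cc_set B J (fun i => u (π i))) with h | h
    · have h' : F u = 0 := h
      rcases hg01 (cc_set B' J' (fun i => !u (τ i))) with h4 | h4
      · have : G u = 0 := h4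
        linarith
      · have : G u = 1 := h4
        linarith
    · exact h
  have hGu : G u = 1 := by
    rcases hg01 (cc_set B' J' (fun i => !u (τ i))) with h4 | h4
    · have : G u = 0 := h4
      linarith
    · exact h4
  refine ⟨_, _, hFu, hGu, fun i i' hii hxy => ?_⟩
  obtain ⟨hx, hy⟩ := hxy
  have hiB : i ∉ B := fun h => by
    simp [cc_set, glue, h] at hx
  have hiB' : i' ∉ B' := fun h => by
    simp [cc_set, glue, h] at hy
  have hi'J : i' ∉ J' := fun h => hiB (by
    simp only [hBdef, mem_filter, mem_univ, true_and]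
    exact ⟨i', h, hii⟩)
  have hiJ : i ∉ J := fun h => hiB' (by
    simp only [hB'def, mem_filter, mem_univ, true_and]
    exact ⟨i, h, hii.symm⟩)
  simp only [cc_set, glue, hiB, hiJ, if_false] at hx
  simp only [cc_set, glue, hiB', hi'J, if_false] at hy
  rw [hii] at hx
  rw [hx] at hy
  simp at hy

end OST
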