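import Pool.Agent.SMT.Junta
import Pool.Agent.SMT.CondVar

/-!
# MODULE CoreEx: `SMT.Cube.exists_core` with `p' < 1` instead of `p' < 1/2`

Given `0 < p < p' < 1`, `η > 0`: let `I = 1/(p'-p)`; by `exists_small` there is `q ∈ [p,p']` with
`∑ E[dd i f] ≤ I`, and `ex q f ≥ ex p f ≥ η` (`ex_mono_q`). Choose `ρ` with
`ρ² = p(1-p')/4 ≤ q(1-q)/4`, then `d` with `I/d < η/8`, then `τ` with `√τ/ρ^(2d) * I < η/8`, and
`j0 ≥ I/τ`. `J = {i : E[dd i f] > τ}` has at most `I/τ` elements; `junta` and `exists_boost` give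
the first half of `Core`. For `δ > 0` (w.l.o.g. `δ ≤ τ`: use `min δ τ`) put
`L = {i : E[dd i f] > min δ τ} ⊇ J`, `|L| ≤ I / min δ τ ≤ t`. All constants are independent of `ι`
and `f`.
-/

namespace OST

open Finset SMT SMT.Cube

private theorem CoreEx_card {ι : Type} [Fintype ι] [DecidableEq ι] (g : ι → ℝ)
    (hg : ∀ i, 0 ≤ g i) {I τ : ℝ} (hτ : 0 < τ) (hI : ∑ i, g i ≤ I) :
    ((univ.filter (fun i => τ < g i)).card : ℝ) ≤ I / τ := by
  rw [le_div_iff₀ hτ]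
  have h1 : ((univ.filter (fun i => τ < g i)).card : ℝ) * τ ≤
      ∑ i ∈ univ.filter (fun i => τ < g i), g i := by
    have h2 : ∑ i ∈ univ.filter (fun i => τ < g i), τ ≤
        ∑ i ∈ univ.filter (fun i => τ < g i), g i := by
      refine Finset.sum_le_sum fun i hi => ?_
      exact (Finset.mem_filter.1 hi).2.le
    rw [Finset.sum_const, nsmul_eq_mul] at h2
    exact h2
  have h3 : ∑ i ∈ univ.filter (fun i => τ < g i), g i ≤ ∑ i, g i :=
    Finset.sum_le_univ_sum_of_nonneg hg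
  linarith

theorem exists_core1 (p p' η : ℝ) (hp : 0 < p) (hpp : p < p') (hp' : p' < 1) (hη : 0 < η) :
    ∃ j0 : ℕ, ∀ δ : ℝ, 0 < δ → ∃ t : ℕ, ∀ (ι : Type) [Fintype ι] [DecidableEq ι]
      (f : (ι → Bool) → ℝ), Monotone f → (∀ x, f x = 0 ∨ f x = 1) → η ≤ ex p f →
      ∃ q, p ≤ q ∧ q ≤ p' ∧ ∃ J L : Finset ι, Core q δ f J L ∧ J.card ≤ j0 ∧ L.card ≤ t := by
  obtain ⟨I, hI⟩ : ∃ I : ℝ, I = 1 / (p' - p) := ⟨_, rfl⟩
  have hI0 : 0 < I := by
    rw [hI]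
    exact one_div_pos.2 (by linarith)
  have hpq : 0 < p * (1 - p') / 4 := by
    have : 0 < 1 - p' := by linarith
    positivity
  obtain ⟨ρ, hρ⟩ : ∃ ρ : ℝ, ρ = √(p * (1 - p') / 4) := ⟨_, rfl⟩
  have hρ0 : 0 < ρ := by rw [hρ]; exact Real.sqrt_pos.2 hpq
  have hρ2 : ρ ^ 2 = p * (1 - p') / 4 := by rw [hρ]; exact Real.sq_sqrt hpq.le
  obtain ⟨d, hd⟩ := exists_nat_gt (8 * I / η)
  have hdpos : (0 : ℝ) < d := lt_trans (by positivity) hd
  have hd1 : 1 ≤ d := by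
    have : 0 < d := by exact_mod_cast hdpos
    exact this
  have hId : I / d < η / 8 := by
    rw [div_lt_iff₀ hdpos]
    rw [div_lt_iff₀ hη] at hd
    linarith
  obtain ⟨s, hs⟩ : ∃ s : ℝ, s = η * ρ ^ (2 * d) / (16 * I) := ⟨_, rfl⟩
  have hs0 : 0 < s := by rw [hs]; positivity
  obtain ⟨τ, hτ⟩ : ∃ τ : ℝ, τ = s ^ 2 := ⟨_, rfl⟩
  have hτ0 : 0 < τ := by rw [hτ]; positivity
  have hsq : √τ = s := by rw [hτ]; exact Real.sqrt_sq hs0.le
  have hτI : √τ / ρ ^ (2 * d) * I < η / 8 := by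
    rw [hsq, hs]
    have hne : ρ ^ (2 * d) ≠ 0 := by positivity
    have : η * ρ ^ (2 * d) / (16 * I) / ρ ^ (2 * d) * I = η / 16 := by
      field_simp
    rw [this]
    linarith
  obtain ⟨j0, hj0⟩ := exists_nat_ge (I / τ)
  refine ⟨j0, fun δ hδ => ?_⟩
  have hδ' : 0 < min δ τ := lt_min hδ hτ0
  obtain ⟨t, ht⟩ := exists_nat_ge (I / min δ τ)
  refine ⟨t, ?_⟩
  intro ι _ _ f hf hf01 hη'
  have hf0 : ∀ x, 0 ≤ f x := by
    intro x
    rcases hf01 x with h | h <;> rw [h] <;> norm_num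
  have hf1 : ∀ x, f x ≤ 1 := by
    intro x
    rcases hf01 x with h | h <;> rw [h] <;> norm_num
  obtain ⟨q, hq1, hq2, hqI⟩ := exists_small hf hf0 hf1 hp.le hpp (by linarith : p' ≤ 1)
  rw [← hI] at hqI
  have hq0 : 0 < q := lt_of_lt_of_le hp hq1
  have hq1' : q < 1 := by linarith
  have hηq : η ≤ ex q f := hη'.trans (ex_mono_q hf hp.le hq1 hq1'.le)
  have hdd0 : ∀ i, 0 ≤ ex q (dd i f) := fun i => ex_nonneg hq0.le hq1'.le (dd_nonneg hf i)
  have hρq : ρ ^ 2 ≤ q * (1 - q) / 4 := by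
    rw [hρ2]
    have : p * (1 - p') ≤ q * (1 - q) :=
      mul_le_mul hq1 (by linarith) (by linarith) hq0.le
    linarith
  refine ⟨q, hq1, hq2, univ.filter (fun i => τ < ex q (dd i f)),
    univ.filter (fun i => min δ τ < ex q (dd i f)), ⟨?_, ?_, ?_⟩, ?_, ?_⟩
  · intro i hi
    rw [Finset.mem_filter] at hi ⊢
    exact ⟨hi.1, lt_of_le_of_lt (min_le_right _ _) hi.2⟩
  · refine exists_boost (η := η) hq0 hq1' hf hf01 _ hηq ?_
    have hj := junta (τ := τ) hq0 hq1' hρ0 hρq hf hf01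
      (univ.filter (fun i => τ < ex q (dd i f))) (by
        intro i hi
        rw [Finset.mem_filter] at hi
        push Not at hi
        exact hi (Finset.mem_univ i)) d hd1
    have hnn : 0 ≤ 1 / (d : ℝ) + √τ / ρ ^ (2 * d) := by positivity
    have h2 : (1 / (d : ℝ) + √τ / ρ ^ (2 * d)) * ∑ i, ex q (dd i f) ≤
        (1 / (d : ℝ) + √τ / ρ ^ (2 * d)) * I := mul_le_mul_of_nonneg_left hqI hnn
    have h3 : (1 / (d : ℝ) + √τ / ρ ^ (2 * d)) * I = I / d + √τ / ρ ^ (2 * d) * I := by ring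
    linarith
  · intro i hi
    rw [Finset.mem_filter] at hi
    push Not at hi
    exact (hi (Finset.mem_univ i)).trans (min_le_left _ _)
  · have h := (CoreEx_card (fun i => ex q (dd i f)) hdd0 hτ0 hqI).trans hj0
    exact_mod_cast h
  · have h := (CoreEx_card (fun i => ex q (dd i f)) hdd0 hδ' hqI).trans ht
    exact_mod_cast h

end OST
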