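import Pool.Agent.SMT.CubeBasic
import Pool.Agent.SMT.Red

/-!
# MODULE WordCube: the up-closure of the marked sets of a family of words

`mk c = true` means that the letter `c < b` is marked; there are `m` marked letters. `upf mk F x = 1`
if some `z ∈ F` has all its marked places in `{i : x i}`, else `0`. Adapt the private lemmas
`CoreLemma_f01`, `_mono`, `_card1`, `_wt`, `_ex` of `Pool/Agent/SMT/CoreLemma.lean`
(`(z i : ℕ) < a` becomes `mk (z i) = true`, `a` becomes `m`).
-/

namespace OST

open Finset SMT SMT.Cube

/-- the indicator of the up-closure of the marked sets of the words in `F` -/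
noncomputable def upf {b R : ℕ} (mk : Fin b → Bool) (F : Finset (Fin R → Fin b))
    (x : Fin R → Bool) : ℝ :=
  open Classical in
  if ∃ z ∈ F, ∀ i, mk (z i) = true → x i = true then 1 else 0

theorem upf_01 {b R : ℕ} (mk : Fin b → Bool) (F : Finset (Fin R → Fin b)) (x : Fin R → Bool) :
    upf mk F x = 0 ∨ upf mk F x = 1 := by
  unfold upf
  split_ifs
  · right; rfl
  · left; rfl

theorem upf_mono {b R : ℕ} (mk : Fin b → Bool) (F : Finset (Fin R → Fin b)) :
    Monotone (upf mk F) := by
  intro x y hxy
  unfold upf
  split_ifs with h1 h2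
  · exact le_rfl
  · exfalso
    apply h2
    obtain ⟨z, hz, hz2⟩ := h1
    refine ⟨z, hz, fun i hi => ?_⟩
    have h3 := hz2 i hi
    have h4 := hxy i
    rw [h3] at h4
    exact top_unique h4
  · exact zero_le_one
  · exact le_rfl

theorem upf_spec {b R : ℕ} {mk : Fin b → Bool} {F : Finset (Fin R → Fin b)} {x : Fin R → Bool}
    (h : upf mk F x = 1) : ∃ z ∈ F, ∀ i, mk (z i) = true → x i = true := by
  unfold upf at h
  split_ifs at h with h1
  · exact h1
  · exact absurd h zero_ne_one

/-- the marked set of a word -/
private def WordCube_low {b R : ℕ} (mk : Fin b → Bool) (z : Fin R → Fin b) : Fin R → Bool :=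
  fun i => mk (z i)

private theorem WordCube_card1 {b m : ℕ} (mk : Fin b → Bool)
    (hm : (univ.filter fun c : Fin b => mk c = true).card = m) (t : Bool) :
    ((univ.filter fun c : Fin b => mk c = t).card : ℝ) =
      if t = true then (m : ℝ) else (b : ℝ) - m := by
  have hmb : m ≤ b := by
    rw [← hm]
    exact (Finset.card_le_univ _).trans (by simp)
  cases t with
  | true => simp [hm]
  | false =>
    have h2 : (univ.filter fun c : Fin b => mk c = false) =
        univ \ (univ.filter fun c : Fin b => mk c = true) := by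
      ext c; simp
    rw [h2, Finset.card_sdiff_of_subset (Finset.subset_univ _), hm]
    simp [Nat.cast_sub hmb]

private theorem WordCube_wt {b R m : ℕ} (mk : Fin b → Bool) (hb0 : 0 < b)
    (hm : (univ.filter fun c : Fin b => mk c = true).card = m) (x : Fin R → Bool) :
    wt ((m : ℝ) / b) x * (b : ℝ) ^ R =
      ((univ.filter fun z : Fin R → Fin b => WordCube_low mk z = x).card : ℝ) := by
  have hb : (b : ℝ) ≠ 0 := by
    positivity
  have h1 : (univ.filter fun z : Fin R → Fin b => WordCube_low mk z = x) =
      Fintype.piFinset fun i => univ.filter fun c : Fin b => mk c = x i := by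
    ext z
    simp only [mem_filter, mem_univ, true_and, Fintype.mem_piFinset]
    constructor
    · intro h i
      rw [← h]
      rfl
    · intro h
      funext i
      exact h i
  rw [h1, Fintype.card_piFinset]
  push_cast
  unfold wt
  have h2 : (b : ℝ) ^ R = ∏ _i : Fin R, (b : ℝ) := by simp
  rw [h2, ← Finset.prod_mul_distrib]
  apply Finset.prod_congr rfl
  intro i _
  rw [WordCube_card1 mk hm (x i)]
  split_ifs
  · field_simp
  · field_simp

theorem upf_ex {b R m : ℕ} (mk : Fin b → Bool) (hb : 0 < b)
    (hm : (univ.filter fun c : Fin b => mk c = true).card = m) (F : Finset (Fin R → Fin b)) :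
    (F.card : ℝ) ≤ ex ((m : ℝ) / b) (upf mk F) * (b : ℝ) ^ R := by
  unfold ex
  rw [Finset.sum_mul]
  have h1 : ∀ x : Fin R → Bool, wt ((m : ℝ) / b) x * upf mk F x * (b : ℝ) ^ R =
      ∑ z ∈ univ.filter (fun z : Fin R → Fin b => WordCube_low mk z = x),
        upf mk F (WordCube_low mk z) := by
    intro x
    have h2 : ∑ z ∈ univ.filter (fun z : Fin R → Fin b => WordCube_low mk z = x),
        upf mk F (WordCube_low mk z) =
        ∑ z ∈ univ.filter (fun z : Fin R → Fin b => WordCube_low mk z = x),
        upf mk F x := by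
      apply Finset.sum_congr rfl
      intro z hz
      rw [(Finset.mem_filter.mp hz).2]
    rw [h2, Finset.sum_const, nsmul_eq_mul, ← WordCube_wt mk hb hm x]
    ring
  rw [Finset.sum_congr rfl fun x _ => h1 x]
  rw [Finset.sum_fiberwise (s := (univ : Finset (Fin R → Fin b))) (g := WordCube_low mk)
    (f := fun z => upf mk F (WordCube_low mk z))]
  have h3 : (F.card : ℝ) = ∑ z ∈ F, (1 : ℝ) := by simp
  rw [h3]
  calc ∑ z ∈ F, (1 : ℝ) ≤ ∑ z ∈ F, upf mk F (WordCube_low mk z) := by
        apply Finset.sum_le_sum
        intro z hz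
        unfold upf
        rw [if_pos]
        exact ⟨z, hz, fun i hi => hi⟩
    _ ≤ ∑ z, upf mk F (WordCube_low mk z) := by
        apply Finset.sum_le_univ_sum_of_nonneg
        intro z
        rcases upf_01 mk F (WordCube_low mk z) with h | h <;> rw [h]
        exact zero_le_one

end OST
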