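import Pool.Agent.OST.CoreEx
import Pool.Agent.OST.CoreCross
import Pool.Agent.OST.WordCube
import Pool.Agent.OST.Red

/-!
# MODULE CoreLemma: short lists for the families of words (asymmetric version)

Adapt `Pool/Agent/SMT/CoreLemma.lean`, theorem `core_lemma`. The men's words have the marked letters
`≥ s` (`b - s` of them, bias `p1 = (b-s)/b`), the women's words the marked letters `< t` (`t` of them,
bias `p2 = t/b`). As `t < s`: `p1 + p2 < 1`. Put `P = (p1 + (1 - p2))/2`, so `p1 < P < 1 - p2`, i.e.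
`p2 < 1 - P`. `j1` from `exists_core1 p1 P η`, `j2` from `exists_core1 p2 (1-P) η`, `j0 = max j1 j2`,
`lam = min (min p1 p2) (min P (1-P))`, `δ = 1 / (8 (j0+1) lam⁻¹^(2 j0))`; `T0 = max` of the two `t`'s.
`L1 F` := the list of a core of `upf` for the men's marking if `|F|` is large, else `∅`; `L2 G` the same
for the women's marking. Then `cross_core1`, `upf_spec`.
-/

namespace OST

open Finset SMT

private theorem CoreLemma_side (p P η δ : ℝ) (b R m T j : ℕ) (mk : Fin b → Bool) (hb : 0 < b)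
    (hm : (univ.filter fun c : Fin b => mk c = true).card = m) (hp : (m : ℝ) / b = p)
    (ht : ∀ (ι : Type) [Fintype ι] [DecidableEq ι]
      (f : (ι → Bool) → ℝ), Monotone f → (∀ x, f x = 0 ∨ f x = 1) → η ≤ Cube.ex p f →
      ∃ q, p ≤ q ∧ q ≤ P ∧ ∃ J L : Finset ι, Cube.Core q δ f J L ∧ J.card ≤ j ∧ L.card ≤ T) :
    ∃ L : Finset (Fin R → Fin b) → Finset (Fin R), (∀ F, (L F).card ≤ T) ∧
      ∀ F : Finset (Fin R → Fin b), η * (b : ℝ) ^ R ≤ F.card → ∃ q, p ≤ q ∧ q ≤ P ∧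
        ∃ J : Finset (Fin R), Cube.Core q δ (upf mk F) J (L F) ∧ J.card ≤ j := by
  have H : ∀ F : Finset (Fin R → Fin b), ∃ L : Finset (Fin R), L.card ≤ T ∧
      (η ≤ Cube.ex p (upf mk F) → ∃ q, p ≤ q ∧ q ≤ P ∧ ∃ J : Finset (Fin R),
        Cube.Core q δ (upf mk F) J L ∧ J.card ≤ j) := by
    intro F
    by_cases hF : η ≤ Cube.ex p (upf mk F)
    · obtain ⟨q, hq1, hq2, J, L, hc, hJ, hL⟩ := ht (Fin R) (upf mk F)
        (upf_mono mk F) (upf_01 mk F) hF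
      exact ⟨L, hL, fun _ => ⟨q, hq1, hq2, J, hc, hJ⟩⟩
    · exact ⟨∅, by simp, fun h => absurd h hF⟩
  choose L hLt hL using H
  refine ⟨L, hLt, fun F hF => hL F ?_⟩
  have hb0 : (0 : ℝ) < b := by exact_mod_cast hb
  have hbR : (0 : ℝ) < (b : ℝ) ^ R := by positivity
  have h1 := upf_ex mk hb hm F
  rw [hp] at h1
  exact le_of_mul_le_mul_right (hF.trans h1) hbR

theorem core_lemma1 (s t b : ℕ) (ht : 1 ≤ t) (hts : t < s) (hs : s < b) (η : ℝ) (hη : 0 < η) :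
    ∃ T0 : ℕ, ∀ R : ℕ, ∃ L1 L2 : Finset (Fin R → Fin b) → Finset (Fin R),
      (∀ F, (L1 F).card ≤ T0) ∧ (∀ F, (L2 F).card ≤ T0) ∧
      ∀ F G : Finset (Fin R → Fin b), η * (b : ℝ) ^ R ≤ F.card → η * (b : ℝ) ^ R ≤ G.card →
        ∀ (R₂ : ℕ) (π τ : Fin R → Fin R₂), (∀ j, (univ.filter fun i => π i = j).card ≤ 1) →
        (∀ j, (univ.filter fun i => τ i = j).card ≤ 1) →
        (∀ i ∈ L1 F, ∀ i' ∈ L2 G, π i ≠ τ i') →
        ∃ z ∈ F, ∃ w ∈ G, Adj1 s t π τ (fun i => (z i : ℕ)) (fun i => (w i : ℕ)) := by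
  have hb : 0 < b := by omega
  have hb0 : (0 : ℝ) < b := by exact_mod_cast hb
  have ht0 : (0 : ℝ) < t := by exact_mod_cast ht
  have hbs : ((b - s : ℕ) : ℝ) = (b : ℝ) - s := by
    rw [Nat.cast_sub hs.le]
  have hbs0 : (0 : ℝ) < (b : ℝ) - s := by
    have : (s : ℝ) < b := by exact_mod_cast hs
    linarith
  have hts' : (t : ℝ) < s := by exact_mod_cast hts
  obtain ⟨p1, hp1⟩ : ∃ p1 : ℝ, ((b - s : ℕ) : ℝ) / b = p1 := ⟨_, rfl⟩
  obtain ⟨p2, hp2⟩ : ∃ p2 : ℝ, (t : ℝ) / b = p2 := ⟨_, rfl⟩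
  have hp10 : 0 < p1 := by
    rw [← hp1, hbs]
    exact div_pos hbs0 hb0
  have hp20 : 0 < p2 := by
    rw [← hp2]
    exact div_pos ht0 hb0
  have hp12 : p1 + p2 < 1 := by
    rw [← hp1, ← hp2, hbs, ← add_div, div_lt_one hb0]
    linarith
  obtain ⟨P, hP⟩ : ∃ P : ℝ, P = (p1 + (1 - p2)) / 2 := ⟨_, rfl⟩
  have hP1 : p1 < P := by linarith
  have hP2 : p2 < 1 - P := by linarith
  have hP3 : P < 1 := by linarith
  have hP0 : 0 < P := by linarith
  have hP4 : 0 < 1 - P := by linarith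
  obtain ⟨j1, hj1⟩ := exists_core1 p1 P η hp10 hP1 hP3 hη
  obtain ⟨j2, hj2⟩ := exists_core1 p2 (1 - P) η hp20 hP2 (by linarith) hη
  obtain ⟨lam, hlam⟩ : ∃ lam : ℝ, lam = min (min p1 p2) (min P (1 - P)) := ⟨_, rfl⟩
  have hlam0 : 0 < lam := by
    rw [hlam]
    exact lt_min (lt_min hp10 hp20) (lt_min hP0 hP4)
  have hl1 : lam ≤ p1 := by
    rw [hlam]
    exact (min_le_left _ _).trans (min_le_left _ _)
  have hl2 : lam ≤ p2 := by
    rw [hlam]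
    exact (min_le_left _ _).trans (min_le_right _ _)
  have hl3 : lam ≤ P := by
    rw [hlam]
    exact (min_le_right _ _).trans (min_le_left _ _)
  have hl4 : lam ≤ 1 - P := by
    rw [hlam]
    exact (min_le_right _ _).trans (min_le_right _ _)
  obtain ⟨j0, hj0⟩ : ∃ j0 : ℕ, j0 = max j1 j2 := ⟨_, rfl⟩
  obtain ⟨Q, hQ⟩ : ∃ Q : ℝ, Q = (lam⁻¹) ^ (2 * j0) := ⟨_, rfl⟩
  have hQ0 : 0 < Q := by
    rw [hQ]
    positivity
  obtain ⟨δ, hδ⟩ : ∃ δ : ℝ, δ = 1 / (8 * ((j0 : ℝ) + 1) * Q) := ⟨_, rfl⟩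
  have hj00 : (0 : ℝ) ≤ (j0 : ℝ) := Nat.cast_nonneg _
  have hδ0 : 0 < δ := by
    rw [hδ]
    positivity
  have hδ1 : δ * j0 * (lam⁻¹) ^ (2 * j0) ≤ 1 / 8 := by
    rw [← hQ, hδ]
    have h1 : 1 / (8 * ((j0 : ℝ) + 1) * Q) * j0 * Q =
        (j0 : ℝ) / (8 * ((j0 : ℝ) + 1)) := by
      field_simp
    rw [h1, div_le_div_iff₀ (by positivity) (by norm_num)]
    linarith
  obtain ⟨t1, ht1⟩ := hj1 δ hδ0
  obtain ⟨t2, ht2⟩ := hj2 δ hδ0
  refine ⟨max t1 t2, fun R => ?_⟩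
  have hm2 : (univ.filter fun c : Fin b => decide ((c : ℕ) < t) = true).card = t := by
    have h1 : (univ.filter fun c : Fin b => (c : ℕ) < t).card = t := by
      rw [Fin.card_filter_val_lt]
      exact min_eq_right (by omega)
    simpa using h1
  have hm1 : (univ.filter fun c : Fin b => decide (s ≤ (c : ℕ)) = true).card = b - s := by
    have h1 : (univ.filter fun c : Fin b => (c : ℕ) < s).card = s := by
      rw [Fin.card_filter_val_lt]
      exact min_eq_right hs.le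
    have h2 : (univ.filter fun c : Fin b => decide (s ≤ (c : ℕ)) = true) =
        univ \ (univ.filter fun c : Fin b => (c : ℕ) < s) := by
      ext c; simp
    rw [h2, Finset.card_sdiff_of_subset (Finset.subset_univ _), h1]
    simp
  obtain ⟨L1, hL1, hc1⟩ := CoreLemma_side p1 P η δ b R (b - s) t1 j1
    (fun c => decide (s ≤ (c : ℕ))) hb hm1 hp1 ht1
  obtain ⟨L2, hL2, hc2⟩ := CoreLemma_side p2 (1 - P) η δ b R t t2 j2
    (fun c => decide ((c : ℕ) < t)) hb hm2 hp2 ht2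
  refine ⟨L1, L2, fun F => (hL1 F).trans (le_max_left _ _),
    fun F => (hL2 F).trans (le_max_right _ _), ?_⟩
  intro F G hF hG R₂ π τ hπ hτ hLL
  obtain ⟨q, hq1, hq2, J, hc, hJ⟩ := hc1 F hF
  obtain ⟨q', hq1', hq2', J', hc', hJ'⟩ := hc2 G hG
  obtain ⟨x, y, hx, hy, hxy⟩ := cross_core1 hlam0 hl3 hl4 hδ1 hδ0.le
    (upf_mono _ F) (upf_mono _ G) (upf_01 _ F) (upf_01 _ G)
    ⟨hl1.trans hq1, hq2⟩ ⟨hl2.trans hq1', hq2'⟩ hc hc'
    (hJ.trans (by rw [hj0]; exact le_max_left _ _))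
    (hJ'.trans (by rw [hj0]; exact le_max_right _ _)) π τ hπ hτ hLL
  obtain ⟨z, hz, hz2⟩ := upf_spec hx
  obtain ⟨w, hw, hw2⟩ := upf_spec hy
  refine ⟨z, hz, w, hw, ?_⟩
  intro i i' hii
  rintro ⟨h1, h2⟩
  exact hxy i i' hii ⟨hz2 i (decide_eq_true h1), hw2 i' (decide_eq_true h2)⟩

end OST
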