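import Pool.Agent.OST.RedSem2
import Pool.Agent.OST.Rot

/-!
# MODULE Ties: the ties in the lists of the women have length at most `L`

Let `ω < T` be a main woman of class `t < L`, `T = nT1 G L b ℓ C`, and `S` a set of men with the rank `r`
in her list. If two different men of `S` have a coarse rank `≥ 1` or are private, they are equal
(the ranks `r.2 * T + μ` with `1 ≤ r.2 ≤ C`, `μ < T`, and `(C+1) * T` are all different). If one man
of `S` has the coarse rank `0`: then `r = 0`, all the men of `S` have the coarse rank `0` (a rank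
`r.2 * T + μ` with `r.2 ≥ 1` is `≥ T > 0`), i.e. `rk2 .. = some (0, 0)`, so they are in the node of `ω`
and `nadj` holds; the map `μ ↦ ag1J L b R₁ μ < L` (the class) is injective on `S`: same class `j` and
`word ω = rot .. ∘ word μ = rot .. ∘ word μ'` give equal words by `rot_inj` (`Lad.lt`), hence equal word
numbers (`word_inj`), and `μ / nN`, class and word number determine `μ`. So `S.card ≤ L`.
A private woman `ω ≥ T` has one entry; `1 ≤ L`.
-/

namespace OST

open SMT

variable {R₁ R₂ : ℕ} [NeZero R₂]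

private theorem Ties_zero {G : Game R₁ R₂} {L : ℕ} {al : List ℕ} {b ℓ C μ ω : ℕ} {x : ℕ × ℕ}
    (h : rk2 G L al b ℓ C μ ω = some x) (hx : x.2 = 0) :
    μ / nN L b R₁ = ω / nN L b R₁ ∧
      nadj al b R₁ (ag1J L b R₁ ω) (ag1J L b R₁ μ) (ag1W b R₁ μ) (ag1W b R₁ ω) = true := by
  unfold rk2 at h
  split_ifs at h with h1 h2
  · exact h1
  · exfalso
    have h3 := Option.some.inj h
    rw [← h3] at hx
    simp at hx

private theorem Ties_le {G : Game R₁ R₂} {L : ℕ} {al : List ℕ} {b ℓ C μ ω : ℕ} {x : ℕ × ℕ}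
    (hC : 0 < C) (h : rk2 G L al b ℓ C μ ω = some x) : x.2 ≤ C := by
  unfold rk2 at h
  split_ifs at h with h1 h2
  · have h3 := Option.some.inj h
    rw [← h3]
    exact Nat.zero_le _
  · have h3 := Option.some.inj h
    rw [← h3]
    show ag1C L b R₁ C μ + 1 ≤ C
    unfold ag1C
    exact Nat.mod_lt _ hC

private theorem Ties_cases {G : Game R₁ R₂} {L : ℕ} {al : List ℕ} {b ℓ C μ ω r : ℕ}
    (hω : ω < nT1 G L b ℓ C) (h : rankW (red2 G L al b ℓ C) ω μ = some r) :
    (μ < nT1 G L b ℓ C ∧ ∃ x, rk2 G L al b ℓ C μ ω = some x ∧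
      (if x.2 = 0 then 0 else x.2 * nT1 G L b ℓ C + μ) = r) ∨
    (μ = nT1 G L b ℓ C + ω ∧ (C + 1) * nT1 G L b ℓ C = r) := by
  rw [rankW_red2, if_pos hω] at h
  by_cases hμ : μ < nT1 G L b ℓ C
  · rw [if_pos hμ] at h
    left
    refine ⟨hμ, ?_⟩
    obtain ⟨x, hx, hxr⟩ := Option.map_eq_some_iff.1 h
    exact ⟨x, hx, hxr⟩
  · rw [if_neg hμ] at h
    right
    split_ifs at h with h1
    exact ⟨h1, Option.some.inj h⟩

theorem ties_red2 (G : Game R₁ R₂) (L : ℕ) (al : List ℕ) (b ℓ C : ℕ) (hl : Lad L al b) :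
    TiesLe L (red2 G L al b ℓ C) := by
  intro ω r S hS
  have hL := hl.two_le
  have hb := hl.pos
  have hnw : 0 < nw b R₁ := pow_pos hb R₁
  have hone : (∀ μ ∈ S, ∀ μ' ∈ S, μ = μ') → S.card ≤ L := by
    intro h
    have h1 : S.card ≤ 1 := Finset.card_le_one.2 h
    omega
  by_cases hω : ω < nT1 G L b ℓ C
  swap
  · apply hone
    intro μ hμ μ' hμ'
    have h1 := hS μ hμ
    have h2 := hS μ' hμ'
    rw [rankW_red2, if_neg hω] at h1 h2
    split_ifs at h1 h2 with h3 h4
    rw [h3.2, h4.2]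
  have hT : 0 < nT1 G L b ℓ C := by omega
  have hC : 0 < C := by
    rcases Nat.eq_zero_or_pos C with h | h
    · exfalso
      unfold nT1 at hT
      rw [h] at hT
      simp at hT
    · exact h
  rcases Nat.eq_zero_or_pos r with hr | hr
  · -- the tie at the head of the list
    have key : ∀ μ ∈ S, μ / nN L b R₁ = ω / nN L b R₁ ∧
        nadj al b R₁ (ag1J L b R₁ ω) (ag1J L b R₁ μ) (ag1W b R₁ μ) (ag1W b R₁ ω) = true := by
      intro μ hμ
      rcases Ties_cases hω (hS μ hμ) with ⟨hμT, x, hx, hxr⟩ | ⟨_, h2⟩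
      · have hx0 : x.2 = 0 := by
          by_contra hne
          rw [if_neg hne, hr] at hxr
          have h3 : 1 * nT1 G L b ℓ C ≤ x.2 * nT1 G L b ℓ C :=
            Nat.mul_le_mul_right _ (Nat.one_le_iff_ne_zero.2 hne)
          omega
        exact Ties_zero hx hx0
      · exfalso
        rw [hr] at h2
        have h3 : 1 * nT1 G L b ℓ C ≤ (C + 1) * nT1 G L b ℓ C :=
          Nat.mul_le_mul_right _ (by omega)
        omega
    have hnN : 0 < nN L b R₁ := by
      unfold nN
      exact Nat.mul_pos hnw (by omega)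
    have hJ : ∀ μ, ag1J L b R₁ μ < L := by
      intro μ
      unfold ag1J
      apply Nat.div_lt_of_lt_mul
      have := Nat.mod_lt μ hnN
      unfold nN at this
      exact this
    have hinj : ∀ μ ∈ S, ∀ μ' ∈ S, ag1J L b R₁ μ = ag1J L b R₁ μ' → μ = μ' := by
      intro μ hμ μ' hμ' hj
      obtain ⟨h1, h2⟩ := key μ hμ
      obtain ⟨h1', h2'⟩ := key μ' hμ'
      rw [← hj] at h2'
      unfold nadj at h2 h2'
      rw [decide_eq_true_iff] at h2 h2'
      have hw : ag1W b R₁ μ = ag1W b R₁ μ' := by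
        refine word_inj (Nat.mod_lt _ hnw) (Nat.mod_lt _ hnw) ?_
        intro i
        exact rot_inj (hl.lt (hJ ω).le) (word_lt hb i) (word_lt hb i)
          ((h2 i).symm.trans (h2' i))
      have hm : μ % nN L b R₁ = μ' % nN L b R₁ := by
        have e1 : μ % nN L b R₁ % nw b R₁ = μ % nw b R₁ := by
          unfold nN
          exact Nat.mod_mul_right_mod _ _ _
        have e2 : μ' % nN L b R₁ % nw b R₁ = μ' % nw b R₁ := by
          unfold nN
          exact Nat.mod_mul_right_mod _ _ _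
        have e3 := Nat.div_add_mod (μ % nN L b R₁) (nw b R₁)
        have e4 := Nat.div_add_mod (μ' % nN L b R₁) (nw b R₁)
        unfold ag1J at hj
        unfold ag1W at hw
        rw [← e3, ← e4, e1, e2, hj, hw]
      rw [← Nat.div_add_mod μ (nN L b R₁), ← Nat.div_add_mod μ' (nN L b R₁), h1, h1', hm]
    calc S.card = (S.image (ag1J L b R₁)).card := by
          rw [Finset.card_image_of_injOn]
          intro x hx y hy h
          exact hinj x hx y hy h
      _ ≤ (Finset.range L).card := by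
          apply Finset.card_le_card
          intro x hx
          obtain ⟨μ, _, rfl⟩ := Finset.mem_image.1 hx
          exact Finset.mem_range.2 (hJ μ)
      _ = L := Finset.card_range L
  · apply hone
    have hmain : ∀ μ ∈ S, (μ < nT1 G L b ℓ C ∧ ∃ y, 1 ≤ y ∧ y ≤ C ∧ y * nT1 G L b ℓ C + μ = r) ∨
        (μ = nT1 G L b ℓ C + ω ∧ (C + 1) * nT1 G L b ℓ C = r) := by
      intro μ hμ
      rcases Ties_cases hω (hS μ hμ) with ⟨hμT, x, hx, hxr⟩ | h2
      · left
        refine ⟨hμT, x.2, ?_, Ties_le hC hx, ?_⟩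
        · by_contra hne
          rw [if_pos (by omega)] at hxr
          omega
        · by_cases hne : x.2 = 0
          · rw [if_pos hne] at hxr
            omega
          · rw [if_neg hne] at hxr
            exact hxr
      · exact Or.inr h2
    have hmod : ∀ y μ, μ < nT1 G L b ℓ C → (y * nT1 G L b ℓ C + μ) % nT1 G L b ℓ C = μ ∧
        (y * nT1 G L b ℓ C + μ) / nT1 G L b ℓ C = y := by
      intro y μ hμ
      constructor
      · rw [mul_comm, Nat.mul_add_mod, Nat.mod_eq_of_lt hμ]
      · rw [mul_comm, Nat.mul_add_div hT, Nat.div_eq_of_lt hμ, add_zero]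
    have hpriv : ∀ μ y, μ < nT1 G L b ℓ C → y ≤ C → y * nT1 G L b ℓ C + μ = r →
        (C + 1) * nT1 G L b ℓ C = r → False := by
      intro μ y hμ hy h1 h2
      have h3 := (hmod y μ hμ).2
      rw [h1, ← h2, Nat.mul_div_cancel _ hT] at h3
      omega
    intro μ hμ μ' hμ'
    rcases hmain μ hμ with ⟨h1, y, hy1, hyC, hy⟩ | ⟨h1, h2⟩ <;>
      rcases hmain μ' hμ' with ⟨h1', y', hy1', hyC', hy'⟩ | ⟨h1', h2'⟩
    · rw [← (hmod y μ h1).1, ← (hmod y' μ' h1').1, hy, hy']
    · exact (hpriv μ y h1 hyC hy h2').elim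
    · exact (hpriv μ' y' h1' hyC' hy' h2).elim
    · rw [h1, h1']

end OST
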