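import Pool.Agent.OST.Sound2
import Pool.Agent.OST.Complete2
import Pool.Agent.OST.Ties

/-!
# MODULE Gap2: the choice of the parameters

Adapt `Pool/Agent/OST/Gap.lean` (`sound2`, `complete2`, `red2`); also return `Lad L al b`.
-/

namespace OST

open Finset SMT

private theorem Gap2_aux (L : ℕ) (hL : 2 ≤ L) (ε : ℝ) (hε : 0 < ε) (_hε1 : ε ≤ 1) :
    ∃ (ζ γ : ℝ) (al : List ℕ) (b ℓ C : ℕ), 0 < ζ ∧ 0 < γ ∧ 1 ≤ b ∧ 1 ≤ C ∧ Lad L al b ∧
      ∀ R₁ R₂ : ℕ, 0 < R₁ → ∀ [NeZero R₂] (G : Game R₁ R₂), G.DTo1 1 →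
      (G.Yes ζ → ∃ M, WeaklyStable (red2 G L al b ℓ C) M ∧
        (1 + (1 - 1 / (L : ℝ)) ^ L - ε) * (nT1 G L b ℓ C : ℝ) ≤ M.length) ∧
      (G.No γ → ∀ M, WeaklyStable (red2 G L al b ℓ C) M →
        (M.length : ℝ) ≤ (1 + ε) * (nT1 G L b ℓ C : ℝ)) := by
  set η := ε / 80 with hη
  have hη0 : 0 < η := by rw [hη]; positivity
  obtain ⟨al, b, hlad, hηb, hθ⟩ := exists_lad L hL η hη0
  have hb : 1 ≤ b := hlad.pos
  have hL1 : 1 ≤ L := by omega
  have hL0 : (0 : ℝ) < L := by exact_mod_cast (by omega : 0 < L)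
  have hstr : th al (L - 1) < th al L := by
    have h1 := hlad.strict (t := L - 1) (by omega)
    have h2 : L - 1 + 1 = L := by omega
    rwa [h2] at h1
  have hlt : th al L < b := hlad.lt le_rfl
  have hmono : ∀ t < L, th al t ≤ th al (L - 1) := by
    intro t ht
    exact hlad.mono (by omega) (by omega)
  obtain ⟨t, ht, hno⟩ := no_case1 (th al L) (th al (L - 1)) b hlad.one_le hstr hlt η hη0
  have hθ0 : (0 : ℝ) ≤ (1 - 1 / (L : ℝ)) ^ L := by
    apply pow_nonneg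
    rw [sub_nonneg, div_le_one hL0]
    exact_mod_cast hL1
  have hθ1 : (1 - 1 / (L : ℝ)) ^ L ≤ 1 := by
    apply pow_le_one₀
    · rw [sub_nonneg, div_le_one hL0]
      exact_mod_cast hL1
    · have : (0 : ℝ) < 1 / (L : ℝ) := by positivity
      linarith
  set n := ⌈8 / ε⌉₊ with hn
  set m := ⌈16 / ε⌉₊ with hm
  have hn8 : 8 ≤ n * ε := by
    have h1 : 8 / ε ≤ n := Nat.le_ceil _
    rw [div_le_iff₀ hε] at h1
    exact h1
  have hm16 : 16 ≤ m * ε := by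
    have h1 : 16 / ε ≤ m := Nat.le_ceil _
    rw [div_le_iff₀ hε] at h1
    exact h1
  have hn1 : 1 ≤ n := Nat.ceil_pos.mpr (by positivity)
  have hm1 : 1 ≤ m := Nat.ceil_pos.mpr (by positivity)
  set C := m ^ (n + 1) with hC
  have hC1 : 1 ≤ C := Nat.one_le_pow _ _ hm1
  have hC0 : (0 : ℝ) < C := by exact_mod_cast hC1
  have ht0 : (0 : ℝ) < t := by exact_mod_cast ht
  set ℓ := 2 * t ^ 2 with hℓ
  have hℓ1 : 1 ≤ ℓ := by
    have : 1 ≤ t ^ 2 := Nat.one_le_pow _ _ ht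
    omega
  have hℓ0 : (0 : ℝ) < ℓ := by exact_mod_cast hℓ1
  have hℓr : (ℓ : ℝ) = 2 * (t : ℝ) ^ 2 := by rw [hℓ]; push_cast; ring
  set γ := ε / (256 * (t : ℝ) ^ 5 * (C : ℝ) ^ 2 * (L : ℝ) ^ 2) with hγ
  have hγ0 : 0 < γ := by rw [hγ]; positivity
  set ζ := ε / (4 * ℓ) with hζ
  have hζ0 : 0 < ζ := by rw [hζ]; positivity
  refine ⟨ζ, γ, al, b, ℓ, C, hζ0, hγ0, hb, hC1, hlad, ?_⟩
  intro R₁ R₂ hR₁ _ G hG
  constructor
  · intro hY
    obtain ⟨M, hM, hMl⟩ := complete2 G L al b ℓ C hlad hℓ1 hζ0 hY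
    refine ⟨M, hM, le_trans ?_ hMl⟩
    have h1 : 2 * (ℓ : ℝ) * ζ = ε / 2 := by rw [hζ]; field_simp; norm_num
    rw [h1, hθ, mul_comm (nT1 G L b ℓ C : ℝ)]
    apply mul_le_mul_of_nonneg_right _ (by positivity)
    have h2 : (1 - 1 / (L : ℝ)) ^ L * (ε / 2) ≤ 1 * (ε / 2) :=
      mul_le_mul_of_nonneg_right hθ1 (by positivity)
    linarith
  · intro hN M hM
    have hG0 : G ≠ [] := hN.1
    have hGl : 1 ≤ G.length := List.length_pos_of_ne_nil hG0
    set nV := G.length ^ (ℓ + 1) with hnV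
    have hnV1 : 1 ≤ nV := Nat.one_le_pow _ _ hGl
    have hnV0 : (0 : ℝ) < nV := by exact_mod_cast hnV1
    set W := nw b R₁ with hWd
    have hWb : b ≤ W := by
      rw [hWd]
      unfold nw
      exact Nat.le_self_pow hR₁.ne' b
    have hW0 : (0 : ℝ) < W := by exact_mod_cast (by omega : 0 < W)
    set N := nN L b R₁ with hNd
    have hNW : (N : ℝ) = W * L := by
      rw [hNd, hWd]
      unfold nN
      push_cast
      rfl
    have hN0 : (0 : ℝ) < N := by rw [hNW]; positivity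
    have hηW : 1 ≤ η * W := by
      have : (b : ℝ) ≤ W := by exact_mod_cast hWb
      nlinarith
    set h := ⌈η * W⌉₊ with hh
    have hh1 : 1 ≤ h := Nat.ceil_pos.mpr (by linarith)
    have hhle : (h : ℝ) ≤ 2 * (η * W) := by
      have := Nat.ceil_lt_add_one (show 0 ≤ η * W by positivity)
      linarith
    set β := ⌊ε / (16 * (C : ℝ) ^ 2 * (L : ℝ) ^ 2) * nV⌋₊ with hβd
    have hβle : (β : ℝ) ≤ ε / (16 * (C : ℝ) ^ 2 * (L : ℝ) ^ 2) * nV := Nat.floor_le (by positivity)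
    have hβ : ∀ S : Finset ℕ, (∀ v ∈ S, v < G.length ^ (ℓ + 1)) →
        IndepFam1 G (th al L) (th al (L - 1)) b ℓ h S → S.card ≤ β := by
      intro S hS hI
      have h1 := hno R₁ R₂ G γ hG hN ℓ h S hS (Nat.le_ceil _) hI
      apply Nat.le_floor
      have e0 : ((G.length : ℝ)) ^ (ℓ + 1) = nV := by rw [hnV]; push_cast; rfl
      rw [e0, hℓr] at h1
      have e1 : (t : ℝ) * (t * S.card + 2 * (t : ℝ) ^ 2 * (2 * (2 * (t : ℝ) ^ 2) ^ 2 * γ * nV)) =
          (t : ℝ) ^ 2 * S.card + (t : ℝ) ^ 2 * (16 * (t : ℝ) ^ 5 * γ * nV) := by ring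
      rw [e1] at h1
      have h2 : (t : ℝ) ^ 2 * S.card ≤ (t : ℝ) ^ 2 * (16 * (t : ℝ) ^ 5 * γ * nV) := by linarith
      have h3 : (S.card : ℝ) ≤ 16 * (t : ℝ) ^ 5 * γ * nV := le_of_mul_le_mul_left h2 (by positivity)
      refine h3.trans (le_of_eq ?_)
      rw [hγ]
      field_simp
      norm_num
    have hs := sound2 G hG0 L al b ℓ m n h β hL1 hmono hb hm1 hn1 hh1 hβ M hM
    rw [← hC, ← hnV, ← hNd] at hs
    have hsr : (n : ℝ) * M.length ≤ n * (nT1 G L b ℓ C : ℝ) +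
      (N * C * nV + n * (2 * N * C * (C * C * (L * L * β)) + 5 * (L * h) * C * nV +
        2 * N * nV * (m : ℝ) ^ n)) := by
      exact_mod_cast hs
    have hT : (nT1 G L b ℓ C : ℝ) = nV * C * N := by
      unfold nT1
      push_cast
      rw [hnV, hNd]
      push_cast
      ring
    rw [hT] at hsr ⊢
    have hn0 : (0 : ℝ) < n := by exact_mod_cast hn1
    have hm0 : (0 : ℝ) < m := by exact_mod_cast hm1
    set T : ℝ := (nV : ℝ) * C * N with hTd
    have hT0 : 0 < T := by rw [hTd]; positivity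
    have f1 : (N : ℝ) * C * nV ≤ n * (ε / 8 * T) := by
      have e : (N : ℝ) * C * nV = T := by rw [hTd]; ring
      rw [e]
      have h1 : 1 ≤ (n : ℝ) * (ε / 8) := by linarith
      calc T = 1 * T := (one_mul T).symm
        _ ≤ (n : ℝ) * (ε / 8) * T := mul_le_mul_of_nonneg_right h1 hT0.le
        _ = _ := by ring
    have f2 : 2 * (N : ℝ) * C * (C * C * (L * L * β)) ≤ ε / 8 * T := by
      calc 2 * (N : ℝ) * C * (C * C * (L * L * β)) ≤
            2 * (N : ℝ) * C * (C * C * (L * L * (ε / (16 * (C : ℝ) ^ 2 * (L : ℝ) ^ 2) * nV))) := by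
            apply mul_le_mul_of_nonneg_left _ (by positivity)
            apply mul_le_mul_of_nonneg_left _ (by positivity)
            exact mul_le_mul_of_nonneg_left hβle (by positivity)
        _ = ε / 8 * T := by
            rw [hTd]
            field_simp
            norm_num
    have f3 : 5 * ((L : ℝ) * h) * C * nV ≤ ε / 8 * T := by
      calc 5 * ((L : ℝ) * h) * C * nV ≤ 5 * ((L : ℝ) * (2 * (η * W))) * C * nV := by
            apply mul_le_mul_of_nonneg_right _ hnV0.le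
            apply mul_le_mul_of_nonneg_right _ hC0.le
            apply mul_le_mul_of_nonneg_left _ (by norm_num)
            exact mul_le_mul_of_nonneg_left hhle hL0.le
        _ = ε / 8 * T := by
            rw [hTd, hη, hNW]
            ring
    have f4 : 2 * (N : ℝ) * nV * (m : ℝ) ^ n ≤ ε / 8 * T := by
      have e : (C : ℝ) = (m : ℝ) ^ n * m := by rw [hC]; push_cast; rw [pow_succ]
      have h1 : 2 ≤ ε / 8 * m := by linarith
      calc 2 * (N : ℝ) * nV * (m : ℝ) ^ n = 2 * (N * nV * (m : ℝ) ^ n) := by ring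
        _ ≤ (ε / 8 * m) * (N * nV * (m : ℝ) ^ n) := mul_le_mul_of_nonneg_right h1 (by positivity)
        _ = ε / 8 * T := by rw [hTd, e]; ring
    have f5 : (n : ℝ) * M.length ≤ n * ((1 + ε) * T) := by
      have g1 : (n : ℝ) * (2 * N * C * (C * C * (L * L * β)) + 5 * (L * h) * C * nV +
          2 * N * nV * (m : ℝ) ^ n) ≤ n * (3 * (ε / 8 * T)) := by
        apply mul_le_mul_of_nonneg_left _ hn0.le
        linarith
      have g2 : 0 ≤ (n : ℝ) * (ε / 2 * T) := by positivity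
      calc (n : ℝ) * M.length ≤ n * T + (n * (ε / 8 * T) + n * (3 * (ε / 8 * T))) := by linarith
        _ = n * ((1 + ε) * T) - n * (ε / 2 * T) := by ring
        _ ≤ _ := by linarith
    exact le_of_mul_le_mul_left f5 hn0

theorem gap2 (L : ℕ) (hL : 2 ≤ L) (ε : ℝ) (hε : 0 < ε) :
    ∃ (ζ γ : ℝ) (al : List ℕ) (b ℓ C : ℕ), 0 < ζ ∧ 0 < γ ∧ 1 ≤ b ∧ 1 ≤ C ∧ Lad L al b ∧
      ∀ R₁ R₂ : ℕ, 0 < R₁ → ∀ [NeZero R₂] (G : Game R₁ R₂), G.DTo1 1 →
      (G.Yes ζ → ∃ M, WeaklyStable (red2 G L al b ℓ C) M ∧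
        (1 + (1 - 1 / (L : ℝ)) ^ L - ε) * (nT1 G L b ℓ C : ℝ) ≤ M.length) ∧
      (G.No γ → ∀ M, WeaklyStable (red2 G L al b ℓ C) M →
        (M.length : ℝ) ≤ (1 + ε) * (nT1 G L b ℓ C : ℝ)) := by
  obtain ⟨ζ, γ, al, b, ℓ, C, h1, h2, h3, h4, h4l, h5⟩ := Gap2_aux L hL (min ε 1)
    (lt_min hε one_pos) (min_le_right _ _)
  refine ⟨ζ, γ, al, b, ℓ, C, h1, h2, h3, h4, h4l, ?_⟩
  intro R₁ R₂ hR₁ _ G hG
  obtain ⟨h6, h7⟩ := h5 R₁ R₂ hR₁ G hG
  have h8 : min ε 1 ≤ ε := min_le_left _ _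
  have h9 : (0 : ℝ) ≤ (nT1 G L b ℓ C : ℝ) := by positivity
  constructor
  · intro hY
    obtain ⟨M, hM, hMl⟩ := h6 hY
    refine ⟨M, hM, le_trans ?_ hMl⟩
    apply mul_le_mul_of_nonneg_right _ h9
    linarith
  · intro hN M hM
    refine (h7 hN M hM).trans ?_
    apply mul_le_mul_of_nonneg_right _ h9
    linarith

end OST
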