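import Pool.Agent.OST.PolyRed
import Pool.Agent.OST.Red2

/-!
# MODULE PolyRed2: the reduction is computable in polynomial time

Adapt `Pool/Agent/OST/PolyRed.lean` (`rk2`, `red2`). New: `nadj` (a finite conjunction over `Fin R` of
equations between arithmetic expressions: `+`, `*`, `-`, `/`, `%`, `if <`, `List.getD` of the constant list
`al`); `T = nT1 ..` is a `Poly` number; `if r.2 = 0 then 0 else r.2 * T + μ`.
-/

namespace OST

open FP SMT

section
variable {α : Type} [Code α]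

theorem PolyRed2_nadj (al : List ℕ) (b R : ℕ) {t j k l : α → ℕ} (ht : Poly t) (hj : Poly j)
    (hk : Poly k) (hl : Poly l) : Poly (fun x => nadj al b R (t x) (j x) (k x) (l x)) := by
  unfold nadj word rot
  refine PolyPred.dec (PolyRed_forallFin (fun i => ?_))
  have h1 := PolyRed1_th al ht
  have h2 : Poly (fun x => th al (t x + 1)) := PolyRed1_th al (by fun_prop)
  refine PolyPred.eq (by fun_prop) ?_
  refine FP.Poly.ite (PolyPred.lt (by fun_prop) h1) (by fun_prop) ?_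
  fun_prop

variable {R₁ R₂ : ℕ} [NeZero R₂]

theorem PolyRed2_rk (L : ℕ) (al : List ℕ) (b ℓ C : ℕ) {G : α → Game R₁ R₂} {μ ω : α → ℕ}
    (hG : Poly G) (hμ : Poly μ)
    (hω : Poly ω) : Poly (fun x => rk2 (G x) L al b ℓ C (μ x) (ω x)) := by
  unfold rk2
  have hJ : Poly (fun x => ag1J L b R₁ (ω x)) := by unfold ag1J; fun_prop
  have hJm : Poly (fun x => ag1J L b R₁ (μ x)) := by unfold ag1J; fun_prop
  have ht := PolyRed1_th al hJ
  have hkm : Poly (fun x => ag1W b R₁ (μ x)) := by unfold ag1W; fun_prop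
  have hkw : Poly (fun x => ag1W b R₁ (ω x)) := by unfold ag1W; fun_prop
  have hvm : Poly (fun x => ag1V L b R₁ C (μ x)) := by unfold ag1V; fun_prop
  have hvw : Poly (fun x => ag1V L b R₁ C (ω x)) := by unfold ag1V; fun_prop
  have h1 := PolyRed2_nadj al b R₁ hJ hJm hkm hkw
  have h2 := PolyRed1_cross b ℓ (s := fun _ : α => th al L) (FP.Poly.const _) ht hG hvm hvw hkm hkw
  have h3 : Poly (fun x => ag1C L b R₁ C (ω x)) := by unfold ag1C; fun_prop
  have h4 : Poly (fun x => ag1C L b R₁ C (μ x)) := by unfold ag1C; fun_prop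
  refine FP.Poly.ite (PolyPred.and (PolyPred.eq (by fun_prop) (by fun_prop)) h1.pred) (FP.Poly.const _) ?_
  refine FP.Poly.ite h2.pred (by fun_prop) (FP.Poly.const _)

end

theorem poly_red2 (R₁ R₂ L : ℕ) (al : List ℕ) (b ℓ C : ℕ) [NeZero R₂] :
    Poly (fun G : Game R₁ R₂ => red2 G L al b ℓ C) := by
  unfold red2
  have hT := poly_nT1 R₁ R₂ L b ℓ C
  have hB := PolyRed1_bdd R₁ R₂ L b ℓ C
  have hr1 : Poly (fun G : Game R₁ R₂ => List.range (nT1 G L b ℓ C)) := FP.Poly.range hT hB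
  have hr2 : Poly (fun G : Game R₁ R₂ => List.range (2 * nT1 G L b ℓ C)) :=
    FP.Poly.range (by fun_prop) ((PolyBdd.const 2).mul hB)
  have hTp : Poly (fun p : Game R₁ R₂ × ℕ => nT1 p.1 L b ℓ C) := hT.comp FP.Poly.fst'
  have hrp : Poly (fun p : Game R₁ R₂ × ℕ => List.range (nT1 p.1 L b ℓ C)) := hr1.comp FP.Poly.fst'
  have hTq : Poly (fun p : ((Game R₁ R₂ × ℕ) × ℕ) × (ℕ × ℕ) => nT1 p.1.1.1 L b ℓ C) :=
    hT.comp (by fun_prop)
  refine FP.Poly.pair (FP.Poly.map hr2 ?_) (FP.Poly.map hr2 ?_)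
  · refine FP.Poly.ite (PolyPred.lt (FP.Poly.snd') hTp) (FP.Poly.append (FP.Poly.filterMap hrp ?_) ?_) ?_
    · refine FP.Poly.optionMap (f := fun p : (Game R₁ R₂ × ℕ) × ℕ => rk2 p.1.1 L al b ℓ C p.1.2 p.2)
        (g := fun p r => (p.2, r.1 * nT1 p.1.1 L b ℓ C + p.2))
        (PolyRed2_rk L al b ℓ C (by fun_prop) (by fun_prop) (by fun_prop)) (by fun_prop)
    · fun_prop
    · fun_prop
  · refine FP.Poly.ite (PolyPred.lt (FP.Poly.snd') hTp) (FP.Poly.append (FP.Poly.filterMap hrp ?_) ?_) ?_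
    · refine FP.Poly.optionMap (f := fun p : (Game R₁ R₂ × ℕ) × ℕ => rk2 p.1.1 L al b ℓ C p.2 p.1.2)
        (g := fun p r => (p.2, if r.2 = 0 then 0 else r.2 * nT1 p.1.1 L b ℓ C + p.2))
        (PolyRed2_rk L al b ℓ C (by fun_prop) (by fun_prop) (by fun_prop)) ?_
      refine FP.Poly.pair (by fun_prop) ?_
      exact FP.Poly.ite (PolyPred.eq (by fun_prop) (by fun_prop)) (FP.Poly.const _) (by fun_prop)
    · fun_prop
    · fun_prop

end OST
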