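import Pool.Agent.OST.Lower
import Pool.Agent.OST.Gap2
import Pool.Agent.OST.PolyRed2

/-!
# MODULE Lower2: the Unique Games Conjecture and `P ≠ NP` give the ratio `≥ 1 + (1 - 1/L)^L` for ties of
length at most `L`

Adapt `Pool/Agent/OST/Lower.lean`: `gap2`, `red2`, `poly_red2`, `strict_red2`, `ties_red2`.
-/

namespace OST

open SMT

open FP in
theorem Lower2_dec {R₁ R₂ : ℕ} [NeZero R₂] (L : ℕ) (al : List ℕ) (b ℓ C p1 p2 : ℕ)
    (F : List Bool → Game R₁ R₂)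
    (hF : PTime F) (A : Inst → List (ℕ × ℕ)) (hA : PTime A) :
    Poly (fun x : List Bool => decide (p1 * nT1 (F x) L b ℓ C ≤
      p2 * (A (red2 (F x) L al b ℓ C)).length)) := by
  have h1 : Poly F := poly_of_ptime hF
  have h2 : Poly A := poly_of_ptime hA
  have h3 : Poly (fun x : List Bool => nT1 (F x) L b ℓ C) := (poly_nT1 R₁ R₂ L b ℓ C).comp h1
  have h4 : Poly (fun x : List Bool => A (red2 (F x) L al b ℓ C)) :=
    h2.comp ((poly_red2 R₁ R₂ L al b ℓ C).comp h1)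
  exact Lower_dec0 p1 p2 _ _ h3 h4

theorem lower2 (L : ℕ) (hL : 2 ≤ L) (hU : UGC) (hP : P ≠ NPC.NP) (r : ℝ) (hr : 1 ≤ r)
    (A : Inst → List (ℕ × ℕ)) (hA : PTime A) (h : HasRatioTies L A r) :
    1 + (1 - 1 / (L : ℝ)) ^ L ≤ r := by
  by_contra hcon
  push Not at hcon
  obtain ⟨θ, hθ⟩ : ∃ θ : ℝ, θ = (1 - 1 / (L : ℝ)) ^ L := ⟨_, rfl⟩
  rw [← hθ] at hcon
  have hr0 : 0 < r := by linarith
  set ε : ℝ := (1 + θ - r) / (2 * (r + 1)) with hεdef
  have hε : 0 < ε := div_pos (by linarith) (by positivity)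
  have hε1 : ε * (r + 1) = (1 + θ - r) / 2 := by
    rw [hεdef]
    field_simp
  have hlt : (1 + ε) < (1 + θ - ε) / r := by
    rw [lt_div_iff₀ hr0]
    nlinarith
  obtain ⟨ζ, γ, al, b, ℓ, C, hζ, hγ, hb, hC, hlad, hgap⟩ := gap2 L hL ε hε
  obtain ⟨R, hR⟩ := hU ζ γ hζ hγ
  have hRpos : 0 < R := by
    obtain ⟨F, -, -, hY, -⟩ := hR Set.univ univ_mem_NP
    obtain ⟨f, g, -⟩ := hY [] (Set.mem_univ _)
    exact Fin.pos (g 0)
  have hnz : NeZero R := ⟨hRpos.ne'⟩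
  obtain ⟨q, hq1, hq2⟩ := exists_rat_btwn hlt
  have hq0 : (0 : ℝ) < (q : ℝ) := by linarith
  have hq0' : 0 < q := by exact_mod_cast hq0
  have hden : (0 : ℝ) < (q.den : ℝ) := by exact_mod_cast q.den_pos
  have hnum : ((q.num.toNat : ℕ) : ℝ) = (q : ℝ) * q.den := by
    have h1 : ((q.num.toNat : ℕ) : ℤ) = q.num := Int.toNat_of_nonneg (Rat.num_nonneg.2 hq0'.le)
    have h2 : ((q.num.toNat : ℕ) : ℝ) = (q.num : ℝ) := by exact_mod_cast h1
    rw [h2]
    have h3 : (q : ℝ) = (q.num : ℝ) / (q.den : ℝ) := by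
      exact_mod_cast (Rat.num_div_den q).symm
    rw [h3]
    field_simp
  apply hP
  apply Set.Subset.antisymm P_sub_NP
  intro W hW
  obtain ⟨F, hF, hD, hY, hN⟩ := hR W hW
  refine mem_P_of_poly _ (Lower2_dec L al b ℓ C q.num.toNat q.den F hF A hA) ?_
  intro x
  rw [decide_eq_true_iff]
  have hiff : (q.num.toNat * nT1 (F x) L b ℓ C ≤
      q.den * (A (red2 (F x) L al b ℓ C)).length) ↔
      (q : ℝ) * (nT1 (F x) L b ℓ C : ℝ) ≤ ((A (red2 (F x) L al b ℓ C)).length : ℝ) := by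
    rw [← Nat.cast_le (α := ℝ)]
    push_cast
    rw [hnum]
    constructor
    · intro h1
      have h2 : (q.den : ℝ) * ((q : ℝ) * (nT1 (F x) L b ℓ C : ℝ)) ≤
          (q.den : ℝ) * ((A (red2 (F x) L al b ℓ C)).length : ℝ) := by linarith
      exact le_of_mul_le_mul_left h2 hden
    · intro h1
      have h2 := mul_le_mul_of_nonneg_left h1 hden.le
      linarith
  rw [hiff]
  obtain ⟨hg1, hg2⟩ := hgap R R hRpos (F x) (hD x)
  rw [← hθ] at hg1
  obtain ⟨hws, hopt⟩ := h (red2 (F x) L al b ℓ C) (strict_red2 (F x) L al b ℓ C)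
    (ties_red2 (F x) L al b ℓ C hlad)
  constructor
  · intro hx
    obtain ⟨M, hM, hM1⟩ := hg1 (hY x hx)
    have h1 := hopt M hM
    have h2 : (1 + θ - ε) / r * (nT1 (F x) L b ℓ C : ℝ) ≤
        ((A (red2 (F x) L al b ℓ C)).length : ℝ) := by
      rw [div_mul_eq_mul_div, div_le_iff₀ hr0]
      linarith
    have h3 : (0 : ℝ) ≤ (nT1 (F x) L b ℓ C : ℝ) := Nat.cast_nonneg _
    nlinarith
  · intro hx
    by_contra hxL
    have hno := hN x hxL
    have h1 := hg2 hno _ hws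
    have hT : 0 < nT1 (F x) L b ℓ C := by
      unfold nT1 nN nw
      have h5 : 0 < (F x).length := List.length_pos_of_ne_nil hno.1
      positivity
    have hT' : (0 : ℝ) < (nT1 (F x) L b ℓ C : ℝ) := by exact_mod_cast hT
    nlinarith

end OST
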