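import Pool.Agent.SMT.Final
import Pool.Agent.OST.Lower2

/-!
# The best ratio for one-sided ties of length at most `L` is at least `1 + (1 - 1/L)^L`, and for
one-sided ties of any length at least `1 + 1/e`, under the Unique Games Conjecture
-/

namespace OST

open SMT Filter Topology

theorem three_halves_mem_ties (L : ℕ) :
    (3 / 2 : ℝ) ∈ {r : ℝ | 1 ≤ r ∧ ∃ A : Inst → List (ℕ × ℕ), PTime A ∧ HasRatioTies L A r} := by
  obtain ⟨h1, A, hA, h⟩ := three_halves_mem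
  exact ⟨h1, A, hA, fun I _ _ => h I⟩

theorem three_halves_mem_one' :
    (3 / 2 : ℝ) ∈ {r : ℝ | 1 ≤ r ∧ ∃ A : Inst → List (ℕ × ℕ), PTime A ∧ HasRatioOne A r} := by
  obtain ⟨h1, A, hA, h⟩ := three_halves_mem
  exact ⟨h1, A, hA, fun I _ => h I⟩

theorem rhoTies_ge (hU : UGC) (hP : P ≠ NPC.NP) (L : ℕ) (hL : 1 ≤ L) :
    1 + (1 - 1 / (L : ℝ)) ^ L ≤ rhoTies L := by
  apply le_csInf ⟨_, three_halves_mem_ties L⟩
  rintro r ⟨hr, A, hA, h⟩
  rcases Nat.eq_or_lt_of_le hL with h1 | h1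
  · subst h1
    simpa using hr
  · exact lower2 L h1 hU hP r hr A hA h

theorem rhoOne_ge_exp (hU : UGC) (hP : P ≠ NPC.NP) : 1 + Real.exp (-1) ≤ rhoOne := by
  apply le_csInf ⟨_, three_halves_mem_one'⟩
  rintro r ⟨hr, A, hA, h⟩
  have h1 : Tendsto (fun L : ℕ => 1 + (1 + (-1 : ℝ) / (L : ℝ)) ^ L) atTop (𝓝 (1 + Real.exp (-1))) :=
    (Real.tendsto_one_add_div_pow_exp (-1)).const_add 1
  refine le_of_tendsto h1 ?_
  filter_upwards [eventually_ge_atTop 2] with L hL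
  have h2 := lower2 L hL hU hP r hr A hA (fun I hI _ => h I hI)
  have h3 : (1 + (-1 : ℝ) / (L : ℝ)) = 1 - 1 / (L : ℝ) := by ring
  rw [h3]
  exact h2

end OST
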