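import Pool.Agent.OST.Sound3
import Pool.Agent.OST.Complete3

/-!
# MODULE Gap3: the choice of the parameters

Adapt `Pool/Agent/SMT/Gap.lean`, `Gap_aux` and `gap`, with `d = 1`, `a = (L-1) B`, `b = (2L-1) B`, `B ≥ 1/η`:
`a/b = (L-1)/(2L-1) = θ < 1/2`, `1 + θ = (3L-2)/(2L-1)`; `no_case a b 1`.
-/

namespace OST

open Finset SMT

/-- The choice of the number `B` of letters in a block. -/
private lemma Gap3_B (L : ℕ) (hL : 2 ≤ L) (η : ℝ) (hη : 0 < η) :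
    ∃ B : ℕ, 1 ≤ B ∧ 1 ≤ (L - 1) * B ∧ 1 ≤ (2 * L - 1) * B ∧ (L - 1) * B ≤ (2 * L - 1) * B ∧
      (((L - 1) * B : ℕ) : ℝ) / (((2 * L - 1) * B : ℕ) : ℝ) = ((L : ℝ) - 1) / (2 * L - 1) ∧
      (((L - 1) * B : ℕ) : ℝ) / (((2 * L - 1) * B : ℕ) : ℝ) ≤ 1 ∧
      1 ≤ η * (((2 * L - 1) * B : ℕ) : ℝ) ∧
      (1 : ℝ) / 2 < (1 - (((L - 1) * B : ℕ) : ℝ) / (((2 * L - 1) * B : ℕ) : ℝ)) ^ 1 := by
  obtain ⟨B, hB⟩ := exists_nat_ge (1 / η + 1)
  have h1η : 0 < 1 / η := by positivity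
  have hB1 : (1 : ℝ) ≤ B := by linarith
  have hB1' : 1 ≤ B := by exact_mod_cast hB1
  have hB0 : (0 : ℝ) < B := by linarith
  have hηB : 1 ≤ η * B := by
    have h1 : 1 / η ≤ B := by linarith
    rw [div_le_iff₀ hη] at h1
    linarith
  obtain ⟨k, rfl⟩ : ∃ k, L = k + 2 := ⟨L - 2, by omega⟩
  have e1 : k + 2 - 1 = k + 1 := by omega
  have e2 : 2 * (k + 2) - 1 = 2 * k + 3 := by omega
  have hk : (0 : ℝ) ≤ k := by positivity
  have e3 : (((k + 2 - 1) * B : ℕ) : ℝ) / (((2 * (k + 2) - 1) * B : ℕ) : ℝ) =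
      (((k + 2 : ℕ) : ℝ) - 1) / (2 * ((k + 2 : ℕ) : ℝ) - 1) := by
    rw [e1, e2]
    push_cast
    rw [mul_div_mul_right _ _ hB0.ne']
    congr 1 <;> ring
  have e4 : (((k + 2 : ℕ) : ℝ) - 1) / (2 * ((k + 2 : ℕ) : ℝ) - 1) = ((k : ℝ) + 1) / (2 * k + 3) := by
    push_cast
    congr 1 <;> ring
  have hd0 : (0 : ℝ) < 2 * k + 3 := by linarith
  have e5 : ((k : ℝ) + 1) / (2 * k + 3) < 1 / 2 := by
    rw [div_lt_div_iff₀ hd0 (by norm_num)]
    linarith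
  refine ⟨B, hB1', ?_, ?_, ?_, e3, ?_, ?_, ?_⟩
  · rw [e1]; exact Nat.mul_pos (by omega) hB1'
  · rw [e2]; exact Nat.mul_pos (by omega) hB1'
  · exact Nat.mul_le_mul_right _ (by omega)
  · rw [e3, e4]; linarith
  · rw [e2]
    push_cast
    have : η * B ≤ η * ((2 * (k : ℝ) + 3) * B) := by
      apply mul_le_mul_of_nonneg_left _ hη.le
      nlinarith
    linarith
  · rw [e3, e4, pow_one]; linarith

private lemma Gap3_aux (L : ℕ) (hL : 2 ≤ L) (ε : ℝ) (hε : 0 < ε) :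
    ∃ (ζ γ : ℝ) (B ℓ C : ℕ), 0 < ζ ∧ 0 < γ ∧ 1 ≤ B ∧ 1 ≤ C ∧
      ∀ R₁ R₂ : ℕ, 0 < R₁ → ∀ [NeZero R₂] (G : Game R₁ R₂), G.DTo1 1 →
      (G.Yes ζ → ∃ M, WeaklyStable (red3 G L B ((L - 1) * B) ((2 * L - 1) * B) ℓ C) M ∧
        ((3 * (L : ℝ) - 2) / (2 * L - 1) - ε) * (nT G ((2 * L - 1) * B) ℓ C : ℝ) ≤ M.length) ∧
      (G.No γ → ∀ M, WeaklyStable (red3 G L B ((L - 1) * B) ((2 * L - 1) * B) ℓ C) M →
        (M.length : ℝ) ≤ (1 + ε) * (nT G ((2 * L - 1) * B) ℓ C : ℝ)) := by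
  set η := ε / 80 with hη
  have hη0 : 0 < η := by rw [hη]; positivity
  obtain ⟨B, hB1, ha, hb, hab', hρ1, hρ2, hηb, hp⟩ := Gap3_B L hL η hη0
  generalize haL : (L - 1) * B = a at ha hab' hρ1 hρ2 hp
  generalize hbL : (2 * L - 1) * B = b at hb hab' hρ1 hρ2 hηb hp
  obtain ⟨t, ht, hno⟩ := no_case a b 1 ha hab' le_rfl hp η hη0
  set n := ⌈8 / ε⌉₊ with hn
  set m := ⌈16 / ε⌉₊ with hm
  have hn8 : 8 ≤ n * ε := by
    have h1 : 8 / ε ≤ n := Nat.le_ceil _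
    rw [div_le_iff₀ hε] at h1
    exact h1
  have hm16 : 16 ≤ m * ε := by
    have h1 : 16 / ε ≤ m := Nat.le_ceil _
    rw [div_le_iff₀ hε] at h1
    exact h1
  have hn1 : 1 ≤ n := Nat.ceil_pos.mpr (by positivity)
  have hm1 : 1 ≤ m := Nat.ceil_pos.mpr (by positivity)
  set C := m ^ (n + 1) with hC
  have hC1 : 1 ≤ C := Nat.one_le_pow _ _ hm1
  have hC0 : (0 : ℝ) < C := by exact_mod_cast hC1
  have ht0 : (0 : ℝ) < t := by exact_mod_cast ht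
  set ℓ := 2 * t ^ 2 with hℓ
  have hℓ1 : 1 ≤ ℓ := by
    have : 1 ≤ t ^ 2 := Nat.one_le_pow _ _ ht
    omega
  have hℓ0 : (0 : ℝ) < ℓ := by exact_mod_cast hℓ1
  have hℓr : (ℓ : ℝ) = 2 * (t : ℝ) ^ 2 := by rw [hℓ]; push_cast; ring
  set γ := ε / (256 * (t : ℝ) ^ 5 * (C : ℝ) ^ 2) with hγ
  have hγ0 : 0 < γ := by rw [hγ]; positivity
  set ζ := ε / (4 * ℓ) with hζ
  have hζ0 : 0 < ζ := by rw [hζ]; positivity
  refine ⟨ζ, γ, B, ℓ, C, hζ0, hγ0, hB1, hC1, ?_⟩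
  rw [haL, hbL]
  intro R₁ R₂ hR₁ _ G hG
  constructor
  · intro hY
    obtain ⟨M, hM, hMl⟩ := complete3 G L B ℓ C (by omega) hB1 hℓ1 hζ0 hY
    rw [haL, hbL] at hM hMl
    refine ⟨M, hM, le_trans ?_ hMl⟩
    have h1 : 2 * (ℓ : ℝ) * ζ = ε / 2 := by rw [hζ]; field_simp; norm_num
    rw [h1, mul_comm (nT G b ℓ C : ℝ)]
    apply mul_le_mul_of_nonneg_right _ (by positivity)
    have h2 : (a : ℝ) / b * (ε / 2) ≤ 1 * (ε / 2) := mul_le_mul_of_nonneg_right hρ2 (by positivity)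
    have hL2 : (2 : ℝ) ≤ L := by exact_mod_cast hL
    have h3 : (3 * (L : ℝ) - 2) / (2 * L - 1) = 1 + (a : ℝ) / b := by
      rw [hρ1]
      have h0 : (0 : ℝ) < 2 * L - 1 := by linarith
      rw [div_eq_iff h0.ne', add_mul, div_mul_cancel₀ _ h0.ne']
      ring
    rw [h3]
    linarith
  · intro hN M hM
    have hG0 : G ≠ [] := hN.1
    have hGl : 1 ≤ G.length := List.length_pos_of_ne_nil hG0
    set nV := G.length ^ (ℓ + 1) with hnV
    have hnV1 : 1 ≤ nV := Nat.one_le_pow _ _ hGl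
    have hnV0 : (0 : ℝ) < nV := by exact_mod_cast hnV1
    set N := nw b R₁ with hNd
    have hNb : b ≤ N := by
      rw [hNd]
      unfold nw
      exact Nat.le_self_pow hR₁.ne' b
    have hN0 : (0 : ℝ) < N := by exact_mod_cast (by omega : 0 < N)
    have hηN : 1 ≤ η * N := by
      have : (b : ℝ) ≤ N := by exact_mod_cast hNb
      nlinarith
    set h := ⌈η * N⌉₊ with hh
    have hh1 : 1 ≤ h := Nat.ceil_pos.mpr (by linarith)
    have hhle : (h : ℝ) ≤ 2 * (η * N) := by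
      have := Nat.ceil_lt_add_one (show 0 ≤ η * N by positivity)
      linarith
    set β := ⌊ε / (16 * (C : ℝ) ^ 2) * nV⌋₊ with hβd
    have hβle : (β : ℝ) ≤ ε / (16 * (C : ℝ) ^ 2) * nV := Nat.floor_le (by positivity)
    have hβ : ∀ S : Finset ℕ, (∀ v ∈ S, v < G.length ^ (ℓ + 1)) → IndepFam G a b ℓ h S → S.card ≤ β := by
      intro S hS hI
      have h1 := hno R₁ R₂ G γ hG hN ℓ h S hS (Nat.le_ceil _) hI
      apply Nat.le_floor
      have e0 : ((G.length : ℝ)) ^ (ℓ + 1) = nV := by rw [hnV]; push_cast; rfl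
      rw [e0, hℓr] at h1
      have e1 : (t : ℝ) * (t * S.card + 2 * (t : ℝ) ^ 2 * (2 * (2 * (t : ℝ) ^ 2) ^ 2 * ((1 : ℕ) * γ) * nV)) =
          (t : ℝ) ^ 2 * S.card + (t : ℝ) ^ 2 * (16 * (t : ℝ) ^ 5 * ((1 : ℕ) * γ) * nV) := by ring
      rw [e1] at h1
      have h2 : (t : ℝ) ^ 2 * S.card ≤ (t : ℝ) ^ 2 * (16 * (t : ℝ) ^ 5 * ((1 : ℕ) * γ) * nV) := by linarith
      have h3 : (S.card : ℝ) ≤ 16 * (t : ℝ) ^ 5 * ((1 : ℕ) * γ) * nV := le_of_mul_le_mul_left h2 (by positivity)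
      refine h3.trans (le_of_eq ?_)
      rw [hγ]
      field_simp
      norm_num
    have hs := sound3 G hG0 L B a b ℓ m n h β hb hm1 hn1 hh1 hβ M hM
    rw [← hC, ← hnV, ← hNd] at hs
    have hsr : (n : ℝ) * M.length ≤ n * (nT G b ℓ C : ℝ) +
      (N * C * nV + n * (2 * N * C * (C * C * β) + 5 * h * C * nV + 2 * N * nV * (m : ℝ) ^ n)) := by
      exact_mod_cast hs
    have hT : (nT G b ℓ C : ℝ) = nV * C * N := by
      unfold nT
      push_cast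
      rw [hnV, hNd]
      push_cast
      ring
    rw [hT] at hsr ⊢
    have hn0 : (0 : ℝ) < n := by exact_mod_cast hn1
    have hm0 : (0 : ℝ) < m := by exact_mod_cast hm1
    set T : ℝ := (nV : ℝ) * C * N with hTd
    have hT0 : 0 < T := by rw [hTd]; positivity
    have f1 : (N : ℝ) * C * nV ≤ n * (ε / 8 * T) := by
      have e : (N : ℝ) * C * nV = T := by rw [hTd]; ring
      rw [e]
      have h1 : 1 ≤ (n : ℝ) * (ε / 8) := by linarith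
      calc T = 1 * T := (one_mul T).symm
        _ ≤ (n : ℝ) * (ε / 8) * T := mul_le_mul_of_nonneg_right h1 hT0.le
        _ = _ := by ring
    have f2 : 2 * (N : ℝ) * C * (C * C * β) ≤ ε / 8 * T := by
      calc 2 * (N : ℝ) * C * (C * C * β) ≤ 2 * (N : ℝ) * C * (C * C * (ε / (16 * (C : ℝ) ^ 2) * nV)) := by
            apply mul_le_mul_of_nonneg_left _ (by positivity)
            exact mul_le_mul_of_nonneg_left hβle (by positivity)
        _ = ε / 8 * T := by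
            rw [hTd]
            field_simp
            norm_num
    have f3 : 5 * (h : ℝ) * C * nV ≤ ε / 8 * T := by
      calc 5 * (h : ℝ) * C * nV ≤ 5 * (2 * (η * N)) * C * nV := by
            apply mul_le_mul_of_nonneg_right _ hnV0.le
            apply mul_le_mul_of_nonneg_right _ hC0.le
            linarith
        _ = ε / 8 * T := by
            rw [hTd, hη]
            ring
    have f4 : 2 * (N : ℝ) * nV * (m : ℝ) ^ n ≤ ε / 8 * T := by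
      have e : (C : ℝ) = (m : ℝ) ^ n * m := by rw [hC]; push_cast; rw [pow_succ]
      have h1 : 2 ≤ ε / 8 * m := by linarith
      calc 2 * (N : ℝ) * nV * (m : ℝ) ^ n = 2 * (N * nV * (m : ℝ) ^ n) := by ring
        _ ≤ (ε / 8 * m) * (N * nV * (m : ℝ) ^ n) := mul_le_mul_of_nonneg_right h1 (by positivity)
        _ = ε / 8 * T := by rw [hTd, e]; ring
    have f5 : (n : ℝ) * M.length ≤ n * ((1 + ε) * T) := by
      have g1 : (n : ℝ) * (2 * N * C * (C * C * β) + 5 * h * C * nV + 2 * N * nV * (m : ℝ) ^ n) ≤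
          n * (3 * (ε / 8 * T)) := by
        apply mul_le_mul_of_nonneg_left _ hn0.le
        linarith
      have g2 : 0 ≤ (n : ℝ) * (ε / 2 * T) := by positivity
      calc (n : ℝ) * M.length ≤ n * T + (n * (ε / 8 * T) + n * (3 * (ε / 8 * T))) := by linarith
        _ = n * ((1 + ε) * T) - n * (ε / 2 * T) := by ring
        _ ≤ _ := by linarith
    exact le_of_mul_le_mul_left f5 hn0

theorem gap3 (L : ℕ) (hL : 2 ≤ L) (ε : ℝ) (hε : 0 < ε) :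
    ∃ (ζ γ : ℝ) (B ℓ C : ℕ), 0 < ζ ∧ 0 < γ ∧ 1 ≤ B ∧ 1 ≤ C ∧
      ∀ R₁ R₂ : ℕ, 0 < R₁ → ∀ [NeZero R₂] (G : Game R₁ R₂), G.DTo1 1 →
      (G.Yes ζ → ∃ M, WeaklyStable (red3 G L B ((L - 1) * B) ((2 * L - 1) * B) ℓ C) M ∧
        ((3 * (L : ℝ) - 2) / (2 * L - 1) - ε) * (nT G ((2 * L - 1) * B) ℓ C : ℝ) ≤ M.length) ∧
      (G.No γ → ∀ M, WeaklyStable (red3 G L B ((L - 1) * B) ((2 * L - 1) * B) ℓ C) M →
        (M.length : ℝ) ≤ (1 + ε) * (nT G ((2 * L - 1) * B) ℓ C : ℝ)) := by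
  obtain ⟨ζ, γ, B, ℓ, C, h1, h2, h3, h4, h5⟩ := Gap3_aux L hL ε hε
  exact ⟨ζ, γ, B, ℓ, C, h1, h2, h3, h4, h5⟩

end OST
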