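import Pool.Agent.OST.PolyRed
import Pool.Agent.OST.Red3

/-!
# MODULE PolyRed3: the reduction is computable in polynomial time

Adapt `Pool/Agent/OST/PolyRed2.lean` (or `Pool/Agent/SMT/PolyRed.lean`): `rk3`, `red3`. New: `nadj3`
(`PolyRed_anyConst` over `List.range L`, then a finite conjunction of equations with `phi`: `/`, `%`, `*`,
`+`, `-`, nested `if`s).
-/

namespace OST

open FP SMT

section
variable {α β : Type} [Code α] [Code β]

theorem PolyRed3_sig (L s : ℕ) {y : α → ℕ} (hy : Poly y) : Poly (fun x => sig L s (y x)) := by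
  unfold sig
  refine FP.Poly.ite (PolyPred.lt hy (FP.Poly.const _)) ?_ ?_
  · refine FP.Poly.ite (PolyPred.lt hy (FP.Poly.const _)) (by fun_prop) (by fun_prop)
  · refine FP.Poly.ite (PolyPred.lt hy (FP.Poly.const _)) (by fun_prop) ?_
    exact FP.Poly.ite (PolyPred.eq hy (FP.Poly.const _)) hy (by fun_prop)

theorem PolyRed3_phi (L B s : ℕ) {y : α → ℕ} (hy : Poly y) : Poly (fun x => phi L B s (y x)) := by
  unfold phi
  have h1 := PolyRed3_sig L s (y := fun x => y x / B) (by fun_prop)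
  fun_prop

theorem PolyRed3_nadj (L B b R : ℕ) {k l : α → ℕ} (hk : Poly k) (hl : Poly l) :
    Poly (fun x => nadj3 L B b R (k x) (l x)) := by
  unfold nadj3
  refine PolyRed_anyConst _ (fun s => PolyPred.dec (PolyRed_forallFin (fun i => ?_)))
  have h1 : Poly (fun x => word b R (l x) i) := by unfold word; fun_prop
  have h2 : Poly (fun x => word b R (k x) i) := by unfold word; fun_prop
  exact PolyPred.eq h1 (PolyRed3_phi L B s h2)

variable {R₁ R₂ : ℕ} [NeZero R₂]

theorem PolyRed3_rk (L B a b ℓ C : ℕ) {G : α → Game R₁ R₂} {μ ω : α → ℕ} (hG : Poly G) (hμ : Poly μ)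
    (hω : Poly ω) : Poly (fun x => rk3 (G x) L B a b ℓ C (μ x) (ω x)) := by
  unfold rk3
  have h1 := PolyRed3_nadj L B b R₁ (k := fun x => agW b R₁ (μ x)) (l := fun x => agW b R₁ (ω x))
    (by unfold agW; fun_prop) (by unfold agW; fun_prop)
  have h2 := PolyRed_cross a b ℓ (v := fun x => agV b R₁ C (μ x)) (u := fun x => agV b R₁ C (ω x))
    (k := fun x => agW b R₁ (μ x)) (l := fun x => agW b R₁ (ω x)) hG
    (by unfold agV; fun_prop) (by unfold agV; fun_prop)
    (by unfold agW; fun_prop) (by unfold agW; fun_prop)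
  have h3 : Poly (fun x => agC b R₁ C (ω x)) := by unfold agC; fun_prop
  have h4 : Poly (fun x => agC b R₁ C (μ x)) := by unfold agC; fun_prop
  refine FP.Poly.ite (PolyPred.and (PolyPred.eq (by fun_prop) (by fun_prop)) h1.pred) (FP.Poly.const _) ?_
  refine FP.Poly.ite h2.pred (by fun_prop) (FP.Poly.const _)

end

theorem poly_red3 (R₁ R₂ L B a b ℓ C : ℕ) [NeZero R₂] :
    Poly (fun G : Game R₁ R₂ => red3 G L B a b ℓ C) := by
  unfold red3
  have hT := poly_nT R₁ R₂ b ℓ C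
  have hB := PolyRed_bdd R₁ R₂ b ℓ C
  have hr1 : Poly (fun G : Game R₁ R₂ => List.range (nT G b ℓ C)) := FP.Poly.range hT hB
  have hr2 : Poly (fun G : Game R₁ R₂ => List.range (2 * nT G b ℓ C)) :=
    FP.Poly.range (by fun_prop) ((PolyBdd.const 2).mul hB)
  have hTp : Poly (fun p : Game R₁ R₂ × ℕ => nT p.1 b ℓ C) := hT.comp FP.Poly.fst'
  have hrp : Poly (fun p : Game R₁ R₂ × ℕ => List.range (nT p.1 b ℓ C)) := hr1.comp FP.Poly.fst'
  have hTq : Poly (fun p : ((Game R₁ R₂ × ℕ) × ℕ) × (ℕ × ℕ) => nT p.1.1.1 b ℓ C) :=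
    hT.comp (by fun_prop)
  refine FP.Poly.pair (FP.Poly.map hr2 ?_) (FP.Poly.map hr2 ?_)
  · refine FP.Poly.ite (PolyPred.lt (FP.Poly.snd') hTp) (FP.Poly.append (FP.Poly.filterMap hrp ?_) ?_) ?_
    · refine FP.Poly.optionMap (f := fun p : (Game R₁ R₂ × ℕ) × ℕ => rk3 p.1.1 L B a b ℓ C p.1.2 p.2)
        (g := fun p r => (p.2, if r.1 = 0 then 0 else r.1 * nT p.1.1 b ℓ C + p.2))
        (PolyRed3_rk L B a b ℓ C (by fun_prop) (by fun_prop) (by fun_prop)) ?_
      refine FP.Poly.pair (by fun_prop) ?_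
      exact FP.Poly.ite (PolyPred.eq (by fun_prop) (FP.Poly.const _)) (FP.Poly.const _) (by fun_prop)
    · fun_prop
    · fun_prop
  · refine FP.Poly.ite (PolyPred.lt (FP.Poly.snd') hTp) (FP.Poly.append (FP.Poly.filterMap hrp ?_) ?_) ?_
    · refine FP.Poly.optionMap (f := fun p : (Game R₁ R₂ × ℕ) × ℕ => rk3 p.1.1 L B a b ℓ C p.2 p.1.2)
        (g := fun p r => (p.2, if r.2 = 0 then 0 else r.2 * nT p.1.1 b ℓ C + p.2))
        (PolyRed3_rk L B a b ℓ C (by fun_prop) (by fun_prop) (by fun_prop)) ?_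
      refine FP.Poly.pair (by fun_prop) ?_
      exact FP.Poly.ite (PolyPred.eq (by fun_prop) (FP.Poly.const _)) (FP.Poly.const _) (by fun_prop)
    · fun_prop
    · fun_prop

end OST
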