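import Pool.Agent.OST.RedSem3
import Pool.Agent.OST.Sig

/-!
# MODULE Ties3: the ties have length at most `L`

Let `ω < T` be a main woman, `T = nT G b ℓ C`, and `S` a set of men with the rank `r` in her list. If two
different men of `S` have a coarse rank `≥ 1` or are private, they are equal (the ranks
`r.2 * T + μ` with `1 ≤ r.2 ≤ C`, `μ < T`, and `(C+1) * T` are all different). If one man of `S` has the coarse
rank `0`: then `r = 0` and all the men of `S` have `rk3 .. = some (0, 0)`: they are in the node of `ω` and their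
words are `phi L B s ∘ word ω` for some `s < L` (`phi_phi`, `word_inj`): `S` is contained in the image of
`range L` (at most one `μ` for each `s`). A private woman has one entry; `1 ≤ L`. The same for the men
(the words of the women are `phi L B s ∘ word μ`).
-/

namespace OST

open SMT

variable {R₁ R₂ : ℕ} [NeZero R₂]

private theorem Ties3_word {L B b R k k' l s : ℕ} (hbe : b = (2 * L - 1) * B) (hb : 0 < b)
    (hs : s < L) (hk : k < nw b R) (hk' : k' < nw b R)
    (h : ∀ i : Fin R, word b R l i = phi L B s (word b R k i))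
    (h' : ∀ i : Fin R, word b R l i = phi L B s (word b R k' i)) : k = k' := by
  apply word_inj hk hk'
  intro i
  rw [← phi_phi (L := L) (B := B) (s := s) hs (hbe ▸ word_lt hb i : word b R k i < _),
    ← phi_phi (L := L) (B := B) (s := s) hs (hbe ▸ word_lt hb i : word b R k' i < _),
    ← h i, ← h' i]

/-- the women of the node which are pairs of a man: at most `L`; `f` recovers the word number -/
private theorem Ties3_card {L b R n : ℕ} {S : Finset ℕ} (A : ℕ → ℕ → Prop)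
    (h1 : ∀ μ ∈ S, μ / nw b R = n) (h2 : ∀ μ ∈ S, ∃ s < L, A s μ)
    (h3 : ∀ s < L, ∀ μ ∈ S, ∀ μ' ∈ S, A s μ → A s μ' → agW b R μ = agW b R μ') :
    S.card ≤ L := by
  classical
  choose! f hf1 hf2 using h2
  calc S.card = (S.image f).card := by
        rw [Finset.card_image_of_injOn]
        intro x hx y hy h
        have hx' : x ∈ S := hx
        have hy' : y ∈ S := hy
        have e1 := hf2 x hx'
        have e2 := hf2 y hy'
        have h' : f x = f y := h
        rw [← h'] at e2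
        have e3 := h3 (f x) (hf1 x hx') x hx' y hy' e1 e2
        unfold agW at e3
        rw [← Nat.div_add_mod x (nw b R), ← Nat.div_add_mod y (nw b R), h1 x hx', h1 y hy', e3]
    _ ≤ (Finset.range L).card := by
        apply Finset.card_le_card
        intro x hx
        obtain ⟨μ, hμ, rfl⟩ := Finset.mem_image.1 hx
        exact Finset.mem_range.2 (hf1 μ hμ)
    _ = L := Finset.card_range L

private theorem Ties3_zero {G : Game R₁ R₂} {L B a b ℓ C μ ω : ℕ} {x : ℕ × ℕ}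
    (h : rk3 G L B a b ℓ C μ ω = some x) (hx : x.1 = 0 ∨ x.2 = 0) :
    μ / nw b R₁ = ω / nw b R₁ ∧ nadj3 L B b R₁ (agW b R₁ μ) (agW b R₁ ω) = true := by
  unfold rk3 at h
  split_ifs at h with h1 h2
  · exact h1
  · exfalso
    have h3 := Option.some.inj h
    rw [← h3] at hx
    simp at hx

private theorem Ties3_le {G : Game R₁ R₂} {L B a b ℓ C μ ω : ℕ} {x : ℕ × ℕ}
    (hC : 0 < C) (h : rk3 G L B a b ℓ C μ ω = some x) : x.1 ≤ C ∧ x.2 ≤ C := by
  unfold rk3 at h
  split_ifs at h with h1 h2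
  · have h3 := Option.some.inj h
    rw [← h3]
    exact ⟨Nat.zero_le _, Nat.zero_le _⟩
  · have h3 := Option.some.inj h
    rw [← h3]
    constructor
    · show agC b R₁ C ω + 1 ≤ C
      unfold agC
      exact Nat.mod_lt _ hC
    · show agC b R₁ C μ + 1 ≤ C
      unfold agC
      exact Nat.mod_lt _ hC

/-- the ranks of the list of one main agent `o`: `y * T + μ` with `1 ≤ y ≤ C`, and `(C + 1) * T` -/
private theorem Ties3_one {T C r o : ℕ} {S : Finset ℕ} (hT : 0 < T)
    (h : ∀ μ ∈ S, (μ < T ∧ ∃ y, 1 ≤ y ∧ y ≤ C ∧ y * T + μ = r) ∨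
      (μ = T + o ∧ (C + 1) * T = r)) : ∀ μ ∈ S, ∀ μ' ∈ S, μ = μ' := by
  have hmod : ∀ y μ, μ < T → (y * T + μ) % T = μ ∧ (y * T + μ) / T = y := by
    intro y μ hμ
    constructor
    · rw [mul_comm, Nat.mul_add_mod, Nat.mod_eq_of_lt hμ]
    · rw [mul_comm, Nat.mul_add_div hT, Nat.div_eq_of_lt hμ, add_zero]
  have hpriv : ∀ μ y, μ < T → y ≤ C → y * T + μ = r → (C + 1) * T = r → False := by
    intro μ y hμ hy h1 h2
    have h3 := (hmod y μ hμ).2
    rw [h1, ← h2, Nat.mul_div_cancel _ hT] at h3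
    omega
  intro μ hμ μ' hμ'
  rcases h μ hμ with ⟨h1, y, hy1, hyC, hy⟩ | ⟨h1, h2⟩ <;>
    rcases h μ' hμ' with ⟨h1', y', hy1', hyC', hy'⟩ | ⟨h1', h2'⟩
  · rw [← (hmod y μ h1).1, ← (hmod y' μ' h1').1, hy, hy']
  · exact (hpriv μ y h1 hyC hy h2').elim
  · exact (hpriv μ' y' h1' hyC' hy' h2).elim
  · rw [h1, h1']

omit [NeZero R₂] in
private theorem Ties3_C {G : Game R₁ R₂} {b ℓ C : ℕ} (hT : 0 < nT G b ℓ C) : 0 < C := by
  rcases Nat.eq_zero_or_pos C with h | h
  · exfalso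
    unfold nT at hT
    rw [h] at hT
    simp at hT
  · exact h

private theorem Ties3_rank {T C x r μ : ℕ} (hx : x ≤ C) (hr : 0 < r)
    (h : (if x = 0 then 0 else x * T + μ) = r) : ∃ y, 1 ≤ y ∧ y ≤ C ∧ y * T + μ = r := by
  by_cases hne : x = 0
  · rw [if_pos hne] at h
    omega
  · rw [if_neg hne] at h
    exact ⟨x, by omega, hx, h⟩

private theorem Ties3_rank0 {T x μ : ℕ} (hT : 0 < T)
    (h : (if x = 0 then 0 else x * T + μ) = 0) : x = 0 := by
  by_contra hne
  rw [if_neg hne] at h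
  have h3 : 1 * T ≤ x * T := Nat.mul_le_mul_right _ (Nat.one_le_iff_ne_zero.2 hne)
  omega

theorem ties_red3 (G : Game R₁ R₂) (L B ℓ C : ℕ) (hL : 1 ≤ L) (hB : 1 ≤ B) :
    TiesLe L (red3 G L B ((L - 1) * B) ((2 * L - 1) * B) ℓ C) := by
  have hb : 0 < (2 * L - 1) * B := Nat.mul_pos (by omega) hB
  obtain ⟨a, hae⟩ : ∃ a, a = (L - 1) * B := ⟨_, rfl⟩
  obtain ⟨b, hbe⟩ : ∃ b, b = (2 * L - 1) * B := ⟨_, rfl⟩
  rw [← hbe] at hb
  rw [← hae, ← hbe]
  intro ω r S hS
  have hnw : 0 < nw b R₁ := pow_pos hb R₁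
  have hone : (∀ μ ∈ S, ∀ μ' ∈ S, μ = μ') → S.card ≤ L := by
    intro h
    have h1 : S.card ≤ 1 := Finset.card_le_one.2 h
    omega
  by_cases hω : ω < nT G b ℓ C
  swap
  · apply hone
    intro μ hμ μ' hμ'
    have h1 := hS μ hμ
    have h2 := hS μ' hμ'
    rw [rankW_red3, if_neg hω] at h1 h2
    split_ifs at h1 h2 with h3 h4
    rw [h3.2, h4.2]
  have hT : 0 < nT G b ℓ C := by omega
  have hC : 0 < C := Ties3_C hT
  have hcases : ∀ μ ∈ S, (μ < nT G b ℓ C ∧ ∃ x, rk3 G L B a b ℓ C μ ω = some x ∧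
      (if x.2 = 0 then 0 else x.2 * nT G b ℓ C + μ) = r) ∨
      (μ = nT G b ℓ C + ω ∧ (C + 1) * nT G b ℓ C = r) := by
    intro μ hμ
    have h := hS μ hμ
    rw [rankW_red3, if_pos hω] at h
    by_cases hμT : μ < nT G b ℓ C
    · rw [if_pos hμT] at h
      obtain ⟨x, hx, hxr⟩ := Option.map_eq_some_iff.1 h
      exact Or.inl ⟨hμT, x, hx, hxr⟩
    · rw [if_neg hμT] at h
      right
      split_ifs at h with h1
      exact ⟨h1, Option.some.inj h⟩
  rcases Nat.eq_zero_or_pos r with hr | hr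
  · -- the tie at the head of the list
    subst hr
    have key : ∀ μ ∈ S, μ / nw b R₁ = ω / nw b R₁ ∧
        nadj3 L B b R₁ (agW b R₁ μ) (agW b R₁ ω) = true := by
      intro μ hμ
      rcases hcases μ hμ with ⟨hμT, x, hx, hxr⟩ | ⟨_, h2⟩
      · exact Ties3_zero hx (Or.inr (Ties3_rank0 hT hxr))
      · exfalso
        have h3 : 1 * nT G b ℓ C ≤ (C + 1) * nT G b ℓ C := Nat.mul_le_mul_right _ (by omega)
        omega
    refine Ties3_card (L := L) (b := b) (R := R₁) (n := ω / nw b R₁)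
      (fun s μ => ∀ i : Fin R₁, word b R₁ (agW b R₁ ω) i = phi L B s (word b R₁ (agW b R₁ μ) i))
      (fun μ hμ => (key μ hμ).1) ?_ ?_
    · intro μ hμ
      have h := (key μ hμ).2
      unfold nadj3 at h
      rw [List.any_eq_true] at h
      obtain ⟨s, hs, h2⟩ := h
      exact ⟨s, List.mem_range.1 hs, of_decide_eq_true h2⟩
    · intro s hs μ _ μ' _ h1 h2
      exact Ties3_word hbe hb hs (Nat.mod_lt _ hnw) (Nat.mod_lt _ hnw) h1 h2
  · apply hone
    apply Ties3_one (C := C) (r := r) (o := ω) hT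
    intro μ hμ
    rcases hcases μ hμ with ⟨hμT, x, hx, hxr⟩ | h2
    · exact Or.inl ⟨hμT, Ties3_rank (Ties3_le hC hx).2 hr hxr⟩
    · exact Or.inr h2

theorem tiesM_red3 (G : Game R₁ R₂) (L B ℓ C : ℕ) (hL : 1 ≤ L) (hB : 1 ≤ B) :
    TiesLeM L (red3 G L B ((L - 1) * B) ((2 * L - 1) * B) ℓ C) := by
  have hb : 0 < (2 * L - 1) * B := Nat.mul_pos (by omega) hB
  obtain ⟨a, hae⟩ : ∃ a, a = (L - 1) * B := ⟨_, rfl⟩
  obtain ⟨b, hbe⟩ : ∃ b, b = (2 * L - 1) * B := ⟨_, rfl⟩
  rw [← hbe] at hb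
  rw [← hae, ← hbe]
  intro ω r S hS
  have hnw : 0 < nw b R₁ := pow_pos hb R₁
  have hone : (∀ μ ∈ S, ∀ μ' ∈ S, μ = μ') → S.card ≤ L := by
    intro h
    have h1 : S.card ≤ 1 := Finset.card_le_one.2 h
    omega
  by_cases hω : ω < nT G b ℓ C
  swap
  · apply hone
    intro μ hμ μ' hμ'
    have h1 := hS μ hμ
    have h2 := hS μ' hμ'
    rw [rankM_red3, if_neg hω] at h1 h2
    split_ifs at h1 h2 with h3 h4
    rw [h3.2, h4.2]
  have hT : 0 < nT G b ℓ C := by omega
  have hC : 0 < C := Ties3_C hT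
  have hcases : ∀ μ ∈ S, (μ < nT G b ℓ C ∧ ∃ x, rk3 G L B a b ℓ C ω μ = some x ∧
      (if x.1 = 0 then 0 else x.1 * nT G b ℓ C + μ) = r) ∨
      (μ = nT G b ℓ C + ω ∧ (C + 1) * nT G b ℓ C = r) := by
    intro μ hμ
    have h := hS μ hμ
    rw [rankM_red3, if_pos hω] at h
    by_cases hμT : μ < nT G b ℓ C
    · rw [if_pos hμT] at h
      obtain ⟨x, hx, hxr⟩ := Option.map_eq_some_iff.1 h
      exact Or.inl ⟨hμT, x, hx, hxr⟩
    · rw [if_neg hμT] at h
      right
      split_ifs at h with h1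
      exact ⟨h1, Option.some.inj h⟩
  rcases Nat.eq_zero_or_pos r with hr | hr
  · -- the tie at the head of the list
    subst hr
    have key : ∀ μ ∈ S, μ / nw b R₁ = ω / nw b R₁ ∧
        nadj3 L B b R₁ (agW b R₁ ω) (agW b R₁ μ) = true := by
      intro μ hμ
      rcases hcases μ hμ with ⟨hμT, x, hx, hxr⟩ | ⟨_, h2⟩
      · have h4 := Ties3_zero hx (Or.inl (Ties3_rank0 hT hxr))
        exact ⟨h4.1.symm, h4.2⟩
      · exfalso
        have h3 : 1 * nT G b ℓ C ≤ (C + 1) * nT G b ℓ C := Nat.mul_le_mul_right _ (by omega)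
        omega
    refine Ties3_card (L := L) (b := b) (R := R₁) (n := ω / nw b R₁)
      (fun s μ => ∀ i : Fin R₁, word b R₁ (agW b R₁ μ) i = phi L B s (word b R₁ (agW b R₁ ω) i))
      (fun μ hμ => (key μ hμ).1) ?_ ?_
    · intro μ hμ
      have h := (key μ hμ).2
      unfold nadj3 at h
      rw [List.any_eq_true] at h
      obtain ⟨s, hs, h2⟩ := h
      exact ⟨s, List.mem_range.1 hs, of_decide_eq_true h2⟩
    · intro s hs μ _ μ' _ h1 h2
      apply word_inj (Nat.mod_lt _ hnw) (Nat.mod_lt _ hnw)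
      intro i
      exact (h1 i).trans (h2 i).symm
  · apply hone
    apply Ties3_one (C := C) (r := r) (o := ω) hT
    intro μ hμ
    rcases hcases μ hμ with ⟨hμT, x, hx, hxr⟩ | h2
    · exact Or.inl ⟨hμT, Ties3_rank (Ties3_le hC hx).1 hr hxr⟩
    · exact Or.inr h2

end OST
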