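import Pool.Agent.SMT.Lower
import Pool.Agent.OST.Gap3
import Pool.Agent.OST.PolyRed3
import Pool.Agent.OST.Ties3

/-!
# MODULE Lower3: the Unique Games Conjecture and `P ≠ NP` give the ratio `≥ (3L-2)/(2L-1)` for ties of
length at most `L`

Adapt `Pool/Agent/OST/Lower.lean`: `gap3`, `red3`, `poly_red3`, `ties_red3`, `tiesM_red3`, `poly_nT`.
-/

namespace OST

open SMT

open FP in
theorem Lower3_dec {R₁ R₂ : ℕ} [NeZero R₂] (L B a b ℓ C p1 p2 : ℕ)
    (F : List Bool → Game R₁ R₂)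
    (hF : PTime F) (A : Inst → List (ℕ × ℕ)) (hA : PTime A) :
    Poly (fun x : List Bool => decide (p1 * nT (F x) b ℓ C ≤
      p2 * (A (red3 (F x) L B a b ℓ C)).length)) := by
  have h1 : Poly F := poly_of_ptime hF
  have h2 : Poly A := poly_of_ptime hA
  have h3 : Poly (fun x : List Bool => nT (F x) b ℓ C) := (poly_nT R₁ R₂ b ℓ C).comp h1
  have h4 : Poly (fun x : List Bool => A (red3 (F x) L B a b ℓ C)) :=
    h2.comp ((poly_red3 R₁ R₂ L B a b ℓ C).comp h1)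
  exact Lower_dec0 p1 p2 _ _ h3 h4

theorem lower3 (L : ℕ) (hL : 2 ≤ L) (hU : UGC) (hP : P ≠ NPC.NP) (r : ℝ) (hr : 1 ≤ r)
    (A : Inst → List (ℕ × ℕ)) (hA : PTime A) (h : HasRatioBoth L A r) :
    (3 * (L : ℝ) - 2) / (2 * L - 1) ≤ r := by
  by_contra hcon
  push Not at hcon
  obtain ⟨θ, hθ⟩ : ∃ θ : ℝ, 1 + θ = (3 * (L : ℝ) - 2) / (2 * L - 1) :=
    ⟨(3 * (L : ℝ) - 2) / (2 * L - 1) - 1, by ring⟩
  rw [← hθ] at hcon
  have hr0 : 0 < r := by linarith
  set ε : ℝ := (1 + θ - r) / (2 * (r + 1)) with hεdef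
  have hε : 0 < ε := div_pos (by linarith) (by positivity)
  have hε1 : ε * (r + 1) = (1 + θ - r) / 2 := by
    rw [hεdef]
    field_simp
  have hlt : (1 + ε) < (1 + θ - ε) / r := by
    rw [lt_div_iff₀ hr0]
    nlinarith
  obtain ⟨ζ, γ, B, ℓ, C, hζ, hγ, hB, hC, hgap⟩ := gap3 L hL ε hε
  obtain ⟨R, hR⟩ := hU ζ γ hζ hγ
  have hRpos : 0 < R := by
    obtain ⟨F, -, -, hY, -⟩ := hR Set.univ univ_mem_NP
    obtain ⟨f, g, -⟩ := hY [] (Set.mem_univ _)
    exact Fin.pos (g 0)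
  have hnz : NeZero R := ⟨hRpos.ne'⟩
  obtain ⟨q, hq1, hq2⟩ := exists_rat_btwn hlt
  have hq0 : (0 : ℝ) < (q : ℝ) := by linarith
  have hq0' : 0 < q := by exact_mod_cast hq0
  have hden : (0 : ℝ) < (q.den : ℝ) := by exact_mod_cast q.den_pos
  have hnum : ((q.num.toNat : ℕ) : ℝ) = (q : ℝ) * q.den := by
    have h1 : ((q.num.toNat : ℕ) : ℤ) = q.num := Int.toNat_of_nonneg (Rat.num_nonneg.2 hq0'.le)
    have h2 : ((q.num.toNat : ℕ) : ℝ) = (q.num : ℝ) := by exact_mod_cast h1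
    rw [h2]
    have h3 : (q : ℝ) = (q.num : ℝ) / (q.den : ℝ) := by
      exact_mod_cast (Rat.num_div_den q).symm
    rw [h3]
    field_simp
  apply hP
  apply Set.Subset.antisymm P_sub_NP
  intro W hW
  obtain ⟨F, hF, hD, hY, hN⟩ := hR W hW
  refine mem_P_of_poly _ (Lower3_dec L B ((L - 1) * B) ((2 * L - 1) * B) ℓ C q.num.toNat q.den F hF A hA) ?_
  intro x
  rw [decide_eq_true_iff]
  have hiff : (q.num.toNat * nT (F x) ((2 * L - 1) * B) ℓ C ≤
      q.den * (A (red3 (F x) L B ((L - 1) * B) ((2 * L - 1) * B) ℓ C)).length) ↔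
      (q : ℝ) * (nT (F x) ((2 * L - 1) * B) ℓ C : ℝ) ≤ ((A (red3 (F x) L B ((L - 1) * B) ((2 * L - 1) * B) ℓ C)).length : ℝ) := by
    rw [← Nat.cast_le (α := ℝ)]
    push_cast
    rw [hnum]
    constructor
    · intro h1
      have h2 : (q.den : ℝ) * ((q : ℝ) * (nT (F x) ((2 * L - 1) * B) ℓ C : ℝ)) ≤
          (q.den : ℝ) * ((A (red3 (F x) L B ((L - 1) * B) ((2 * L - 1) * B) ℓ C)).length : ℝ) := by linarith
      exact le_of_mul_le_mul_left h2 hden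
    · intro h1
      have h2 := mul_le_mul_of_nonneg_left h1 hden.le
      linarith
  rw [hiff]
  obtain ⟨hg1, hg2⟩ := hgap R R hRpos (F x) (hD x)
  rw [← hθ] at hg1
  obtain ⟨hws, hopt⟩ := h (red3 (F x) L B ((L - 1) * B) ((2 * L - 1) * B) ℓ C)
    (tiesM_red3 (F x) L B ℓ C (by omega) hB) (ties_red3 (F x) L B ℓ C (by omega) hB)
  constructor
  · intro hx
    obtain ⟨M, hM, hM1⟩ := hg1 (hY x hx)
    have h1 := hopt M hM
    have h2 : (1 + θ - ε) / r * (nT (F x) ((2 * L - 1) * B) ℓ C : ℝ) ≤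
        ((A (red3 (F x) L B ((L - 1) * B) ((2 * L - 1) * B) ℓ C)).length : ℝ) := by
      rw [div_mul_eq_mul_div, div_le_iff₀ hr0]
      linarith
    have h3 : (0 : ℝ) ≤ (nT (F x) ((2 * L - 1) * B) ℓ C : ℝ) := Nat.cast_nonneg _
    nlinarith
  · intro hx
    by_contra hxL
    have hno := hN x hxL
    have h1 := hg2 hno _ hws
    have hT : 0 < nT (F x) ((2 * L - 1) * B) ℓ C := by
      unfold nT nw
      have h5 : 0 < (F x).length := List.length_pos_of_ne_nil hno.1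
      have h6 : 0 < (2 * L - 1) * B := Nat.mul_pos (by omega) hB
      positivity
    have hT' : (0 : ℝ) < (nT (F x) ((2 * L - 1) * B) ℓ C : ℝ) := by exact_mod_cast hT
    nlinarith

end OST
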