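import Pool.Agent.SMT.Final
import Pool.Agent.OST.Lower3

/-!
# The best ratio for ties of length at most `L` on both sides is at least `(3L-2)/(2L-1)`, under the
Unique Games Conjecture
-/

namespace OST

open SMT

theorem three_halves_mem_both (L : ℕ) :
    (3 / 2 : ℝ) ∈ {r : ℝ | 1 ≤ r ∧ ∃ A : Inst → List (ℕ × ℕ), PTime A ∧ HasRatioBoth L A r} := by
  obtain ⟨h1, A, hA, h⟩ := three_halves_mem
  exact ⟨h1, A, hA, fun I _ _ => h I⟩

theorem rhoBoth_ge (hU : UGC) (hP : P ≠ NPC.NP) (L : ℕ) (hL : 1 ≤ L) :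
    (3 * (L : ℝ) - 2) / (2 * L - 1) ≤ rhoBoth L := by
  apply le_csInf ⟨_, three_halves_mem_both L⟩
  rintro r ⟨hr, A, hA, h⟩
  rcases Nat.eq_or_lt_of_le hL with h1 | h1
  · subst h1
    norm_num
    exact hr
  · exact lower3 L h1 hU hP r hr A hA h

end OST
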