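import Pool.Agent.SMT.PolyRed
import Pool.Agent.OST.Red

/-!
# MODULE PolyRed: the reduction is computable in polynomial time

Adapt `Pool/Agent/SMT/PolyRed.lean` (import it: `PolyRed_forallFin`, `PolyRed_anyConst`, `PolyRed_app`,
`PolyRed_vx`, `PolyRed_vcon`, ... are there). New: the thresholds `th al (ag1J ..)` (`List.getD` of the
constant list `al`), so `adjn1 s t b ..` with varying `s`, `t`.
-/

namespace OST

open FP SMT

section
variable {α β : Type} [Code α] [Code β]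
variable {R R' : ℕ}

theorem PolyRed1_adjn (b : ℕ) {s t : α → ℕ} {π τ : α → Fin R → Fin R'} {k l : α → ℕ} (hs : Poly s)
    (ht : Poly t) (hπ : Poly π) (hτ : Poly τ)
    (hk : Poly k) (hl : Poly l) :
    Poly (fun x => adjn1 (s x) (t x) b (π x) (τ x) (k x) (l x)) := by
  unfold adjn1 Adj1 word
  refine PolyPred.dec (PolyRed_forallFin (fun i => PolyRed_forallFin (fun i' => ?_)))
  have h1 := PolyRed_app hπ i
  have h2 := PolyRed_app hτ i'
  refine PolyPred.imp (PolyPred.eq h1 h2) ?_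
  fun_prop

variable {R₁ R₂ : ℕ} [NeZero R₂]

theorem PolyRed1_cross (b ℓ : ℕ) {s t : α → ℕ} {G : α → Game R₁ R₂} {v u k l : α → ℕ}
    (hs : Poly s) (ht : Poly t) (hG : Poly G) (hv : Poly v)
    (hu : Poly u) (hk : Poly k) (hl : Poly l) :
    Poly (fun x => cross1 (G x) (s x) (t x) b ℓ (v x) (u x) (k x) (l x)) := by
  unfold cross1
  refine PolyRed_anyConst _ (fun j => PolyRed_anyConst _ (fun j' => ?_))
  have h1 := PolyRed_vcon hG hv j
  have h2 := PolyRed_vcon hG hu j'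
  have h3 := PolyRed1_adjn b (s := s) (t := t) (π := fun x => (vcon (G x) (v x) j).2.2)
    (τ := fun x => (vcon (G x) (u x) j').2.2) hs ht (by fun_prop) (by fun_prop) hk hl
  fun_prop

theorem PolyRed1_th (al : List ℕ) {j : α → ℕ} (hj : Poly j) : Poly (fun x => th al (j x)) := by
  unfold th
  fun_prop

theorem PolyRed1_rk (L : ℕ) (al : List ℕ) (b ℓ C : ℕ) {G : α → Game R₁ R₂} {μ ω : α → ℕ}
    (hG : Poly G) (hμ : Poly μ)
    (hω : Poly ω) : Poly (fun x => rk1 (G x) L al b ℓ C (μ x) (ω x)) := by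
  unfold rk1
  have hJ : Poly (fun x => ag1J L b R₁ (ω x)) := by unfold ag1J; fun_prop
  have ht := PolyRed1_th al hJ
  have hkm : Poly (fun x => ag1W b R₁ (μ x)) := by unfold ag1W; fun_prop
  have hkw : Poly (fun x => ag1W b R₁ (ω x)) := by unfold ag1W; fun_prop
  have hvm : Poly (fun x => ag1V L b R₁ C (μ x)) := by unfold ag1V; fun_prop
  have hvw : Poly (fun x => ag1V L b R₁ C (ω x)) := by unfold ag1V; fun_prop
  have h1 := PolyRed1_adjn b (π := fun _ : α => (id : Fin R₁ → Fin R₁)) (τ := fun _ => id)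
    ht ht (FP.Poly.const _) (FP.Poly.const _) hkm hkw
  have h2 := PolyRed1_cross b ℓ (s := fun _ : α => th al L) (FP.Poly.const _) ht hG hvm hvw hkm hkw
  have h3 : Poly (fun x => ag1C L b R₁ C (ω x)) := by unfold ag1C; fun_prop
  have h4 : Poly (fun x => ag1C L b R₁ C (μ x)) := by unfold ag1C; fun_prop
  refine FP.Poly.ite (PolyPred.and (PolyPred.eq (by fun_prop) (by fun_prop)) h1.pred) (FP.Poly.const _) ?_
  refine FP.Poly.ite h2.pred (by fun_prop) (FP.Poly.const _)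

end

theorem poly_nT1 (R₁ R₂ L b ℓ C : ℕ) : Poly (fun G : Game R₁ R₂ => nT1 G L b ℓ C) := by
  unfold nT1
  fun_prop

theorem PolyRed1_bdd (R₁ R₂ L b ℓ C : ℕ) : PolyBdd (fun G : Game R₁ R₂ => nT1 G L b ℓ C) := by
  unfold nT1
  exact ((PolyBdd.length FP.Poly.ident).pow (ℓ + 1)).mul (PolyBdd.const C) |>.mul (PolyBdd.const _)

theorem poly_red1 (R₁ R₂ L : ℕ) (al : List ℕ) (b ℓ C : ℕ) [NeZero R₂] :
    Poly (fun G : Game R₁ R₂ => red1 G L al b ℓ C) := by
  unfold red1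
  have hT := poly_nT1 R₁ R₂ L b ℓ C
  have hB := PolyRed1_bdd R₁ R₂ L b ℓ C
  have hr1 : Poly (fun G : Game R₁ R₂ => List.range (nT1 G L b ℓ C)) := FP.Poly.range hT hB
  have hr2 : Poly (fun G : Game R₁ R₂ => List.range (2 * nT1 G L b ℓ C)) :=
    FP.Poly.range (by fun_prop) ((PolyBdd.const 2).mul hB)
  have hTp : Poly (fun p : Game R₁ R₂ × ℕ => nT1 p.1 L b ℓ C) := hT.comp FP.Poly.fst'
  have hrp : Poly (fun p : Game R₁ R₂ × ℕ => List.range (nT1 p.1 L b ℓ C)) := hr1.comp FP.Poly.fst'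
  have hTq : Poly (fun p : ((Game R₁ R₂ × ℕ) × ℕ) × (ℕ × ℕ) => nT1 p.1.1.1 L b ℓ C) :=
    hT.comp (by fun_prop)
  refine FP.Poly.pair (FP.Poly.map hr2 ?_) (FP.Poly.map hr2 ?_)
  · refine FP.Poly.ite (PolyPred.lt (FP.Poly.snd') hTp) (FP.Poly.append (FP.Poly.filterMap hrp ?_) ?_) ?_
    · refine FP.Poly.optionMap (f := fun p : (Game R₁ R₂ × ℕ) × ℕ => rk1 p.1.1 L al b ℓ C p.1.2 p.2)
        (g := fun p r => (p.2, r.1 * nT1 p.1.1 L b ℓ C + p.2))
        (PolyRed1_rk L al b ℓ C (by fun_prop) (by fun_prop) (by fun_prop)) (by fun_prop)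
    · fun_prop
    · fun_prop
  · refine FP.Poly.ite (PolyPred.lt (FP.Poly.snd') hTp) (FP.Poly.append (FP.Poly.filterMap hrp ?_) ?_) ?_
    · refine FP.Poly.optionMap (f := fun p : (Game R₁ R₂ × ℕ) × ℕ => rk1 p.1.1 L al b ℓ C p.2 p.1.2)
        (g := fun p r => (p.2, r.2))
        (PolyRed1_rk L al b ℓ C (by fun_prop) (by fun_prop) (by fun_prop)) (by fun_prop)
    · fun_prop
    · fun_prop

end OST
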