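import Pool.Agent.SMT.NoCase
import Pool.Agent.OST.CoreLemma

/-!
# MODULE NoCase: independent families are small (asymmetric version)

`no_case1`: adapt `Pool/Agent/SMT/NoCase.lean` (import it: `NoCase_ws`, `NoCase_card`, `NoCase_word`
are there), `d = 1`, `L v = L1 (A v) ∪ L2 (B v)`, at most `2 * T0 + 1` elements; apply `ug_no`.
`IndepFam1.mono`: a smaller threshold `t' ≤ t` makes more words adjacent, so a family without cross
pairs for `t'` has none for `t`.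
-/

namespace OST

open Finset SMT

/-- `S` is a set of tuples, each with a set `A v` (of men) and a set `B v` (of women) of at least `h`
words, with no cross pair between any `A v` and any `B u`. -/
def IndepFam1 {R₁ R₂ : ℕ} [NeZero R₂] (G : Game R₁ R₂) (s t b ℓ h : ℕ) (S : Finset ℕ) : Prop :=
  ∃ A B : ℕ → Finset ℕ, ∀ v ∈ S, A v ⊆ range (nw b R₁) ∧ B v ⊆ range (nw b R₁) ∧
    h ≤ (A v).card ∧ h ≤ (B v).card ∧
    ∀ u ∈ S, ∀ k ∈ A v, ∀ l ∈ B u, cross1 G s t b ℓ v u k l = false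

theorem cross1_mono {R₁ R₂ : ℕ} [NeZero R₂] {G : Game R₁ R₂} {s t t' b ℓ v u k l : ℕ}
    (htt : t' ≤ t) (h : cross1 G s t b ℓ v u k l = true) : cross1 G s t' b ℓ v u k l = true := by
  unfold cross1 at h ⊢
  rw [List.any_eq_true] at h ⊢
  obtain ⟨j, hj, h⟩ := h
  refine ⟨j, hj, ?_⟩
  rw [List.any_eq_true] at h ⊢
  obtain ⟨j', hj', h⟩ := h
  refine ⟨j', hj', ?_⟩
  rw [Bool.and_eq_true] at h ⊢
  refine ⟨h.1, ?_⟩
  have h2 := h.2
  unfold adjn1 at h2 ⊢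
  have h3 := of_decide_eq_true h2
  refine decide_eq_true ?_
  intro i i' hii hcon
  exact h3 i i' hii ⟨hcon.1, lt_of_lt_of_le hcon.2 htt⟩

theorem IndepFam1.mono {R₁ R₂ : ℕ} [NeZero R₂] {G : Game R₁ R₂} {s t t' b ℓ h : ℕ} {S : Finset ℕ}
    (htt : t' ≤ t) (hS : IndepFam1 G s t' b ℓ h S) : IndepFam1 G s t b ℓ h S := by
  obtain ⟨A, B, hAB⟩ := hS
  refine ⟨A, B, fun v hv => ?_⟩
  obtain ⟨h1, h2, h3, h4, h5⟩ := hAB v hv
  refine ⟨h1, h2, h3, h4, fun u hu k hk l hl => ?_⟩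
  rw [Bool.eq_false_iff]
  intro hcon
  have h6 := h5 u hu k hk l hl
  rw [cross1_mono htt hcon] at h6
  exact Bool.false_ne_true h6.symm

theorem no_case1 (s t b : ℕ) (ht : 1 ≤ t) (hts : t < s) (hs : s < b) (η : ℝ) (hη : 0 < η) :
    ∃ τ : ℕ, 1 ≤ τ ∧ ∀ (R₁ R₂ : ℕ) [NeZero R₂] (G : Game R₁ R₂) (γ : ℝ), G.DTo1 1 → G.No γ →
      ∀ (ℓ h : ℕ) (S : Finset ℕ),
      (∀ v ∈ S, v < G.length ^ (ℓ + 1)) → η * nw b R₁ ≤ h → IndepFam1 G s t b ℓ h S →
      (ℓ : ℝ) * S.card ≤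
        τ * (τ * S.card + ℓ * (2 * (ℓ : ℝ) ^ 2 * γ * (G.length : ℝ) ^ (ℓ + 1))) := by
  classical
  obtain ⟨t0, hcore⟩ := core_lemma1 s t b ht hts hs η hη
  refine ⟨2 * t0 + 1, by omega, ?_⟩
  intro R₁ R₂ _ G γ hG hno ℓ h S hS hh hfam
  obtain ⟨L1, L2, hL1, hL2, hcross⟩ := hcore R₁
  obtain ⟨A, B, hAB⟩ := hfam
  have hne : G ≠ [] := hno.1
  have hbig : ∀ X : Finset ℕ, X ⊆ range (nw b R₁) → h ≤ X.card →
      η * (b : ℝ) ^ R₁ ≤ (NoCase_ws b R₁ X).card := by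
    intro X hX hc
    rw [NoCase_card b R₁ X hX]
    have h1 : ((nw b R₁ : ℕ) : ℝ) = (b : ℝ) ^ R₁ := by
      unfold nw; push_cast; ring
    rw [h1] at hh
    exact hh.trans (by exact_mod_cast hc)
  have key := ug_no (t := 2 * t0 + 1) hG hno ℓ S hS
    (fun v => L1 (NoCase_ws b R₁ (A v)) ∪ L2 (NoCase_ws b R₁ (B v))) ?_ ?_
  · simpa using key
  · intro v _
    refine (card_union_le _ _).trans ?_
    have h1 := hL1 (NoCase_ws b R₁ (A v))
    have h2 := hL2 (NoCase_ws b R₁ (B v))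
    omega
  · intro v hv u hu j hj j' hj' hright
    by_contra hcon
    push Not at hcon
    obtain ⟨hAv, hBv, hcA, hcB, hindep⟩ := hAB v hv
    obtain ⟨hAu, hBu, hcAu, hcBu, -⟩ := hAB u hu
    obtain ⟨z, hz, w, hw, hadj⟩ := hcross (NoCase_ws b R₁ (A v)) (NoCase_ws b R₁ (B u))
      (hbig _ hAv hcA) (hbig _ hBu hcBu) R₂ (vcon G v j).2.2 (vcon G u j').2.2
      (fun y => (hG _ (vcon_mem' hne v j) y).le) (fun y => (hG _ (vcon_mem' hne u j') y).le)
      (fun i hi i' hi' => hcon i (mem_union_left _ hi) i' (mem_union_right _ hi'))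
    have hzA := (mem_filter.1 hz).2
    have hwB := (mem_filter.1 hw).2
    have hfalse := hindep u hu _ hzA _ hwB
    have htrue : cross1 G s t b ℓ v u ((finFunctionFinEquiv z : Fin (b ^ R₁)) : ℕ)
        ((finFunctionFinEquiv w : Fin (b ^ R₁)) : ℕ) = true := by
      unfold cross1
      rw [List.any_eq_true]
      refine ⟨j, List.mem_range.2 hj, ?_⟩
      rw [List.any_eq_true]
      refine ⟨j', List.mem_range.2 hj', ?_⟩
      rw [Bool.and_eq_true]
      refine ⟨decide_eq_true hright, ?_⟩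
      unfold adjn1
      rw [NoCase_word, NoCase_word]
      exact decide_eq_true hadj
    rw [hfalse] at htrue
    exact Bool.false_ne_true htrue

end OST
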