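import Pool.Agent.OST.RedSem2

/-!
# MODULE StableData2: the combinatorial data of a weakly stable matching of `red2 G L al b ℓ C`

Adapt `Pool/Agent/OST/StableData.lean`. Now `rw ω` is also the *coarse* rank: the woman gives `0` for the
coarse rank `0`, `r * T + μ` for the coarse rank `r ≥ 1` (`r ≤ C`) and `(C+1) * T` for the private
partner; again `rw ω = rank / T`, and a strictly smaller coarse rank gives a strictly smaller rank.
-/

namespace OST

open Finset SMT

variable {R₁ R₂ : ℕ} [NeZero R₂]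

private theorem StableData2_rk {G : Game R₁ R₂} {L : ℕ} {al : List ℕ} {b ℓ C μ ω r r' : ℕ}
    (h : rk2 G L al b ℓ C μ ω = some (r, r')) :
    (r = 0 ∧ r' = 0 ∧ μ / nN L b R₁ = ω / nN L b R₁) ∨
      (r = ag1C L b R₁ C ω + 1 ∧ r' = ag1C L b R₁ C μ + 1) := by
  unfold rk2 at h
  split_ifs at h with h1 h2
  · simp only [Option.some.injEq, Prod.mk.injEq] at h
    exact Or.inl ⟨h.1.symm, h.2.symm, h1.1⟩
  · simp only [Option.some.injEq, Prod.mk.injEq] at h
    exact Or.inr ⟨h.1.symm, h.2.symm⟩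

theorem stable_data2 (G : Game R₁ R₂) (L : ℕ) (al : List ℕ) (b ℓ C : ℕ) (hC : 1 ≤ C)
    (M : List (ℕ × ℕ)) (hM : WeaklyStable (red2 G L al b ℓ C) M) :
    ∃ (rm rw : ℕ → ℕ) (Pr : Finset (ℕ × ℕ)),
      (∀ μ < nT1 G L b ℓ C, rm μ ≤ C + 1) ∧ (∀ ω < nT1 G L b ℓ C, rw ω ≤ C + 1) ∧
      M.length = nT1 G L b ℓ C + ((range (nT1 G L b ℓ C)).filter fun μ => rm μ = C + 1).card ∧
      (∀ κ, ((range (nT1 G L b ℓ C)).filter fun μ => μ / nN L b R₁ = κ ∧ rm μ = 0).card =
        ((range (nT1 G L b ℓ C)).filter fun ω => ω / nN L b R₁ = κ ∧ rw ω = 0).card) ∧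
      (∀ p ∈ Pr, p.1 < nT1 G L b ℓ C ∧ p.2 < nT1 G L b ℓ C ∧ rm p.1 = ag1C L b R₁ C p.2 + 1 ∧
        rw p.2 = ag1C L b R₁ C p.1 + 1) ∧
      (∀ μ < nT1 G L b ℓ C, (Pr.filter fun p => p.1 = μ).card =
        if 1 ≤ rm μ ∧ rm μ ≤ C then 1 else 0) ∧
      (∀ ω < nT1 G L b ℓ C, (Pr.filter fun p => p.2 = ω).card =
        if 1 ≤ rw ω ∧ rw ω ≤ C then 1 else 0) ∧
      (∀ μ < nT1 G L b ℓ C, ∀ ω < nT1 G L b ℓ C, ∀ r r', rk2 G L al b ℓ C μ ω = some (r, r') →
        rm μ ≤ r ∨ rw ω ≤ r') := by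
  classical
  have hRM := rankM_red2 G L al b ℓ C
  have hRW := rankW_red2 G L al b ℓ C
  have hAc := acceptable_red2 G L al b ℓ C
  generalize hT : nT1 G L b ℓ C = T at *
  generalize hI : red2 G L al b ℓ C = I at *
  have agC_lt : ∀ μ, ag1C L b R₁ C μ + 1 ≤ C := fun μ => Nat.mod_lt _ hC
  have acc : ∀ μ ω, (μ, ω) ∈ M → (μ < T ∧ ω < T ∧ (rk2 G L al b ℓ C μ ω).isSome = true) ∨
      (μ < T ∧ ω = T + μ) ∨ (ω < T ∧ μ = T + ω) := fun μ ω h => (hAc μ ω).1 (hM.acc _ h)
  have uniqM : ∀ p ∈ M, ∀ q ∈ M, p.1 = q.1 → p = q := fun p hp q hq h =>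
    List.inj_on_of_nodup_map hM.men hp hq h
  have uniqW : ∀ p ∈ M, ∀ q ∈ M, p.2 = q.2 → p = q := fun p hp q hq h =>
    List.inj_on_of_nodup_map hM.women hp hq h
  have exM : ∀ μ < T, ∃ ω, (μ, ω) ∈ M := by
    intro μ hμ
    by_contra hne
    push Not at hne
    refine hM.stable μ (T + μ) ((hAc μ (T + μ)).2 (Or.inr (Or.inl ⟨hμ, rfl⟩))) ⟨?_, ?_⟩
    · intro j' hj'
      exact absurd hj' (hne j')
    · intro i' hi'
      rcases acc _ _ hi' with ⟨_, h2, _⟩ | ⟨_, h2⟩ | ⟨h1, _⟩
      · omega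
      · have : i' = μ := by omega
        subst this
        exact absurd hi' (hne _)
      · omega
  have exW : ∀ ω < T, ∃ μ, (μ, ω) ∈ M := by
    intro ω hω
    by_contra hne
    push Not at hne
    refine hM.stable (T + ω) ω ((hAc (T + ω) ω).2 (Or.inr (Or.inr ⟨hω, rfl⟩))) ⟨?_, ?_⟩
    · intro j' hj'
      rcases acc _ _ hj' with ⟨h1, _, _⟩ | ⟨h1, _⟩ | ⟨_, h2⟩
      · omega
      · omega
      · have : j' = ω := by omega
        subst this
        exact absurd hj' (hne _)
    · intro i' hi'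
      exact absurd hi' (hne i')
  -- the ranks of the partners
  obtain ⟨rm, hrm⟩ : ∃ rm : ℕ → ℕ, ∀ μ ω, (μ, ω) ∈ M → rm μ = (rankM I μ ω).getD 0 / T := by
    refine ⟨fun μ => if h : ∃ ω, (μ, ω) ∈ M then (rankM I μ h.choose).getD 0 / T else 0, ?_⟩
    intro μ ω h
    have h' : ∃ ω, (μ, ω) ∈ M := ⟨ω, h⟩
    have := uniqM _ h'.choose_spec _ h rfl
    simp only [Prod.mk.injEq, true_and] at this
    simp only [dif_pos h', this]
  obtain ⟨rw', hrw⟩ : ∃ rw' : ℕ → ℕ, ∀ μ ω, (μ, ω) ∈ M → rw' ω = (rankW I ω μ).getD 0 / T := by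
    refine ⟨fun ω => if h : ∃ μ, (μ, ω) ∈ M then (rankW I ω h.choose).getD 0 / T else 0, ?_⟩
    intro μ ω h
    have h' : ∃ μ, (μ, ω) ∈ M := ⟨μ, h⟩
    have := uniqW _ h'.choose_spec _ h rfl
    simp only [Prod.mk.injEq, and_true] at this
    simp only [dif_pos h', this]
  have case1 : ∀ μ ω, (μ, ω) ∈ M → μ < T → ω < T →
      rk2 G L al b ℓ C μ ω = some (rm μ, rw' ω) := by
    intro μ ω h h1 h2
    have hs : (rk2 G L al b ℓ C μ ω).isSome = true := by
      rcases acc _ _ h with ⟨_, _, h3⟩ | ⟨_, h3⟩ | ⟨_, h3⟩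
      · exact h3
      · omega
      · omega
    obtain ⟨r, hr⟩ := Option.isSome_iff_exists.1 hs
    have e1 := hrm μ ω h
    have e2 := hrw μ ω h
    rw [hRM μ ω, if_pos h1, if_pos h2, hr] at e1
    rw [hRW μ ω, if_pos h2, if_pos h1, hr] at e2
    simp only [Option.map_some, Option.getD_some] at e1 e2
    have hd : (r.1 * T + ω) / T = r.1 := by
      rw [Nat.mul_comm, Nat.mul_add_div (by omega), Nat.div_eq_of_lt h2, Nat.add_zero]
    have hd' : (if r.2 = 0 then 0 else r.2 * T + μ) / T = r.2 := by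
      split_ifs with h0
      · rw [h0, Nat.zero_div]
      · rw [Nat.mul_comm, Nat.mul_add_div (by omega), Nat.div_eq_of_lt h1, Nat.add_zero]
    rw [hd] at e1
    rw [hd'] at e2
    rw [hr, e1, e2]
  have case2 : ∀ μ ω, (μ, ω) ∈ M → ¬ ω < T → μ < T ∧ ω = T + μ ∧ rm μ = C + 1 := by
    intro μ ω h h2
    have h3 : μ < T ∧ ω = T + μ := by
      rcases acc _ _ h with ⟨_, h4, _⟩ | h3 | ⟨h4, _⟩
      · exact absurd h4 h2
      · exact h3
      · exact absurd h4 h2
    have e1 := hrm μ ω h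
    rw [hRM μ ω, if_pos h3.1, if_neg h2, if_pos h3.2] at e1
    simp only [Option.getD_some] at e1
    have hT0 : 0 < T := by omega
    rw [Nat.mul_div_cancel _ hT0] at e1
    exact ⟨h3.1, h3.2, e1⟩
  have case3 : ∀ μ ω, (μ, ω) ∈ M → ¬ μ < T → ω < T ∧ μ = T + ω ∧ rw' ω = C + 1 := by
    intro μ ω h h2
    have h3 : ω < T ∧ μ = T + ω := by
      rcases acc _ _ h with ⟨h4, _⟩ | ⟨h4, _⟩ | h3
      · exact absurd h4 h2
      · exact absurd h4 h2
      · exact h3
    have e1 := hrw μ ω h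
    rw [hRW μ ω, if_pos h3.1, if_neg h2, if_pos h3.2] at e1
    simp only [Option.getD_some] at e1
    have hT0 : 0 < T := by omega
    rw [Nat.mul_div_cancel _ hT0] at e1
    exact ⟨h3.1, h3.2, e1⟩
  have rmC : ∀ μ ω, (μ, ω) ∈ M → μ < T → ω < T → rm μ ≤ C ∧ rw' ω ≤ C := by
    intro μ ω h h1 h2
    rcases StableData2_rk (case1 μ ω h h1 h2) with ⟨e1, e2, _⟩ | ⟨e1, e2⟩
    · rw [e1, e2]; exact ⟨Nat.zero_le _, Nat.zero_le _⟩
    · rw [e1, e2]; exact ⟨agC_lt _, agC_lt _⟩
  have hnd : M.Nodup := List.Nodup.of_map _ hM.men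
  refine ⟨rm, rw', M.toFinset.filter fun p => p.1 < T ∧ p.2 < T ∧
    rk2 G L al b ℓ C p.1 p.2 ≠ some (0, 0), ?_, ?_, ?_, ?_, ?_, ?_, ?_, ?_⟩
  · intro μ hμ
    obtain ⟨ω, h⟩ := exM μ hμ
    by_cases h2 : ω < T
    · have := (rmC μ ω h hμ h2).1; omega
    · exact (case2 μ ω h h2).2.2.le
  · intro ω hω
    obtain ⟨μ, h⟩ := exW ω hω
    by_cases h2 : μ < T
    · have := (rmC μ ω h h2 hω).2; omega
    · exact (case3 μ ω h h2).2.2.le
  · rw [← List.toFinset_card_of_nodup hnd,
      ← Finset.card_filter_add_card_filter_not (s := M.toFinset) (fun p : ℕ × ℕ => p.2 < T)]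
    congr 1
    · have : (M.toFinset.filter fun p : ℕ × ℕ => p.2 < T).card = (range T).card := by
        refine Finset.card_bij (fun p _ => p.2) ?_ ?_ ?_
        · intro p hp
          exact mem_range.2 (mem_filter.1 hp).2
        · intro p hp q hq h
          exact uniqW p (List.mem_toFinset.1 (mem_filter.1 hp).1) q
            (List.mem_toFinset.1 (mem_filter.1 hq).1) h
        · intro ω hω
          obtain ⟨μ, h⟩ := exW ω (mem_range.1 hω)
          exact ⟨(μ, ω), mem_filter.2 ⟨List.mem_toFinset.2 h, mem_range.1 hω⟩, rfl⟩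
      rw [this, card_range]
    · refine Finset.card_bij (fun p _ => p.1) ?_ ?_ ?_
      · intro p hp
        obtain ⟨h1, h2⟩ := mem_filter.1 hp
        obtain ⟨h3, h4, h5⟩ := case2 p.1 p.2 (List.mem_toFinset.1 h1) h2
        exact mem_filter.2 ⟨mem_range.2 h3, h5⟩
      · intro p hp q hq h
        exact uniqM p (List.mem_toFinset.1 (mem_filter.1 hp).1) q
          (List.mem_toFinset.1 (mem_filter.1 hq).1) h
      · intro μ hμ
        obtain ⟨h1, h2⟩ := mem_filter.1 hμ
        obtain ⟨ω, h⟩ := exM μ (mem_range.1 h1)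
        refine ⟨(μ, ω), mem_filter.2 ⟨List.mem_toFinset.2 h, ?_⟩, rfl⟩
        intro h3
        have := (rmC μ ω h (mem_range.1 h1) h3).1
        omega
  · intro κ
    set X := M.toFinset.filter fun p : ℕ × ℕ => p.1 < T ∧ p.2 < T ∧
      rk2 G L al b ℓ C p.1 p.2 = some (0, 0) ∧ p.1 / nN L b R₁ = κ with hX
    have q1 : X.card = ((range T).filter fun μ => μ / nN L b R₁ = κ ∧ rm μ = 0).card := by
      refine Finset.card_bij (fun p _ => p.1) ?_ ?_ ?_
      · intro p hp
        obtain ⟨h1, h2, h3, h4, h5⟩ := mem_filter.1 hp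
        have := case1 p.1 p.2 (List.mem_toFinset.1 h1) h2 h3
        rw [h4] at this
        simp only [Option.some.injEq, Prod.mk.injEq] at this
        exact mem_filter.2 ⟨mem_range.2 h2, h5, this.1.symm⟩
      · intro p hp q hq h
        exact uniqM p (List.mem_toFinset.1 (mem_filter.1 hp).1) q
          (List.mem_toFinset.1 (mem_filter.1 hq).1) h
      · intro μ hμ
        obtain ⟨h1, h2, h3⟩ := mem_filter.1 hμ
        obtain ⟨ω, h⟩ := exM μ (mem_range.1 h1)
        have hω : ω < T := by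
          by_contra hω
          have := (case2 μ ω h hω).2.2
          omega
        have hc := case1 μ ω h (mem_range.1 h1) hω
        refine ⟨(μ, ω), mem_filter.2 ⟨List.mem_toFinset.2 h, mem_range.1 h1, hω, ?_, h2⟩, rfl⟩
        rcases StableData2_rk hc with ⟨e1, e2, _⟩ | ⟨e1, e2⟩
        · rw [hc, e1, e2]
        · omega
    have q2 : X.card = ((range T).filter fun ω => ω / nN L b R₁ = κ ∧ rw' ω = 0).card := by
      refine Finset.card_bij (fun p _ => p.2) ?_ ?_ ?_
      · intro p hp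
        obtain ⟨h1, h2, h3, h4, h5⟩ := mem_filter.1 hp
        have := case1 p.1 p.2 (List.mem_toFinset.1 h1) h2 h3
        rw [h4] at this
        simp only [Option.some.injEq, Prod.mk.injEq] at this
        refine mem_filter.2 ⟨mem_range.2 h3, ?_, this.2.symm⟩
        rcases StableData2_rk h4 with ⟨_, _, e⟩ | ⟨e1, e2⟩
        · rw [← e]; exact h5
        · omega
      · intro p hp q hq h
        exact uniqW p (List.mem_toFinset.1 (mem_filter.1 hp).1) q
          (List.mem_toFinset.1 (mem_filter.1 hq).1) h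
      · intro ω hω
        obtain ⟨h1, h2, h3⟩ := mem_filter.1 hω
        obtain ⟨μ, h⟩ := exW ω (mem_range.1 h1)
        have hμ : μ < T := by
          by_contra hμ
          have := (case3 μ ω h hμ).2.2
          omega
        have hc := case1 μ ω h hμ (mem_range.1 h1)
        rcases StableData2_rk hc with ⟨e1, e2, e3⟩ | ⟨e1, e2⟩
        · refine ⟨(μ, ω), mem_filter.2 ⟨List.mem_toFinset.2 h, hμ, mem_range.1 h1, ?_, ?_⟩, rfl⟩
          · rw [hc, e1, e2]
          · rw [e3]; exact h2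
        · omega
    rw [← q1, q2]
  · intro p hp
    obtain ⟨h1, h2, h3, h4⟩ := mem_filter.1 hp
    have hc := case1 p.1 p.2 (List.mem_toFinset.1 h1) h2 h3
    rcases StableData2_rk hc with ⟨e1, e2, _⟩ | ⟨e1, e2⟩
    · exact absurd (by rw [hc, e1, e2]) h4
    · exact ⟨h2, h3, e1, e2⟩
  · intro μ hμ
    obtain ⟨ω, h⟩ := exM μ hμ
    by_cases hω : ω < T
    · have hc := case1 μ ω h hμ hω
      rcases StableData2_rk hc with ⟨e1, e2, _⟩ | ⟨e1, e2⟩
      · rw [if_neg (by omega), Finset.card_eq_zero, Finset.filter_eq_empty_iff]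
        intro p hp hpμ
        obtain ⟨h1, h2, h3, h4⟩ := mem_filter.1 hp
        have := uniqM p (List.mem_toFinset.1 h1) _ h hpμ
        subst this
        exact h4 (by rw [hc, e1, e2])
      · have hle := (rmC μ ω h hμ hω).1
        rw [if_pos ⟨by omega, hle⟩, Finset.card_eq_one]
        refine ⟨(μ, ω), ?_⟩
        ext p
        rw [mem_filter, mem_singleton]
        constructor
        · rintro ⟨hp, hpμ⟩
          obtain ⟨h1, _⟩ := mem_filter.1 hp
          exact uniqM p (List.mem_toFinset.1 h1) _ h hpμ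
        · intro hp
          subst hp
          refine ⟨mem_filter.2 ⟨List.mem_toFinset.2 h, hμ, hω, ?_⟩, rfl⟩
          rw [hc]
          intro hcon
          simp only [Option.some.injEq, Prod.mk.injEq] at hcon
          omega
    · have h3 := (case2 μ ω h hω).2.2
      rw [if_neg (by omega), Finset.card_eq_zero, Finset.filter_eq_empty_iff]
      intro p hp hpμ
      obtain ⟨h1, h2, h3, h4⟩ := mem_filter.1 hp
      have := uniqM p (List.mem_toFinset.1 h1) _ h hpμ
      subst this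
      exact hω h3
  · intro ω hω
    obtain ⟨μ, h⟩ := exW ω hω
    by_cases hμ : μ < T
    · have hc := case1 μ ω h hμ hω
      rcases StableData2_rk hc with ⟨e1, e2, _⟩ | ⟨e1, e2⟩
      · rw [if_neg (by omega), Finset.card_eq_zero, Finset.filter_eq_empty_iff]
        intro p hp hpμ
        obtain ⟨h1, h2, h3, h4⟩ := mem_filter.1 hp
        have := uniqW p (List.mem_toFinset.1 h1) _ h hpμ
        subst this
        exact h4 (by rw [hc, e1, e2])
      · have hle := (rmC μ ω h hμ hω).2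
        rw [if_pos ⟨by omega, hle⟩, Finset.card_eq_one]
        refine ⟨(μ, ω), ?_⟩
        ext p
        rw [mem_filter, mem_singleton]
        constructor
        · rintro ⟨hp, hpμ⟩
          obtain ⟨h1, _⟩ := mem_filter.1 hp
          exact uniqW p (List.mem_toFinset.1 h1) _ h hpμ
        · intro hp
          subst hp
          refine ⟨mem_filter.2 ⟨List.mem_toFinset.2 h, hμ, hω, ?_⟩, rfl⟩
          rw [hc]
          intro hcon
          simp only [Option.some.injEq, Prod.mk.injEq] at hcon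
          omega
    · have h3 := (case3 μ ω h hμ).2.2
      rw [if_neg (by omega), Finset.card_eq_zero, Finset.filter_eq_empty_iff]
      intro p hp hpμ
      obtain ⟨h1, h2, h3, h4⟩ := mem_filter.1 hp
      have := uniqW p (List.mem_toFinset.1 h1) _ h hpμ
      subst this
      exact hμ h2
  · intro μ hμ ω hω r r' hr
    by_contra hcon
    push Not at hcon
    refine hM.stable μ ω ((hAc μ ω).2 (Or.inl ⟨hμ, hω, by rw [hr]; rfl⟩)) ⟨?_, ?_⟩
    · intro j' hj'
      have h1 := hrm μ j' hj'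
      have h2 := hcon.1
      rw [h1] at h2
      have hT0 : 0 < T := by omega
      have h3 : (r + 1) * T ≤ (rankM I μ j').getD 0 := (Nat.le_div_iff_mul_le hT0).1 h2
      rw [hRM μ ω, if_pos hμ, if_pos hω, hr]
      simp only [Option.map_some, Option.getD_some]
      have h4 : (r + 1) * T = r * T + T := by ring
      omega
    · intro i' hi'
      have h1 := hrw i' ω hi'
      have h2 := hcon.2
      rw [h1] at h2
      have hT0 : 0 < T := by omega
      have h3 : (r' + 1) * T ≤ (rankW I ω i').getD 0 := (Nat.le_div_iff_mul_le hT0).1 h2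
      rw [hRW μ ω, if_pos hω, if_pos hμ, hr]
      simp only [Option.map_some, Option.getD_some]
      have h4 : (r' + 1) * T = r' * T + T := by ring
      split_ifs with h0 <;> omega

end OST
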