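import Pool.Agent.SMT.Flow
import Pool.Agent.OST.Sound
import Pool.Agent.OST.StableData2

/-!
# MODULE Sound2: from `flow` to a bound on the size of a weakly stable matching of `red2`

The proof of `Pool/Agent/OST/Sound.lean`, with `stable_data2` for `stable_data1` and `rk2` for `rk1`.
-/

namespace OST

open Finset SMT

variable {R₁ R₂ : ℕ} [NeZero R₂]

private lemma Sound2_card (T : ℕ) (P : ℕ → Prop) [DecidablePred P] :
    (filter (fun x : Fin T => P (x : ℕ)) univ).card = ((range T).filter P).card := by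
  rw [← Finset.card_map Fin.valEmbedding]
  congr 1
  ext x
  simp only [mem_map, mem_filter, mem_univ, true_and, Fin.valEmbedding_apply, mem_range]
  constructor
  · rintro ⟨y, hy, rfl⟩
    exact ⟨y.2, hy⟩
  · rintro ⟨hx, hP⟩
    exact ⟨⟨x, hx⟩, hP, rfl⟩

private lemma Sound2_lt {nV C N v c k : ℕ} (hv : v < nV) (hc : c < C) (hk : k < N) :
    (v * C + c) * N + k < nV * C * N := by
  have h1 : v * C + c + 1 ≤ nV * C := by
    calc v * C + c + 1 ≤ v * C + C := by omega
      _ = (v + 1) * C := by ring
      _ ≤ nV * C := Nat.mul_le_mul_right _ hv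
  calc (v * C + c) * N + k < (v * C + c) * N + N := by omega
    _ = (v * C + c + 1) * N := by ring
    _ ≤ nV * C * N := Nat.mul_le_mul_right _ h1

private lemma Sound2_div {N q k : ℕ} (hk : k < N) : (q * N + k) / N = q := by
  rw [add_comm, Nat.add_mul_div_right _ _ (by omega), Nat.div_eq_of_lt hk, zero_add]

private lemma Sound2_mod {N q k : ℕ} (hk : k < N) : (q * N + k) % N = k := by
  rw [add_comm, Nat.add_mul_mod_self_right, Nat.mod_eq_of_lt hk]

/-- the members of a node, in terms of the places -/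
private lemma Sound2_node (nV C N v c : ℕ) (hv : v < nV) (hc : c < C) (Q : ℕ → Prop)
    [DecidablePred Q] :
    ((range (nV * C * N)).filter fun x => x / N = v * C + c ∧ Q x).card =
      ((range N).filter fun k => Q ((v * C + c) * N + k)).card := by
  symm
  apply Finset.card_bij (fun k _ => (v * C + c) * N + k)
  · intro k hk
    simp only [mem_filter, mem_range] at hk ⊢
    exact ⟨Sound2_lt hv hc hk.1, Sound2_div hk.1, hk.2⟩
  · intro k _ k' _ h
    simpa using h
  · intro x hx
    simp only [mem_filter, mem_range] at hx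
    obtain ⟨hxT, hxN, hQ⟩ := hx
    have hN : 0 < N := by
      rcases Nat.eq_zero_or_pos N with h | h
      · rw [h] at hxT; simp at hxT
      · exact h
    have e : (v * C + c) * N + x % N = x := by
      rw [← hxN, mul_comm]
      exact Nat.div_add_mod x N
    refine ⟨x % N, ?_, e⟩
    simp only [mem_filter, mem_range]
    exact ⟨Nat.mod_lt _ hN, by rw [e]; exact hQ⟩

private lemma Sound2_nodeEq {C q v c : ℕ} (hc : c < C) :
    (q / C = v ∧ q % C = c) ↔ q = v * C + c := by
  constructor
  · rintro ⟨rfl, rfl⟩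
    rw [mul_comm]
    exact (Nat.div_add_mod q C).symm
  · rintro rfl
    exact ⟨Sound2_div hc, Sound2_mod hc⟩

/-- the pigeonhole principle over the classes -/
private lemma Sound2_pigeon (W L h : ℕ) (hL : 1 ≤ L) (hW : 0 < W) (Q : ℕ → Prop) [DecidablePred Q]
    (hc : L * h ≤ ((range (W * L)).filter Q).card) :
    ∃ j < L, h ≤ ((range W).filter fun k => Q (j * W + k)).card := by
  obtain ⟨j, hj, hh⟩ := Finset.exists_le_card_fiber_of_mul_le_card_of_maps_to
    (s := (range (W * L)).filter Q) (t := range L) (f := fun x => x / W) (n := h)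
    (by
      intro x hx
      simp only [mem_filter, mem_range] at hx ⊢
      exact Nat.div_lt_of_lt_mul hx.1)
    ⟨0, Finset.mem_range.2 (by omega)⟩ (by simpa using hc)
  refine ⟨j, by simpa using hj, hh.trans ?_⟩
  apply Finset.card_le_card_of_injOn (fun x => x % W)
  · intro x hx
    simp only [coe_filter, mem_filter, mem_range, Set.mem_ofPred_eq] at hx ⊢
    obtain ⟨⟨h1, h2⟩, h3⟩ := hx
    refine ⟨Nat.mod_lt _ hW, ?_⟩
    have : j * W + x % W = x := by
      rw [← h3, mul_comm]
      exact Nat.div_add_mod x W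
    rw [this]
    exact h2
  · intro x hx y hy hxy
    simp only [coe_filter, mem_filter, mem_range, Set.mem_ofPred_eq] at hx hy
    have e1 := Nat.div_add_mod x W
    have e2 := Nat.div_add_mod y W
    rw [hx.2] at e1
    rw [hy.2] at e2
    have e3 : x % W = y % W := hxy
    rw [e3] at e1
    omega

theorem sound2 (G : Game R₁ R₂) (hG : G ≠ []) (L : ℕ) (al : List ℕ) (b ℓ m n h β : ℕ) (hL : 1 ≤ L)
    (hmono : ∀ t < L, th al t ≤ th al (L - 1)) (hb : 1 ≤ b) (hm : 1 ≤ m)
    (hn : 1 ≤ n) (hh : 1 ≤ h)
    (hβ : ∀ S : Finset ℕ, (∀ v ∈ S, v < G.length ^ (ℓ + 1)) →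
      IndepFam1 G (th al L) (th al (L - 1)) b ℓ h S → S.card ≤ β)
    (M : List (ℕ × ℕ)) (hM : WeaklyStable (red2 G L al b ℓ (m ^ (n + 1))) M) :
    n * M.length ≤ n * nT1 G L b ℓ (m ^ (n + 1)) +
      (nN L b R₁ * m ^ (n + 1) * G.length ^ (ℓ + 1) +
        n * (2 * nN L b R₁ * m ^ (n + 1) * (m ^ (n + 1) * m ^ (n + 1) * (L * L * β)) +
          5 * (L * h) * m ^ (n + 1) * G.length ^ (ℓ + 1) +
          2 * nN L b R₁ * G.length ^ (ℓ + 1) * m ^ n)) := by
  classical
  have hC : 1 ≤ m ^ (n + 1) := Nat.one_le_pow _ _ hm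
  obtain ⟨rm, rw', Pr, h1, h2, hlen, h0, hPr, hPrm, hPrw, hstab⟩ :=
    stable_data2 G L al b ℓ (m ^ (n + 1)) hC M hM
  have hTdef : nT1 G L b ℓ (m ^ (n + 1)) = G.length ^ (ℓ + 1) * m ^ (n + 1) * nN L b R₁ := rfl
  have hNW : nN L b R₁ = nw b R₁ * L := rfl
  have hWpos : 0 < nw b R₁ := Nat.pow_pos hb
  have hNpos : 0 < nN L b R₁ := by rw [hNW]; exact Nat.mul_pos hWpos hL
  set W := nw b R₁ with hWd
  set N := nN L b R₁ with hNd
  set C := m ^ (n + 1) with hCd
  set nV := G.length ^ (ℓ + 1) with hnVd
  set T := nT1 G L b ℓ C with hTd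
  have hdiv : ∀ x : Fin T, (x : ℕ) / N / C < nV := by
    intro x
    rw [Nat.div_div_eq_div_mul]
    apply Nat.div_lt_of_lt_mul
    have := x.2
    calc (x : ℕ) < T := x.2
      _ = N * C * nV := by rw [hTdef]; ring
  have hmod : ∀ x : Fin T, (x : ℕ) / N % C < C := fun x => Nat.mod_lt _ hC
  set nm : Fin T → Fin nV × Fin C := fun x => (⟨(x : ℕ) / N / C, hdiv x⟩, ⟨(x : ℕ) / N % C, hmod x⟩)
    with hnm
  have hnode : ∀ (x : Fin T) (κ : Fin nV × Fin C), nm x = κ ↔ (x : ℕ) / N = κ.1 * C + κ.2 := by
    intro x κ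
    rw [← Sound2_nodeEq κ.2.2]
    constructor
    · rintro rfl
      exact ⟨rfl, rfl⟩
    · rintro ⟨e1, e2⟩
      apply Prod.ext
      · exact Fin.ext e1
      · exact Fin.ext e2
  have hcount : ∀ (κ : Fin nV × Fin C) (Q : ℕ → Prop) [DecidablePred Q],
      (filter (fun x : Fin T => nm x = κ ∧ Q (x : ℕ)) univ).card =
        ((range N).filter fun k => Q ((κ.1 * C + κ.2) * N + k)).card := by
    intro κ Q _
    rw [← Sound2_node nV C N κ.1 κ.2 κ.1.2 κ.2.2 Q, ← hTdef,
      ← Sound2_card T (fun x => x / N = (κ.1 : ℕ) * C + κ.2 ∧ Q x)]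
    congr 1
    apply Finset.filter_congr
    intro x _
    rw [hnode]
  have hNm : ∀ κ, (filter (fun x : Fin T => nm x = κ) univ).card = N := by
    intro κ
    have := hcount κ (fun _ => True)
    simpa using this
  set Pr' : Finset (Fin T × Fin T) := univ.filter fun p => ((p.1 : ℕ), (p.2 : ℕ)) ∈ Pr with hPr'
  have hPmap : ∀ Q : ℕ × ℕ → Prop, ∀ [DecidablePred Q],
      (Pr'.filter fun p => Q ((p.1 : ℕ), (p.2 : ℕ))).card = (Pr.filter Q).card := by
    intro Q _
    apply Finset.card_bij (fun p _ => ((p.1 : ℕ), (p.2 : ℕ)))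
    · intro p hp
      simp only [hPr', mem_filter, mem_univ, true_and] at hp ⊢
      exact hp
    · intro p _ q _ hpq
      simp only [Prod.mk.injEq] at hpq
      exact Prod.ext (Fin.ext hpq.1) (Fin.ext hpq.2)
    · intro q hq
      rw [mem_filter] at hq
      obtain ⟨g1, g2, -, -⟩ := hPr q hq.1
      refine ⟨(⟨q.1, g1⟩, ⟨q.2, g2⟩), ?_, rfl⟩
      simp only [hPr', mem_filter, mem_univ, true_and]
      exact hq
  have hjk : ∀ {j k : ℕ}, j < L → k < W → j * W + k < N := by
    intro j k hj hk
    calc j * W + k < j * W + W := by omega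
      _ = (j + 1) * W := by ring
      _ ≤ L * W := Nat.mul_le_mul_right _ hj
      _ = N := by rw [hNW, mul_comm]
  -- the bad tuples
  set S : ℕ → ℕ → ℕ → ℕ → Finset ℕ := fun c s j t => (range nV).filter fun v =>
    h ≤ ((range W).filter fun k => s + 1 < rm ((v * C + c) * N + (j * W + k))).card ∧
    h ≤ ((range W).filter fun l => c + 1 < rw' ((v * C + s) * N + (t * W + l))).card with hS
  have hSβ : ∀ c < C, ∀ s < C, ∀ j < L, ∀ t < L, (S c s j t).card ≤ β := by
    intro c hc s hs j hj t ht
    apply hβ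
    · intro v hv
      simp only [hS, mem_filter, mem_range] at hv
      exact hv.1
    · apply IndepFam1.mono (hmono t ht)
      refine ⟨fun v => (range W).filter fun k => s + 1 < rm ((v * C + c) * N + (j * W + k)),
        fun v => (range W).filter fun l => c + 1 < rw' ((v * C + s) * N + (t * W + l)), ?_⟩
      intro v hv
      simp only [hS, mem_filter, mem_range] at hv
      refine ⟨filter_subset _ _, filter_subset _ _, hv.2.1, hv.2.2, ?_⟩
      intro u hu k hk l hl
      simp only [hS, mem_filter, mem_range] at hu hk hl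
      by_contra hcon
      rw [Bool.not_eq_false] at hcon
      have lk := hjk hj hk.1
      have ll := hjk ht hl.1
      have f1 : ((v * C + c) * N + (j * W + k)) / N = v * C + c := Sound2_div lk
      have f2 : ((u * C + s) * N + (t * W + l)) / N = u * C + s := Sound2_div ll
      have e1 : ag1W b R₁ ((v * C + c) * N + (j * W + k)) = k := by
        have e : (v * C + c) * N + (j * W + k) = ((v * C + c) * L + j) * W + k := by
          rw [hNW]; ring
        rw [e]
        exact Sound2_mod hk.1
      have e2 : ag1W b R₁ ((u * C + s) * N + (t * W + l)) = l := by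
        have e : (u * C + s) * N + (t * W + l) = ((u * C + s) * L + t) * W + l := by
          rw [hNW]; ring
        rw [e]
        exact Sound2_mod hl.1
      have e3 : ag1C L b R₁ C ((v * C + c) * N + (j * W + k)) = c := by
        unfold ag1C
        rw [← hNd, f1, Sound2_mod hc]
      have e4 : ag1C L b R₁ C ((u * C + s) * N + (t * W + l)) = s := by
        unfold ag1C
        rw [← hNd, f2, Sound2_mod hs]
      have e5 : ag1V L b R₁ C ((v * C + c) * N + (j * W + k)) = v := by
        unfold ag1V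
        rw [← hNd, f1, Sound2_div hc]
      have e6 : ag1V L b R₁ C ((u * C + s) * N + (t * W + l)) = u := by
        unfold ag1V
        rw [← hNd, f2, Sound2_div hs]
      have e7 : ag1J L b R₁ ((u * C + s) * N + (t * W + l)) = t := by
        unfold ag1J
        rw [← hNd, ← hWd, Sound2_mod ll, Sound2_div hl.1]
      have l1 : (v * C + c) * N + (j * W + k) < T := by rw [hTdef]; exact Sound2_lt hv.1 hc lk
      have l2 : (u * C + s) * N + (t * W + l) < T := by rw [hTdef]; exact Sound2_lt hu.1 hs ll
      by_cases hfirst : ((v * C + c) * N + (j * W + k)) / nN L b R₁ =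
            ((u * C + s) * N + (t * W + l)) / nN L b R₁ ∧
          nadj al b R₁ (ag1J L b R₁ ((u * C + s) * N + (t * W + l)))
            (ag1J L b R₁ ((v * C + c) * N + (j * W + k)))
            (ag1W b R₁ ((v * C + c) * N + (j * W + k)))
            (ag1W b R₁ ((u * C + s) * N + (t * W + l))) = true
      · have hrk : rk2 G L al b ℓ C ((v * C + c) * N + (j * W + k))
            ((u * C + s) * N + (t * W + l)) = some (0, 0) := by
          unfold rk2
          rw [if_pos hfirst]
        rcases hstab _ l1 _ l2 0 0 hrk with g | g <;> omega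
      · have hrk : rk2 G L al b ℓ C ((v * C + c) * N + (j * W + k))
            ((u * C + s) * N + (t * W + l)) = some (s + 1, c + 1) := by
          unfold rk2
          rw [if_neg hfirst, e5, e6, e1, e2, e7, if_pos hcon, e3, e4]
        rcases hstab _ l1 _ l2 _ _ hrk with g | g <;> omega
  set Bad : Finset (Fin nV) := univ.filter fun v =>
    ∃ c < C, ∃ s < C, ∃ j < L, ∃ t < L, (v : ℕ) ∈ S c s j t with hBad
  have hBadc : Bad.card ≤ C * C * (L * L * β) := by
    have hsub : Bad.map Fin.valEmbedding ⊆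
        (((range C) ×ˢ (range C)) ×ˢ ((range L) ×ˢ (range L))).biUnion
          fun q => S q.1.1 q.1.2 q.2.1 q.2.2 := by
      intro v hv
      simp only [hBad, mem_map, mem_filter, mem_univ, true_and, Fin.valEmbedding_apply] at hv
      obtain ⟨w, ⟨c, hc, s, hs, j, hj, t, ht, hw⟩, rfl⟩ := hv
      simp only [mem_biUnion, mem_product, mem_range]
      exact ⟨((c, s), (j, t)), ⟨⟨hc, hs⟩, ⟨hj, ht⟩⟩, hw⟩
    calc Bad.card = (Bad.map Fin.valEmbedding).card := (card_map _).symm
      _ ≤ ((((range C) ×ˢ (range C)) ×ˢ ((range L) ×ˢ (range L))).biUnion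
          fun q => S q.1.1 q.1.2 q.2.1 q.2.2).card := card_le_card hsub
      _ ≤ ∑ q ∈ ((range C) ×ˢ (range C)) ×ˢ ((range L) ×ˢ (range L)),
          (S q.1.1 q.1.2 q.2.1 q.2.2).card := card_biUnion_le
      _ ≤ ∑ q ∈ ((range C) ×ˢ (range C)) ×ˢ ((range L) ×ˢ (range L)), β := by
          apply Finset.sum_le_sum
          intro q hq
          simp only [mem_product, mem_range] at hq
          exact hSβ _ hq.1.1 _ hq.1.2 _ hq.2.1 _ hq.2.2
      _ = C * C * (L * L * β) := by
          simp only [sum_const, card_product, card_range, smul_eq_mul]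
          ring
  have key := flow (V := Fin nV) (Am := Fin T) (Aw := Fin T) m n (L * h) N hm hn
    (Nat.mul_pos hL hh) nm nm hNm hNm
    (fun x => rm x) (fun y => rw' y) (fun x => h1 x x.2) (fun y => h2 y y.2)
    (by
      intro κ
      have g1 := hcount κ (fun x => rm x = 0)
      have g2 := hcount κ (fun x => rw' x = 0)
      have g3 := h0 (κ.1 * C + κ.2)
      have g4 : ((range T).filter fun x => x / N = κ.1 * C + κ.2 ∧ rm x = 0).card = _ :=
        Sound2_node nV C N κ.1 κ.2 κ.1.2 κ.2.2 (fun x => rm x = 0)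
      have g5 : ((range T).filter fun x => x / N = κ.1 * C + κ.2 ∧ rw' x = 0).card = _ :=
        Sound2_node nV C N κ.1 κ.2 κ.1.2 κ.2.2 (fun x => rw' x = 0)
      rw [g1, g2, ← g4, ← g5]
      exact g3)
    Pr'
    (by
      intro p hp
      simp only [hPr', mem_filter, mem_univ, true_and] at hp
      obtain ⟨-, -, g3, g4⟩ := hPr _ hp
      exact ⟨g3, g4⟩)
    (by
      intro x
      have g := hPmap (fun p => p.1 = (x : ℕ))
      rw [hPrm x x.2] at g
      rw [← g]
      congr 1
      ext p
      simp only [mem_filter, Fin.ext_iff])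
    (by
      intro x
      have g := hPmap (fun p => p.2 = (x : ℕ))
      rw [hPrw x x.2] at g
      rw [← g]
      congr 1
      ext p
      simp only [mem_filter, Fin.ext_iff])
    Bad
    (by
      intro v hv c s
      by_contra hcon
      push Not at hcon
      apply hv
      obtain ⟨q1, q2⟩ := hcon
      rw [hcount (v, c) (fun x => (s : ℕ) + 1 < rm x)] at q1
      rw [hcount (v, s) (fun x => (c : ℕ) + 1 < rw' x)] at q2
      rw [hNW] at q1 q2
      obtain ⟨j, hj, hj'⟩ := Sound2_pigeon W L h hL hWpos _ q1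
      obtain ⟨t, ht, ht'⟩ := Sound2_pigeon W L h hL hWpos _ q2
      simp only [hBad, mem_filter, mem_univ, true_and]
      refine ⟨c, c.2, s, s.2, j, hj, t, ht, ?_⟩
      simp only [hS, mem_filter, mem_range]
      rw [← hNW] at hj' ht'
      exact ⟨v.2, hj', ht'⟩)
  have key2 : (filter (fun x : Fin T => rm (x : ℕ) = C + 1) univ).card =
      ((range T).filter fun μ => rm μ = C + 1).card := Sound2_card T (fun x => rm x = C + 1)
  rw [Fintype.card_fin] at key
  have key3 : n * ((range T).filter fun μ => rm μ = C + 1).card ≤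
      N * C * nV + n * (2 * N * C * Bad.card + 5 * (L * h) * C * nV + 2 * N * nV * m ^ n) := by
    rw [← key2]; exact key
  rw [hlen, mul_add]
  have key4 : 2 * N * C * Bad.card ≤ 2 * N * C * (C * C * (L * L * β)) :=
    Nat.mul_le_mul_left _ hBadc
  have key5 : n * (2 * N * C * Bad.card + 5 * (L * h) * C * nV + 2 * N * nV * m ^ n) ≤
      n * (2 * N * C * (C * C * (L * L * β)) + 5 * (L * h) * C * nV + 2 * N * nV * m ^ n) := by
    apply Nat.mul_le_mul_left
    omega
  omega

end OST
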